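import Pool.Agent.Helper49.SQ.PK0
import Pool.Agent.Helper49.SQ.Def

/-!
# Package K: etale coordinates among given generators
-/

set_option autoImplicit false
set_option linter.unusedSectionVars false
set_option linter.style.haveILetI false

namespace Pool.Agent.Helper49.SQ

open Pool.Agent.W559.Mg Pool.Agent.Helper46.AQ Pool.Agent.Helper49.PQ

/-- Etale coordinates among given generators. -/
theorem exists_etale_gen {k K : Type} [Field k] [Field K] [Algebra k K] (A : Subalgebra k K)
    (hsm : Algebra.Smooth k A) (Z : Finset K) (hZ : A = Algebra.adjoin k (Z : Set K)) (P : Ideal A)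
    (hP : P.IsPrime) : ∃ (f : K) (hf : f ∈ A), (⟨f, hf⟩ : A) ∉ P ∧
      ∃ (m : ℕ) (x : Fin m → lc A f hf),
        ((MvPolynomial.aeval x : MvPolynomial (Fin m) k →ₐ[k] lc A f hf).toRingHom).Etale ∧
        ∀ j, (x j : K) ∈ Z := by
  classical
  have hZA : ∀ z ∈ Z, z ∈ A := fun z hz => by
    rw [hZ]; exact Algebra.subset_adjoin (Finset.mem_coe.2 hz)
  set Z' : Set A := {a | (a : K) ∈ Z} with hZ'
  have htop : Algebra.adjoin k Z' = ⊤ := by
    apply Subalgebra.map_injective (f := A.val) Subtype.val_injective
    rw [AlgHom.map_adjoin, Algebra.map_top]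
    have h1 : A.val '' Z' = (Z : Set K) := by
      ext z
      constructor
      · rintro ⟨a, ha, rfl⟩
        exact ha
      · intro hz
        exact ⟨⟨z, hZA z hz⟩, hz, rfl⟩
    rw [h1, ← hZ]
    exact (Subalgebra.range_val A).symm
  obtain ⟨g, hg, κ, _, a, het⟩ := Pool.Agent.Helper90.SP.exists_etale Z' htop P
  refine ⟨(g : K), g.2, hg, ?_⟩
  have hg0 : (g : K) ≠ 0 := by
    intro h
    apply hg
    have : g = 0 := Subtype.ext h
    rw [this]
    exact P.zero_mem
  letI algA : Algebra A (lc A (g : K) g.2) :=
    (Subalgebra.inclusion (le_lc A (g : K) g.2)).toRingHom.toAlgebra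
  haveI : IsScalarTower k A (lc A (g : K) g.2) := IsScalarTower.of_algebraMap_eq fun r => rfl
  haveI hloc : IsLocalization.Away g (lc A (g : K) g.2) := isLoc_lc A g.2 (isUnit_iff_ne_zero.2 hg0)
  let e : Localization.Away g ≃ₐ[A] lc A (g : K) g.2 :=
    IsLocalization.algEquiv (Submonoid.powers g) _ _
  have : Fintype κ := Fintype.ofFinite κ
  let ε : Fin (Fintype.card κ) ≃ κ := (Fintype.equivFin κ).symm
  refine ⟨Fintype.card κ, fun j => algebraMap A (lc A (g : K) g.2) (a (ε j) : A), ?_, ?_⟩
  · have h2 : (MvPolynomial.aeval fun j => algebraMap A (lc A (g : K) g.2) (a (ε j) : A) :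
        MvPolynomial (Fin (Fintype.card κ)) k →ₐ[k] lc A (g : K) g.2).toRingHom =
        (e.toRingEquiv.toRingHom.comp ((MvPolynomial.aeval
          (fun i => algebraMap A (Localization.Away g) (a i)) :
          MvPolynomial κ k →ₐ[k] Localization.Away g).toRingHom)).comp
          (MvPolynomial.renameEquiv k ε).toRingEquiv.toRingHom := by
      refine MvPolynomial.ringHom_ext (fun r => ?_) (fun j => ?_)
      · have h3 : e (algebraMap k (Localization.Away g) r) = algebraMap k _ r :=
          (e.restrictScalars k).commutes r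
        simp only [RingHom.comp_apply, AlgHom.toRingHom_eq_coe, RingHom.coe_coe,
          MvPolynomial.algHom_C, RingEquiv.toRingHom_eq_coe,
          AlgEquiv.coe_ringEquiv, MvPolynomial.renameEquiv_apply]
        rw [AlgHom.commutes]
        exact h3.symm
      · simp only [RingHom.comp_apply, AlgHom.toRingHom_eq_coe, RingHom.coe_coe,
          MvPolynomial.aeval_X, RingEquiv.toRingHom_eq_coe,
          AlgEquiv.coe_ringEquiv, MvPolynomial.renameEquiv_apply, MvPolynomial.rename_X]
        exact (e.commutes (a (ε j) : A)).symm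
    rw [h2]
    have h4 : (e.toRingEquiv.toRingHom).Etale := RingHom.Etale.of_bijective e.bijective
    have h5 : ((MvPolynomial.renameEquiv k ε).toRingEquiv.toRingHom).Etale :=
      RingHom.Etale.of_bijective (MvPolynomial.renameEquiv k ε).bijective
    exact RingHom.Etale.stableUnderComposition _ _ h5
      (RingHom.Etale.stableUnderComposition _ _ het h4)
  · intro j
    exact (a (ε j)).2

end Pool.Agent.Helper49.SQ
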