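import Pool.Agent.Helper49.SQ.PT
import Pool.Agent.Helper49.SQ.PK
import Pool.Agent.Helper50.SQ.Lau

/-!
# Package T: etale coordinates on the cone over the power of a smooth projective variety which are
permuted by the inertia group
-/

set_option autoImplicit false
set_option linter.unusedSectionVars false
set_option linter.unusedVariables false

open MvPolynomial TensorProduct

namespace Pool.Agent.Helper49.SQ

open Pool.Agent.W559.Mg Pool.Agent.Helper49.SQ.PTL Pool.Agent.Helper50.SQ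

section idx

variable {k E K : Type} [Field k] [Field E] [Algebra k E] [Field K] [Algebra k K]
  {n N : ℕ} {z : Fin (N + 1) → E} {e : Fin n → E →ₐ[k] K} {t : K}

/-- The generators of the cone. -/
def Zc (z : Fin (N + 1) → E) (e : Fin n → E →ₐ[k] K) (t : K) (a : Fin n → Fin (N + 1)) : K :=
  t * ∏ i, e i (z (a i))

lemma Zc_swap (a b : Fin n → Fin (N + 1)) (i : Fin n) :
    Zc z e t a * Zc z e t b =
      Zc z e t (Function.update a i (b i)) * Zc z e t (Function.update b i (a i)) := by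
  have key : ∀ a b : Fin n → Fin (N + 1), Zc z e t a * Zc z e t b =
      t * t * ∏ j, (e j (z (a j)) * e j (z (b j))) := by
    intro a b
    unfold Zc
    rw [Finset.prod_mul_distrib]
    ring
  rw [key, key]
  congr 1
  refine Finset.prod_congr rfl fun j _ => ?_
  by_cases h : j = i
  · subst h
    rw [Function.update_self, Function.update_self, mul_comm]
  · rw [Function.update_of_ne h, Function.update_of_ne h]

lemma Zc_tau {τ : K →ₐ[k] K} {π : Equiv.Perm (Fin n)} (hτ : ∀ i x, τ (e i x) = e (π i) x)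
    (ht : τ t = t) (a : Fin n → Fin (N + 1)) :
    τ (Zc z e t a) = Zc z e t (fun i => a (π⁻¹ i)) := by
  unfold Zc
  rw [map_mul, map_prod, ht]
  congr 1
  rw [← Equiv.prod_comp π (fun i => e i (z (a (π⁻¹ i))))]
  refine Finset.prod_congr rfl fun i _ => ?_
  rw [hτ]
  simp

/-- An element of a set of indices. -/
noncomputable def pick (s : Set (Fin (N + 1))) : Fin (N + 1) := by
  classical
  exact if h : s.Nonempty then h.some else 0

lemma pick_mem {s : Set (Fin (N + 1))} (h : s.Nonempty) : pick s ∈ s := by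
  unfold pick
  rw [dif_pos h]
  exact h.some_mem

variable {B : Subalgebra k K} {q : Ideal B} (hZB : ∀ a, Zc z e t a ∈ B)

/-- The indices which occur. -/
def Sx (q : Ideal B) (hZB : ∀ a, Zc z e t a ∈ B) (i : Fin n) : Set (Fin (N + 1)) :=
  {j | ∃ a, a i = j ∧ (⟨Zc z e t a, hZB a⟩ : B) ∉ q}

lemma Sx_all (hq : q.IsPrime) (a0 : Fin n → Fin (N + 1)) (h0 : (⟨Zc z e t a0, hZB a0⟩ : B) ∉ q)
    (a : Fin n → Fin (N + 1)) (ha : ∀ i, a i ∈ Sx q hZB i) :
    (⟨Zc z e t a, hZB a⟩ : B) ∉ q := by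
  classical
  have key : ∀ s : Finset (Fin n), (⟨Zc z e t (fun i => if i ∈ s then a i else a0 i), hZB _⟩ : B)
      ∉ q := by
    intro s
    induction s using Finset.induction_on with
    | empty =>
      simpa using h0
    | insert i s hi ih =>
      obtain ⟨b, hb, hbq⟩ := ha i
      intro hcon
      set c : Fin n → Fin (N + 1) := fun i => if i ∈ s then a i else a0 i with hc
      have h1 : Function.update c i (b i) = fun l => if l ∈ insert i s then a l else a0 l := by
        funext l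
        by_cases hl : l = i
        · subst hl
          rw [Function.update_self, hb, if_pos (Finset.mem_insert_self _ _)]
        · rw [Function.update_of_ne hl, hc]
          simp only [Finset.mem_insert, hl, false_or]
      have h2 := Zc_swap (z := z) (e := e) (t := t) c b i
      rw [h1] at h2
      have h3 : (⟨Zc z e t c, hZB c⟩ : B) * ⟨Zc z e t b, hZB b⟩ =
          ⟨Zc z e t (fun l => if l ∈ insert i s then a l else a0 l), hZB _⟩ *
            ⟨Zc z e t (Function.update b i (c i)), hZB _⟩ := Subtype.ext h2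
      have h4 : (⟨Zc z e t c, hZB c⟩ : B) * ⟨Zc z e t b, hZB b⟩ ∈ q := by
        rw [h3]
        exact q.mul_mem_right _ hcon
      rcases hq.mem_or_mem h4 with h5 | h5
      · exact ih h5
      · exact hbq h5
  simpa using key Finset.univ

lemma Sx_perm {τ : K →ₐ[k] K} {π : Equiv.Perm (Fin n)} (hτ : ∀ i x, τ (e i x) = e (π i) x)
    (ht : τ t = t) (hin : ∀ c, c ∈ B → ∀ h : τ c - c ∈ B, (⟨τ c - c, h⟩ : B) ∈ q) (i : Fin n) :
    Sx q hZB (π i) = Sx q hZB i := by
  have key : ∀ a, (⟨Zc z e t a, hZB a⟩ : B) ∈ q ↔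
      (⟨Zc z e t (fun i => a (π⁻¹ i)), hZB _⟩ : B) ∈ q := by
    intro a
    have h1 : τ (Zc z e t a) - Zc z e t a ∈ B := by
      rw [Zc_tau hτ ht]
      exact B.sub_mem (hZB _) (hZB _)
    have h2 := hin _ (hZB a) h1
    have h3 : (⟨Zc z e t (fun i => a (π⁻¹ i)), hZB _⟩ : B) =
        ⟨Zc z e t a, hZB a⟩ + ⟨τ (Zc z e t a) - Zc z e t a, h1⟩ := by
      apply Subtype.ext
      change Zc z e t (fun i => a (π⁻¹ i)) = Zc z e t a + (τ (Zc z e t a) - Zc z e t a)
      rw [Zc_tau hτ ht]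
      ring
    rw [h3]
    exact (Ideal.add_mem_iff_left q h2).symm
  ext j
  constructor
  · rintro ⟨a, ha, haq⟩
    refine ⟨fun l => a (π l), ha, fun hcon => haq ?_⟩
    have h1 := (key _).1 hcon
    simpa using h1
  · rintro ⟨a, ha, haq⟩
    refine ⟨fun l => a (π⁻¹ l), by simpa using ha, fun hcon => haq ?_⟩
    exact (key _).2 hcon

end idx

section data

variable {k E : Type} [Field k] [Field E] [Algebra k E]

/-- Etale coordinates which depend only on the chart and on the set of the elements of a prime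
ideal. -/
theorem exists_data {N : ℕ} (z : Fin (N + 1) → E)
    (hsm : ∀ j, Algebra.Smooth k (Algebra.adjoin k (Set.range fun i => z i / z j)))
    (j : Fin (N + 1)) (X : Set E) : ∃ (f : E) (m : ℕ) (x : Fin m → E),
      ∀ P : Ideal (Algebra.adjoin k (Set.range fun i => z i / z j)), P.IsPrime →
        (∀ y : Algebra.adjoin k (Set.range fun i => z i / z j), y ∈ P ↔ (y : E) ∈ X) →
        ∃ hf : f ∈ Algebra.adjoin k (Set.range fun i => z i / z j),
          (⟨f, hf⟩ : Algebra.adjoin k (Set.range fun i => z i / z j)) ∉ P ∧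
          ∃ hx : ∀ c, x c ∈ lc (Algebra.adjoin k (Set.range fun i => z i / z j)) f hf,
            ((MvPolynomial.aeval (fun c => (⟨x c, hx c⟩ :
              lc (Algebra.adjoin k (Set.range fun i => z i / z j)) f hf)) :
              MvPolynomial (Fin m) k →ₐ[k]
                lc (Algebra.adjoin k (Set.range fun i => z i / z j)) f hf).toRingHom).Etale ∧
            ∀ c, ∃ l, x c = z l / z j := by
  classical
  by_cases h : ∃ P : Ideal (Algebra.adjoin k (Set.range fun i => z i / z j)), P.IsPrime ∧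
      (∀ y : Algebra.adjoin k (Set.range fun i => z i / z j), y ∈ P ↔ (y : E) ∈ X)
  · obtain ⟨P, hP, hPX⟩ := h
    obtain ⟨f, hf, hfP, m, x, hx, hxZ⟩ := exists_etale_gen
      (Algebra.adjoin k (Set.range fun i => z i / z j)) (hsm j)
      (Finset.univ.image fun i => z i / z j) (by
        congr 1
        ext y
        simp) P hP
    refine ⟨f, m, fun c => (x c : E), fun P' hP' hPX' => ?_⟩
    have h1 : P' = P := by
      ext y
      rw [hPX, hPX']
    subst h1
    refine ⟨hf, hfP, fun c => (x c).2, hx, fun c => ?_⟩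
    obtain ⟨l, -, hl⟩ := Finset.mem_image.1 (hxZ c)
    exact ⟨l, hl.symm⟩
  · exact ⟨0, 0, Fin.elim0, fun P hP hPX => absurd ⟨P, hP, hPX⟩ h⟩

end data

/-- Etale coordinates on the cone over the power of a smooth projective variety which are permuted
by the inertia group. -/
theorem cone_etale {k E K : Type} [Field k] [Field E] [Algebra k E] [Field K] [Algebra k K]
    (n N : ℕ) (z : Fin (N + 1) → E) (hz : ∀ i, z i ≠ 0)
    (hsm : ∀ j, Algebra.Smooth k (Algebra.adjoin k (Set.range fun i => z i / z j)))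
    (e : Fin n → E →ₐ[k] K) (g : (⨂[k] _ : Fin n, E) →ₐ[k] K)
    (hg : ∀ i x, g (PiTensorProduct.singleAlgHom (R := k) (A := fun _ : Fin n => E) i x) = e i x)
    (hginj : Function.Injective g) (K0 : IntermediateField k K) (he : ∀ i x, e i x ∈ K0) (t : K)
    (ht : Transcendental K0 t) (Z : Finset K)
    (hZ : ∀ x, x ∈ Z ↔ ∃ a : Fin n → Fin (N + 1), x = t * ∏ i, e i (z (a i)))
    (B : Subalgebra k K) (hB : B = Algebra.adjoin k (Z : Set K)) (q : Ideal B) (hq : q.IsPrime)
    (hqZ : ∃ (x : K) (hx : x ∈ B), x ∈ Z ∧ (⟨x, hx⟩ : B) ∉ q) :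
    ∃ (f : K) (hf : f ∈ B), (⟨f, hf⟩ : B) ∉ q ∧
      ∃ (m : ℕ) (x : Fin m → lc B f hf),
        ((MvPolynomial.aeval x : MvPolynomial (Fin m) k →ₐ[k] lc B f hf).toRingHom).Etale ∧
        (∀ j, (x j : K) ∈ Z) ∧
        ∀ (τ : K →ₐ[k] K) (π : Equiv.Perm (Fin n)), (∀ i x, τ (e i x) = e (π i) x) → τ t = t →
          (∀ c, c ∈ B → ∀ h : τ c - c ∈ B, (⟨τ c - c, h⟩ : B) ∈ q) →
          τ f = f ∧ ∀ j, τ (x j : K) ∈ Submodule.span k (Set.range fun j => (x j : K)) := by
  classical
  have ht0 : t ≠ 0 := by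
    rintro rfl
    exact ht isAlgebraic_zero
  have hZa : ∀ a, Zc z e t a ∈ Z := fun a => (hZ _).2 ⟨a, rfl⟩
  have hZB : ∀ a, Zc z e t a ∈ B := fun a => by
    rw [hB]
    exact Algebra.subset_adjoin (hZa a)
  obtain ⟨a0, h0⟩ : ∃ a0, (⟨Zc z e t a0, hZB a0⟩ : B) ∉ q := by
    obtain ⟨x, hx, hxZ, hxq⟩ := hqZ
    obtain ⟨a, rfl⟩ := (hZ x).1 hxZ
    exact ⟨a, hxq⟩
  let α : Fin n → Fin (N + 1) := fun i => pick (Sx q hZB i)
  have hα : (⟨Zc z e t α, hZB α⟩ : B) ∉ q :=
    Sx_all hZB hq a0 h0 α fun i => pick_mem ⟨a0 i, a0, rfl, h0⟩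
  set s0 : K := Zc z e t α with hs0
  have hs0B : s0 ∈ B := hZB α
  have hee : ∀ i x, x ≠ 0 → e i x ≠ 0 := fun i x hx => (map_ne_zero_iff _ (e i).injective).2 hx
  have hs00 : s0 ≠ 0 := mul_ne_zero ht0 (Finset.prod_ne_zero_iff.2 fun i _ => hee i _ (hz _))
  -- the quotients
  have hquot : ∀ i l, Zc z e t (Function.update α i l) = s0 * e i (z l / z (α i)) := by
    intro i l
    rw [hs0]
    unfold Zc
    rw [← Finset.mul_prod_erase _ _ (Finset.mem_univ i),
      ← Finset.mul_prod_erase _ (fun i => e i (z (α i))) (Finset.mem_univ i), map_div₀,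
      Function.update_self]
    have h1 : ∏ x ∈ Finset.univ.erase i, e x (z (Function.update α i l x)) =
        ∏ x ∈ Finset.univ.erase i, e x (z (α x)) :=
      Finset.prod_congr rfl fun x hx => by rw [Function.update_of_ne (Finset.ne_of_mem_erase hx)]
    rw [h1]
    have h2 := hee i _ (hz (α i))
    field_simp
  have hquot' : ∀ a, Zc z e t a = s0 * ∏ i, e i (z (a i) / z (α i)) := by
    intro a
    rw [hs0]
    unfold Zc
    rw [mul_assoc, ← Finset.prod_mul_distrib]
    congr 1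
    refine Finset.prod_congr rfl fun i _ => ?_
    rw [map_div₀]
    have h2 := hee i _ (hz (α i))
    field_simp
  -- the charts
  let A : Fin (N + 1) → Subalgebra k E := fun j =>
    Algebra.adjoin k (Set.range fun i => z i / z j)
  have hAz : ∀ j l, z l / z j ∈ A j := fun j l => Algebra.subset_adjoin ⟨l, rfl⟩
  let B1 : Subalgebra k K := lc B s0 hs0B
  have hBB1 : B ≤ B1 := le_lc _ _ _
  have hs0i : s0⁻¹ ∈ B1 := inv_mem_lc _ _ _ _ (mul_inv_cancel₀ hs00)
  have heA : ∀ i, ∀ y ∈ A (α i), e i y ∈ B1 := by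
    intro i
    have h1 : A (α i) ≤ B1.comap (e i) := by
      refine Algebra.adjoin_le ?_
      rintro _ ⟨l, rfl⟩
      change e i (z l / z (α i)) ∈ B1
      have h2 : e i (z l / z (α i)) = s0⁻¹ * Zc z e t (Function.update α i l) := by
        rw [hquot, inv_mul_cancel_left₀ hs00]
      rw [h2]
      exact B1.mul_mem hs0i (hBB1 (hZB _))
    exact fun y hy => h1 hy
  let T : Subalgebra k K := TTF e fun i => A (α i)
  have hTB1 : T ≤ B1 := TTF_le e _ _ heA
  -- the prime ideal
  let _ : Algebra B B1 := (Subalgebra.inclusion hBB1).toRingHom.toAlgebra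
  have hloc : IsLocalization.Away (⟨s0, hs0B⟩ : B) B1 := isLoc_lc B hs0B (Ne.isUnit hs00)
  let q1 : Ideal B1 := q.map (algebraMap B B1)
  have hdisj : Disjoint (Submonoid.powers (⟨s0, hs0B⟩ : B) : Set B) (q : Set B) := by
    rw [Set.disjoint_left]
    rintro _ ⟨m, rfl⟩ hm
    exact hα (hq.mem_of_pow_mem m hm)
  have hq1 : q1.IsPrime :=
    IsLocalization.isPrime_of_isPrime_disjoint (Submonoid.powers (⟨s0, hs0B⟩ : B)) B1 q hq hdisj
  have hq1c : ∀ b : B, algebraMap B B1 b ∈ q1 ↔ b ∈ q := by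
    intro b
    have h1 := IsLocalization.under_map_of_isPrime_disjoint
      (Submonoid.powers (⟨s0, hs0B⟩ : B)) B1 hq hdisj
    constructor
    · intro h
      rw [← h1]
      exact h
    · intro h
      exact Ideal.mem_map_of_mem _ h
  let QT : Ideal T := q1.comap (Subalgebra.inclusion hTB1)
  let P : ∀ i, Ideal (A (α i)) := fun i => QT.comap (TTFj e (fun i => A (α i)) i)
  have hPp : ∀ i, (P i).IsPrime := fun i => (hq1.comap _).comap _
  let X : Fin n → Set E := fun i =>
    {y | y ∈ A (α i) ∧ ∃ h : e i y ∈ B1, (⟨e i y, h⟩ : B1) ∈ q1}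
  have hPX : ∀ i (y : A (α i)), y ∈ P i ↔ (y : E) ∈ X i := by
    intro i y
    constructor
    · intro h
      exact ⟨y.2, heA i y y.2, h⟩
    · rintro ⟨-, h, h'⟩
      exact h'
  choose f m x hx using exists_data z hsm
  have hdat := fun i => hx (α i) (X i) (P i) (hPp i) (hPX i)
  choose hf hfP hxm het hxz using hdat
  let f' : Fin n → E := fun i => f (α i) (X i)
  have hf'0 : ∀ i, f' i ≠ 0 := by
    intro i h
    apply hfP i
    have h1 : (⟨f (α i) (X i), hf i⟩ : A (α i)) = 0 := Subtype.ext h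
    rw [h1]
    exact (P i).zero_mem
  let A' : Fin n → Subalgebra k E := fun i => lc (A (α i)) (f' i) (hf i)
  let T' : Subalgebra k K := TTF e A'
  let κ : Fin n → Type := fun i => Fin (m (α i) (X i))
  let y : ∀ i, κ i → A' i := fun i c => ⟨x (α i) (X i) c, hxm i c⟩
  have hjB := isCoprod_TTF e hg hginj A'
  have hft : ∀ i, Algebra.FiniteType k (A' i) := fun i =>
    finiteType_lc (A (α i)) (by
      have := hsm (α i)
      change Algebra.FiniteType k (Algebra.adjoin k (Set.range fun l => z l / z (α i)))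
      infer_instance) _ _ (hf'0 i)
  have het' := coprod_etale' hjB hft y het
  have hftT' : Algebra.FiniteType k T' := coprod_finiteType hjB hft
  -- transcendence
  have hT'K0 : ∀ a ∈ T', a ∈ K0 := by
    have h1 : T' ≤ K0.toSubalgebra := TTF_le e _ _ fun i x _ => he i x
    exact fun a ha => h1 ha
  have hs0tr : Transcendental K0 s0 := by
    intro halg
    apply ht
    have hu : ∏ i, e i (z (α i)) ∈ K0 := K0.prod_mem fun i _ => he i _
    have hu0 : ∏ i, e i (z (α i)) ≠ 0 := Finset.prod_ne_zero_iff.2 fun i _ => hee i _ (hz _)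
    have h1 : t = s0 * algebraMap K0 K ⟨(∏ i, e i (z (α i)))⁻¹, K0.inv_mem hu⟩ := by
      change t = t * (∏ i, e i (z (α i))) * (∏ i, e i (z (α i)))⁻¹
      rw [mul_inv_cancel_right₀ hu0]
    rw [h1]
    exact halg.mul (isAlgebraic_algebraMap _)
  have htr : Transcendental T' s0 := by
    rw [transcendental_iff_injective, injective_iff_map_eq_zero]
    intro p hp
    let ψ : T' →+* K0 := (Subalgebra.inclusion (S := T') (T := K0.toSubalgebra)
      fun a ha => hT'K0 a ha).toRingHom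
    have hψ : Function.Injective ψ := fun a b hab => by
      apply Subtype.ext
      have h := congrArg (fun c : K0 => (c : K)) hab
      exact h
    have h1 : Polynomial.aeval s0 (p.map ψ) = 0 := by
      rw [Polynomial.aeval_def, Polynomial.eval₂_map]
      exact hp
    have h2 : p.map ψ = 0 := by
      by_contra hne
      exact hs0tr ⟨p.map ψ, hne, h1⟩
    exact (Polynomial.map_eq_zero_iff hψ).1 h2
  -- the final denominator
  have hefB1 : ∀ i, e i (f' i) ∈ B1 := fun i => heA i _ (hf i)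
  have hprodB1 : ∏ i, e i (f' i) ∈ B1 := B1.prod_mem fun i _ => hefB1 i
  obtain ⟨R, hR⟩ := hprodB1
  have hR' : s0 ^ R * ∏ i, e i (f' i) ∈ B := hR
  let F : K := s0 * (s0 ^ R * ∏ i, e i (f' i))
  have hF : F ∈ B := B.mul_mem hs0B hR'
  have hFq : (⟨F, hF⟩ : B) ∉ q := by
    intro hcon
    have h1 : (⟨F, hF⟩ : B) = ⟨s0, hs0B⟩ * ⟨_, hR'⟩ := rfl
    rw [h1] at hcon
    rcases hq.mem_or_mem hcon with h2 | h2
    · exact hα h2
    · have h3 := (hq1c _).2 h2
      have h4 : algebraMap B B1 ⟨s0 ^ R * ∏ i, e i (f' i), hR'⟩ =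
          algebraMap B B1 ⟨s0, hs0B⟩ ^ R * ∏ i, (⟨e i (f' i), hefB1 i⟩ : B1) := by
        apply Subtype.ext
        change s0 ^ R * ∏ i, e i (f' i) = (B1.val (algebraMap B B1 ⟨s0, hs0B⟩ ^ R *
          ∏ i, (⟨e i (f' i), hefB1 i⟩ : B1)))
        rw [map_mul, map_pow, map_prod]
        rfl
      rw [h4] at h3
      rcases hq1.mem_or_mem h3 with h5 | h5
      · exact hα ((hq1c _).1 (hq1.mem_of_pow_mem _ h5))
      · obtain ⟨i, -, h6⟩ := (hq1.prod_mem_iff).1 h5
        exact hfP i h6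
  have hprod0 : ∏ i, e i (f' i) ≠ 0 := Finset.prod_ne_zero_iff.2 fun i _ => hee i _ (hf'0 i)
  have hF0 : F ≠ 0 := mul_ne_zero hs00 (mul_ne_zero (pow_ne_zero _ hs00) hprod0)
  -- comparison
  have hs0L : s0 ∈ Lau T' s0 := s_mem_Lau T' s0
  have hs0iL : s0⁻¹ ∈ Lau T' s0 := sinv_mem_Lau T' htr
  have hT'L : T' ≤ Lau T' s0 := T_le_Lau T' s0
  have hA'T' : ∀ i, ∀ y ∈ A' i, e i y ∈ T' := fun i y hy => e_mem_TTF e A' i hy
  have hAA' : ∀ i, A (α i) ≤ A' i := fun i => le_lc _ _ _
  have hBL : B ≤ Lau T' s0 := by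
    rw [hB]
    refine Algebra.adjoin_le ?_
    intro b hb
    obtain ⟨a, rfl⟩ := (hZ b).1 hb
    change Zc z e t a ∈ Lau T' s0
    rw [hquot']
    exact (Lau T' s0).mul_mem hs0L ((Lau T' s0).prod_mem fun i _ =>
      hT'L (hA'T' i _ (hAA' i (hAz _ _))))
  have hFiL : F⁻¹ ∈ Lau T' s0 := by
    have h1 : F⁻¹ = s0⁻¹ * (s0⁻¹ ^ R * ∏ i, e i (f' i)⁻¹) := by
      change (s0 * (s0 ^ R * ∏ i, e i (f' i)))⁻¹ = _
      rw [mul_inv, mul_inv, inv_pow]
      congr 2
      rw [← Finset.prod_inv_distrib]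
      exact Finset.prod_congr rfl fun i _ => (map_inv₀ (e i) _).symm
    rw [h1]
    refine (Lau T' s0).mul_mem hs0iL ((Lau T' s0).mul_mem ((Lau T' s0).pow_mem hs0iL _)
      ((Lau T' s0).prod_mem fun i _ => hT'L (hA'T' i _ ?_)))
    exact inv_mem_lc _ _ _ _ (mul_inv_cancel₀ (hf'0 i))
  have hle1 : lc B F hF ≤ Lau T' s0 := lc_le hF (mul_inv_cancel₀ hF0) hBL hFiL
  have hBl : B ≤ lc B F hF := le_lc _ _ _
  have hFi : F⁻¹ ∈ lc B F hF := inv_mem_lc _ _ _ _ (mul_inv_cancel₀ hF0)
  have hs0il : s0⁻¹ ∈ lc B F hF := by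
    have h1 : s0⁻¹ = F⁻¹ * (s0 ^ R * ∏ i, e i (f' i)) := by
      change _ = (s0 * (s0 ^ R * ∏ i, e i (f' i)))⁻¹ * _
      have h2 : s0 ^ R * ∏ i, e i (f' i) ≠ 0 := mul_ne_zero (pow_ne_zero _ hs00) hprod0
      rw [mul_inv, mul_assoc, inv_mul_cancel₀ h2, mul_one]
    rw [h1]
    exact (lc B F hF).mul_mem hFi (hBl hR')
  have hB1l : B1 ≤ lc B F hF := lc_le hs0B (mul_inv_cancel₀ hs00) hBl hs0il
  have hT'l : T' ≤ lc B F hF := by
    refine TTF_le e _ _ ?_
    intro i y hy
    have hinv : e i (f' i)⁻¹ ∈ lc B F hF := by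
      have h1 : e i (f' i)⁻¹ = F⁻¹ * (s0 * s0 ^ R) * ∏ l ∈ Finset.univ.erase i, e l (f' l) := by
        change _ = (s0 * (s0 ^ R * ∏ i, e i (f' i)))⁻¹ * _ * _
        rw [← Finset.mul_prod_erase _ (fun l => e l (f' l)) (Finset.mem_univ i), map_inv₀]
        have h2 := hee i _ (hf'0 i)
        have h3 : ∏ l ∈ Finset.univ.erase i, e l (f' l) ≠ 0 :=
          Finset.prod_ne_zero_iff.2 fun l _ => hee l _ (hf'0 l)
        field_simp
      rw [h1]
      refine (lc B F hF).mul_mem ((lc B F hF).mul_mem hFi ((lc B F hF).mul_mem (hBl hs0B)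
        ((lc B F hF).pow_mem (hBl hs0B) _))) ((lc B F hF).prod_mem fun l _ => hB1l (hefB1 l))
    have h1 : A' i ≤ (lc B F hF).comap (e i) :=
      lc_le (hf i) (mul_inv_cancel₀ (hf'0 i)) (fun y hy => hB1l (heA i y hy)) hinv
    exact h1 hy
  have hle2 : Lau T' s0 ≤ lc B F hF :=
    lc_le _ (mul_inv_cancel₀ hs00) (adT_le T' s0 hT'l (hBl hs0B)) hs0il
  have heq : lc B F hF = Lau T' s0 := le_antisymm hle1 hle2
  -- the coordinates
  let cc : (Σ i, κ i) → T' := fun c => TTFj e A' c.1 (y c.1 c.2)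
  have hcc : ∀ c, (cc c : K) = e c.1 (x (α c.1) (X c.1) c.2) := fun c => rfl
  let w : Option (Σ i, κ i) → Lau T' s0 := fun o => match o with
    | none => ⟨s0, hs0L⟩
    | some c => ⟨s0 * cc c, (Lau T' s0).mul_mem hs0L (hT'L (cc c).2)⟩
  have hw0 : (w none : K) = s0 := rfl
  have hw : ∀ c, (w (some c) : K) = s0 * cc c := fun c => rfl
  have hwe := laurent_etale T' htr hftT' cc het' w hw0 hw
  let E' := Fintype.equivFin (Option (Σ i, κ i))
  have hmain : ((aeval (fun i => w (E'.symm i)) :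
      MvPolynomial (Fin (Fintype.card (Option (Σ i, κ i)))) k →ₐ[k] Lau T' s0).toRingHom).Etale := by
    have h1 : (aeval (fun i => w (E'.symm i)) :
        MvPolynomial (Fin (Fintype.card (Option (Σ i, κ i)))) k →ₐ[k] Lau T' s0).toRingHom =
        ((aeval w : MvPolynomial (Option (Σ i, κ i)) k →ₐ[k] Lau T' s0).toRingHom).comp
          (MvPolynomial.renameEquiv k E'.symm : _ →+* _) := by
      apply MvPolynomial.ringHom_ext
      · intro r
        change aeval _ (C r) = aeval w (rename E'.symm (C r))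
        rw [rename_C, aeval_C, aeval_C]
      · intro i
        change aeval _ (MvPolynomial.X i) = aeval w (rename E'.symm (MvPolynomial.X i))
        rw [rename_X, aeval_X, aeval_X]
    rw [h1]
    refine RingHom.Etale.stableUnderComposition _ _ ?_ hwe
    exact RingHom.Etale.of_bijective (MvPolynomial.renameEquiv k E'.symm).bijective
  have hxc : ∀ (j j' : Fin (N + 1)) (Y Y' : Set E) (h : j = j') (h' : Y = Y') (c : Fin (m j Y)),
      x j Y c = x j' Y' (Fin.cast (by rw [h, h']) c) := by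
    rintro j _ Y _ rfl rfl c
    rfl
  -- the inertia group
  have hin : ∀ (τ : K →ₐ[k] K) (π : Equiv.Perm (Fin n)), (∀ i x, τ (e i x) = e (π i) x) →
      τ t = t → (∀ c, c ∈ B → ∀ h : τ c - c ∈ B, (⟨τ c - c, h⟩ : B) ∈ q) →
      (∀ i, α (π i) = α i) ∧ τ s0 = s0 ∧ ∀ i, X (π i) = X i := by
    intro τ π hτ hτt hdq
    have hαπ : ∀ i, α (π i) = α i := fun i => by
      change pick (Sx q hZB (π i)) = pick (Sx q hZB i)
      rw [Sx_perm hZB hτ hτt hdq]
    have hτs : τ s0 = s0 := by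
      rw [hs0, Zc_tau hτ hτt]
      congr 1
      funext i
      have h1 := hαπ (π⁻¹ i)
      rw [← h1]
      simp
    refine ⟨hαπ, hτs, ?_⟩
    have hτB : ∀ b ∈ B, τ b ∈ B := by
      have h1 : B ≤ B.comap τ := by
        conv_lhs => rw [hB]
        refine Algebra.adjoin_le ?_
        intro b hb
        obtain ⟨a, rfl⟩ := (hZ b).1 hb
        change τ (Zc z e t a) ∈ B
        rw [Zc_tau hτ hτt]
        exact hZB _
      exact fun b hb => h1 hb
    -- the differences are in `q1`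
    have hτB1 : ∀ b ∈ B1, ∀ h : τ b - b ∈ B1, (⟨τ b - b, h⟩ : B1) ∈ q1 := by
      rintro b ⟨r, hr⟩ h
      have h1 : s0 ^ r * (τ b - b) = τ (s0 ^ r * b) - s0 ^ r * b := by
        rw [map_mul, map_pow, hτs]
        ring
      have h2 : τ (s0 ^ r * b) - s0 ^ r * b ∈ B := B.sub_mem (hτB _ hr) hr
      have h3 := (hq1c _).2 (hdq _ hr h2)
      have h4 : algebraMap B B1 ⟨τ (s0 ^ r * b) - s0 ^ r * b, h2⟩ =
          algebraMap B B1 ⟨s0, hs0B⟩ ^ r * ⟨τ b - b, h⟩ := by
        apply Subtype.ext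
        exact h1.symm
      rw [h4] at h3
      rcases hq1.mem_or_mem h3 with h5 | h5
      · exact absurd ((hq1c _).1 (hq1.mem_of_pow_mem _ h5)) hα
      · exact h5
    intro i
    ext v
    have key : ∀ (h1 : e i v ∈ B1) (h2 : e (π i) v ∈ B1),
        (⟨e (π i) v, h2⟩ : B1) ∈ q1 ↔ (⟨e i v, h1⟩ : B1) ∈ q1 := by
      intro h1 h2
      have h3 : τ (e i v) - e i v ∈ B1 := by
        rw [hτ]
        exact B1.sub_mem h2 h1
      have h4 := hτB1 _ h1 h3
      have h5 : (⟨e (π i) v, h2⟩ : B1) = ⟨e i v, h1⟩ + ⟨τ (e i v) - e i v, h3⟩ := by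
        apply Subtype.ext
        change e (π i) v = e i v + (τ (e i v) - e i v)
        rw [hτ]
        ring
      rw [h5]
      exact Ideal.add_mem_iff_left q1 h4
    have hA : ∀ j, v ∈ A (α j) → e j v ∈ B1 := fun j hv => heA j v hv
    constructor
    · rintro ⟨h0, h1, h2⟩
      have h0' : v ∈ A (α i) := by rw [← hαπ i]; exact h0
      exact ⟨h0', hA i h0', (key (hA i h0') h1).1 h2⟩
    · rintro ⟨h0, h1, h2⟩
      have h0' : v ∈ A (α (π i)) := by rw [hαπ i]; exact h0
      exact ⟨h0', hA _ h0', (key h1 (hA _ h0')).2 h2⟩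
  have key0 : ∃ (m : ℕ) (x : Fin m → Lau T' s0),
      ((MvPolynomial.aeval x : MvPolynomial (Fin m) k →ₐ[k] Lau T' s0).toRingHom).Etale ∧
      (∀ j, (x j : K) ∈ Z) ∧
      ∀ (τ : K →ₐ[k] K) (π : Equiv.Perm (Fin n)), (∀ i x, τ (e i x) = e (π i) x) → τ t = t →
        (∀ c, c ∈ B → ∀ h : τ c - c ∈ B, (⟨τ c - c, h⟩ : B) ∈ q) →
        τ F = F ∧ ∀ j, τ (x j : K) ∈ Submodule.span k (Set.range fun j => (x j : K)) := by
    refine ⟨Fintype.card (Option (Σ i, κ i)), fun i => w (E'.symm i), hmain, ?_, ?_⟩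
    · intro j
      have hwZ : ∀ o, (w o : K) ∈ Z := by
        intro o
        rcases o with _ | c
        · rw [hw0]
          exact hZa α
        · rw [hw, hcc]
          obtain ⟨l, hl⟩ := hxz c.1 c.2
          rw [hl, ← hquot]
          exact hZa _
      exact hwZ _
    · intro τ π hτ hτt hdq
      obtain ⟨hαπ, hτs, hXπ⟩ := hin τ π hτ hτt hdq
      constructor
      · change τ (s0 * (s0 ^ R * ∏ i, e i (f' i))) = _
        rw [map_mul, map_mul, map_pow, hτs, map_prod]
        have h1 : ∀ i, τ (e i (f' i)) = e (π i) (f' (π i)) := by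
          intro i
          rw [hτ]
          change e (π i) (f (α i) (X i)) = e (π i) (f (α (π i)) (X (π i)))
          rw [hαπ, hXπ]
        rw [Finset.prod_congr rfl fun i _ => h1 i]
        rw [Equiv.prod_comp π fun i => e i (f' i)]
      · intro j
        apply Submodule.subset_span
        have hτw : ∀ o, ∃ l, (w (E'.symm l) : K) = τ (w o) := by
          intro o
          rcases o with _ | c
          · refine ⟨E' none, ?_⟩
            rw [E'.symm_apply_apply, hw0, hτs]
          · let c' : Σ i, κ i := ⟨π c.1, Fin.cast (by rw [hαπ, hXπ]) c.2⟩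
            refine ⟨E' (some c'), ?_⟩
            rw [E'.symm_apply_apply, hw, hw, map_mul, hτs, hcc, hcc, hτ]
            change s0 * e (π c.1) (x (α (π c.1)) (X (π c.1)) _) = _
            rw [hxc (α c.1) (α (π c.1)) (X c.1) (X (π c.1)) (hαπ c.1).symm (hXπ c.1).symm c.2]
        exact hτw _
  refine ⟨F, hF, hFq, ?_⟩
  have key : ∀ C : Subalgebra k K, C = Lau T' s0 → ∃ (m : ℕ) (x : Fin m → C),
      ((MvPolynomial.aeval x : MvPolynomial (Fin m) k →ₐ[k] C).toRingHom).Etale ∧
      (∀ j, (x j : K) ∈ Z) ∧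
      ∀ (τ : K →ₐ[k] K) (π : Equiv.Perm (Fin n)), (∀ i x, τ (e i x) = e (π i) x) → τ t = t →
        (∀ c, c ∈ B → ∀ h : τ c - c ∈ B, (⟨τ c - c, h⟩ : B) ∈ q) →
        τ F = F ∧ ∀ j, τ (x j : K) ∈ Submodule.span k (Set.range fun j => (x j : K)) := by
    intro C hC
    subst hC
    exact key0
  exact key _ heq

end Pool.Agent.Helper49.SQ
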