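import Pool.Agent.Helper49.SQ.Fam
import Pool.Agent.Helper49.PQ.Grd3
import Pool.Agent.Helper49.PN.E3
import Pool.Agent.Helper49.SQ.PTL

/-!
# Package R of the projective version: regular models of the quotients of the powers of smooth
projective varieties, from `hasModel_of_SB` and `cone_etale`
-/

set_option autoImplicit false
set_option linter.unusedSectionVars false
set_option linter.unusedVariables false

namespace Pool.Agent.Helper82.SQ

open Finset Pool.Agent.W559.Mg Pool.Agent.Helper46.AQ Pool.Agent.Helper49.PQ Pointwise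
  Pool.Agent.Helper49.PN TensorProduct Pool.Agent.Helper49.SQ Pool.Agent.Helper49.SQ.PTL

/-- The statement of `hasModel_of_SB`. -/
def SBStm : Prop := ∀ (k K : Type) [Field k] [Field K] [Algebra k K] [DecidableEq K] (G : Type)
    [Group G] [Fintype G] [DecidableEq G] (ρ : G →* (K ≃ₐ[k] K)) (B : Subalgebra k K)
    (Z : Finset K) [Finite k] (_ : SB ρ B Z) (_ : LLZ ρ B Z) (p : ℕ) [Fact p.Prime]
    [CharP k p] (_ : ¬ p ^ 2 ∣ Nat.card G) (K0 F : IntermediateField k K) (t : K)
    (_ : Scl ρ Z K0 F t) (_ : t ≠ 0), HasModel F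

/-- The statement of `cone_etale`. -/
def ConeStm : Prop := ∀ (k E K : Type) [Field k] [Field E] [Algebra k E] [Field K] [Algebra k K]
    (n N : ℕ) (z : Fin (N + 1) → E) (_ : ∀ i, z i ≠ 0)
    (_ : ∀ j, Algebra.Smooth k (Algebra.adjoin k (Set.range fun i => z i / z j)))
    (e : Fin n → E →ₐ[k] K) (g : (⨂[k] _ : Fin n, E) →ₐ[k] K)
    (_ : ∀ i x, g (PiTensorProduct.singleAlgHom (R := k) (A := fun _ : Fin n => E) i x) = e i x)
    (_ : Function.Injective g) (K0 : IntermediateField k K) (_ : ∀ i x, e i x ∈ K0) (t : K)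
    (_ : Transcendental K0 t) (Z : Finset K)
    (_ : ∀ x, x ∈ Z ↔ ∃ a : Fin n → Fin (N + 1), x = t * ∏ i, e i (z (a i)))
    (B : Subalgebra k K) (_ : B = Algebra.adjoin k (Z : Set K)) (q : Ideal B) (_ : q.IsPrime)
    (_ : ∃ (x : K) (hx : x ∈ B), x ∈ Z ∧ (⟨x, hx⟩ : B) ∉ q),
    ∃ (f : K) (hf : f ∈ B), (⟨f, hf⟩ : B) ∉ q ∧
      ∃ (m : ℕ) (x : Fin m → lc B f hf),
        ((MvPolynomial.aeval x : MvPolynomial (Fin m) k →ₐ[k] lc B f hf).toRingHom).Etale ∧
        (∀ j, (x j : K) ∈ Z) ∧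
        ∀ (τ : K →ₐ[k] K) (π : Equiv.Perm (Fin n)), (∀ i x, τ (e i x) = e (π i) x) → τ t = t →
          (∀ c, c ∈ B → ∀ h : τ c - c ∈ B, (⟨τ c - c, h⟩ : B) ∈ q) →
          τ f = f ∧ ∀ j, τ (x j : K) ∈ Submodule.span k (Set.range fun j => (x j : K))

/-- The permutation of the factors of the algebra `⨂ A`: it maps `⨂ a_i` to `⨂ a_{π i}`. -/
noncomputable def perm (k A : Type) [Field k] [CommRing A] [Algebra k A] {n : ℕ}
    (π : Equiv.Perm (Fin n)) : (⨂[k] _ : Fin n, A) →ₐ[k] (⨂[k] _ : Fin n, A) :=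
  PiTensorProduct.liftAlgHom
    ((PiTensorProduct.tprod k : MultilinearMap k (fun _ : Fin n => A) _).domDomCongr π)
    (by
      rw [MultilinearMap.domDomCongr_apply, PiTensorProduct.one_def]
      rfl)
    (by
      intro x y
      rw [MultilinearMap.domDomCongr_apply, MultilinearMap.domDomCongr_apply,
        MultilinearMap.domDomCongr_apply, PiTensorProduct.tprod_mul_tprod]
      rfl)

section pm

variable {k A : Type} [Field k] [CommRing A] [Algebra k A] {n : ℕ}

/-- The inclusion of a factor. -/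
noncomputable abbrev sg (k A : Type) [Field k] [CommRing A] [Algebra k A] {n : ℕ} (i : Fin n) :
    A →ₐ[k] (⨂[k] _ : Fin n, A) :=
  PiTensorProduct.singleAlgHom (R := k) (A := fun _ : Fin n => A) i

lemma perm_tprod (π : Equiv.Perm (Fin n)) (v : Fin n → A) :
    perm k A π (PiTensorProduct.tprod k v) = PiTensorProduct.tprod k fun j => v (π j) := by
  have h : perm k A π (PiTensorProduct.tprod k v) = PiTensorProduct.lift
      ((PiTensorProduct.tprod k : MultilinearMap k (fun _ : Fin n => A) _).domDomCongr π)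
      (PiTensorProduct.tprod k v) := rfl
  rw [h, PiTensorProduct.lift.tprod, MultilinearMap.domDomCongr_apply]

lemma sg_eq (i : Fin n) (a : A) :
    sg k A i a = PiTensorProduct.tprod k (Pi.mulSingle (M := fun _ : Fin n => A) i a) := rfl

lemma perm_sg (π : Equiv.Perm (Fin n)) (i : Fin n) (a : A) :
    perm k A π (sg k A i a) = sg k A (π⁻¹ i) a := by
  rw [sg_eq, sg_eq, perm_tprod]
  congr 1
  funext j
  by_cases h : j = π⁻¹ i
  · subst h
    have h2 : π (π⁻¹ i) = i := by simp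
    rw [h2, Pi.mulSingle_eq_same, Pi.mulSingle_eq_same]
  · have h2 : π j ≠ i := by
      intro h3
      apply h
      rw [← h3]
      simp
    rw [Pi.mulSingle_eq_of_ne h2, Pi.mulSingle_eq_of_ne h]

lemma ten_ext {S : Type} [CommRing S] [Algebra k S] {f g : (⨂[k] _ : Fin n, A) →ₐ[k] S}
    (h : ∀ i a, f (sg k A i a) = g (sg k A i a)) : f = g := by
  classical
  exact (isCoprod_pi (k := k) (A := fun _ : Fin n => A)).ext S f g h

lemma perm_perm (π σ : Equiv.Perm (Fin n)) (b : ⨂[k] _ : Fin n, A) :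
    perm k A π (perm k A σ b) = perm k A (σ * π) b := by
  have h : (perm k A π).comp (perm k A σ) = perm k A (σ * π) := by
    apply ten_ext
    intro i a
    rw [AlgHom.comp_apply, perm_sg, perm_sg, perm_sg, mul_inv_rev]
    rfl
  exact congrArg (fun f : (⨂[k] _ : Fin n, A) →ₐ[k] (⨂[k] _ : Fin n, A) => f b) h

lemma perm_one (b : ⨂[k] _ : Fin n, A) : perm k A 1 b = b := by
  have h : perm k A 1 = AlgHom.id k (⨂[k] _ : Fin n, A) := by
    apply ten_ext
    intro i a
    rw [perm_sg, inv_one]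
    rfl
  exact congrArg (fun f : (⨂[k] _ : Fin n, A) →ₐ[k] (⨂[k] _ : Fin n, A) => f b) h

/-- The action of the permutations on the tensor power: `a` in the factor `i` is sent to `a` in the
factor `π i`. -/
noncomputable def PEq (k A : Type) [Field k] [CommRing A] [Algebra k A] (n : ℕ) :
    Equiv.Perm (Fin n) →* ((⨂[k] _ : Fin n, A) ≃ₐ[k] (⨂[k] _ : Fin n, A)) where
  toFun π := AlgEquiv.ofAlgHom (perm k A π⁻¹) (perm k A π)
    (AlgHom.ext fun b => by
      change perm k A π⁻¹ (perm k A π b) = b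
      rw [perm_perm, mul_inv_cancel, perm_one])
    (AlgHom.ext fun b => by
      change perm k A π (perm k A π⁻¹ b) = b
      rw [perm_perm, inv_mul_cancel, perm_one])
  map_one' := AlgEquiv.ext fun b => by
    change perm k A 1⁻¹ b = b
    rw [inv_one, perm_one]
  map_mul' π σ := AlgEquiv.ext fun b => by
    change perm k A (π * σ)⁻¹ b = perm k A π⁻¹ (perm k A σ⁻¹ b)
    rw [perm_perm, mul_inv_rev]

lemma PEq_apply (π : Equiv.Perm (Fin n)) (b : ⨂[k] _ : Fin n, A) :
    PEq k A n π b = perm k A π⁻¹ b := rfl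

lemma PEq_sg (π : Equiv.Perm (Fin n)) (i : Fin n) (a : A) :
    PEq k A n π (sg k A i a) = sg k A (π i) a := by
  rw [PEq_apply, perm_sg, inv_inv]

end pm

section cone

variable {k E K : Type} [Field k] [Field E] [Algebra k E] [Field K] [Algebra k K] {n N : ℕ}

/-- The factors are in the field of the cone. -/
lemma mem_Q (z : Fin (N + 1) → E) (hz : ∀ i, z i ≠ 0)
    (hE : IntermediateField.adjoin k {x | ∃ i j, x = z i / z j} = ⊤)
    (e : Fin n → E →ₐ[k] K) (t : K) (ht : t ≠ 0) (Z : Finset K)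
    (hZ : ∀ x, x ∈ Z ↔ ∃ a : Fin n → Fin (N + 1), x = t * ∏ i, e i (z (a i))) (i : Fin n)
    (x : E) : e i x ∈ IntermediateField.adjoin k (Z : Set K) := by
  classical
  have h1 : ∀ a : Fin n → Fin (N + 1),
      t * ∏ i, e i (z (a i)) ∈ IntermediateField.adjoin k (Z : Set K) := fun a =>
    IntermediateField.subset_adjoin _ _ ((hZ _).2 ⟨a, rfl⟩)
  have hez : ∀ i a, e i (z a) ≠ 0 := fun i a => (map_ne_zero (e i)).2 (hz a)
  have h2 : ∀ a b, e i (z a / z b) ∈ IntermediateField.adjoin k (Z : Set K) := by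
    intro a b
    have h3 := div_mem (h1 (Function.update (fun _ => 0) i a))
      (h1 (Function.update (fun _ => 0) i b))
    have h4 : ∀ a : Fin (N + 1),
        ∏ j, e j (z ((Function.update (fun _ => 0) i a : Fin n → Fin (N + 1)) j)) =
        e i (z a) * ∏ j ∈ univ.erase i, e j (z 0) := by
      intro a
      rw [← Finset.mul_prod_erase _ _ (mem_univ i), Function.update_self]
      congr 1
      refine Finset.prod_congr rfl fun j hj => ?_
      rw [Function.update_of_ne (Finset.ne_of_mem_erase hj)]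
    rw [h4, h4] at h3
    have hP : ∏ j ∈ univ.erase i, e j (z 0) ≠ 0 :=
      Finset.prod_ne_zero_iff.2 fun j _ => hez j 0
    have h5 : t * (e i (z a) * ∏ j ∈ univ.erase i, e j (z 0)) /
        (t * (e i (z b) * ∏ j ∈ univ.erase i, e j (z 0))) = e i (z a / z b) := by
      rw [map_div₀, mul_div_mul_left _ _ ht, mul_div_mul_right _ _ hP]
    rwa [h5] at h3
  have h6 : (⊤ : IntermediateField k E) ≤
      (IntermediateField.adjoin k (Z : Set K)).comap (e i) := by
    rw [← hE, IntermediateField.adjoin_le_iff]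
    rintro _ ⟨a, b, rfl⟩
    exact h2 a b
  exact h6 (show x ∈ (⊤ : IntermediateField k E) from trivial)

/-- The parameter is in the field of the cone. -/
lemma t_mem_Q (z : Fin (N + 1) → E) (hz : ∀ i, z i ≠ 0)
    (hE : IntermediateField.adjoin k {x | ∃ i j, x = z i / z j} = ⊤)
    (e : Fin n → E →ₐ[k] K) (t : K) (ht : t ≠ 0) (Z : Finset K)
    (hZ : ∀ x, x ∈ Z ↔ ∃ a : Fin n → Fin (N + 1), x = t * ∏ i, e i (z (a i))) :
    t ∈ IntermediateField.adjoin k (Z : Set K) := by
  classical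
  have h1 : t * ∏ i, e i (z 0) ∈ IntermediateField.adjoin k (Z : Set K) :=
    IntermediateField.subset_adjoin _ _ ((hZ _).2 ⟨fun _ => 0, rfl⟩)
  have hP : ∏ j, e j (z 0) ≠ 0 :=
    Finset.prod_ne_zero_iff.2 fun j _ => (map_ne_zero (e j)).2 (hz 0)
  have h2 : ∏ i, e i (z 0) ∈ IntermediateField.adjoin k (Z : Set K) :=
    prod_mem fun i _ => mem_Q z hz hE e t ht Z hZ i (z 0)
  have h3 := div_mem h1 h2
  rwa [mul_div_cancel_right₀ _ hP] at h3

end cone

/-- Automorphisms of the coefficients act on the polynomials. -/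
noncomputable def Pm (k M : Type) [Field k] [Field M] [Algebra k M] :
    (M ≃ₐ[k] M) →* (Polynomial M ≃ₐ[k] Polynomial M) where
  toFun f := Polynomial.mapAlgEquiv f
  map_one' := AlgEquiv.ext fun x => Polynomial.map_id
  map_mul' f g := AlgEquiv.ext fun x => by
    change Polynomial.map ((f * g : M ≃ₐ[k] M) : M →+* M) x =
      Polynomial.map (f : M →+* M) (Polynomial.map (g : M →+* M) x)
    rw [Polynomial.map_map]
    rfl

lemma Pm_apply {k M : Type} [Field k] [Field M] [Algebra k M] (f : M ≃ₐ[k] M)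
    (x : Polynomial M) : Pm k M f x = Polynomial.map (f : M →+* M) x := rfl

/-- Models are transferred by isomorphisms. -/
lemma hasModel_equiv {K K' : Type} [Field K] [Field K'] (e : K ≃+* K') (h : HasModel K) :
    HasModel K' := by
  obtain ⟨X', hi, g, hp, hr, ⟨φ⟩⟩ := h
  exact ⟨X', hi, g, hp, hr, ⟨φ.trans e⟩⟩

section main

variable {k E M K : Type} [Field k] [Field E] [Algebra k E] [Field M] [Algebra k M] [Field K]
  [Algebra k K] {n N : ℕ}

/-- The data of the cone. -/
structure CD (k E M K : Type) [Field k] [Field E] [Algebra k E] [Field M] [Algebra k M] [Field K]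
    [Algebra k K] (n : ℕ) where
  gM : (⨂[k] _ : Fin n, E) →ₐ[k] M
  gMi : Function.Injective gM
  fM : ∀ m : M, ∃ a b, b ≠ 0 ∧ m = gM a / gM b
  Ψ : Equiv.Perm (Fin n) →* (M ≃ₐ[k] M)
  hΨ : ∀ π b, Ψ π (gM b) = gM (PEq k E n π b)
  cK : Polynomial M →ₐ[k] K
  cKi : Function.Injective cK
  fK : ∀ x : K, ∃ a b, b ≠ 0 ∧ x = cK a / cK b
  Θ : Equiv.Perm (Fin n) →* (K ≃ₐ[k] K)
  hΘ : ∀ π f, Θ π (cK f) = cK (Pm k M (Ψ π) f)

/-- The data exist. -/
noncomputable def mkCD (k E M : Type) [Field k] [Field E] [Algebra k E] [Field M] [Algebra k M]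
    (n : ℕ) [Algebra (⨂[k] _ : Fin n, E) M] [IsScalarTower k (⨂[k] _ : Fin n, E) M]
    [IsFractionRing (⨂[k] _ : Fin n, E) M] : CD k E M (FractionRing (Polynomial M)) n where
  gM := IsScalarTower.toAlgHom k (⨂[k] _ : Fin n, E) M
  gMi := IsFractionRing.injective (⨂[k] _ : Fin n, E) M
  fM m := by
    have : Nontrivial (⨂[k] _ : Fin n, E) :=
      (algebraMap (⨂[k] _ : Fin n, E) M).domain_nontrivial
    obtain ⟨a, b, hb, rfl⟩ := IsFractionRing.div_surjective (A := ⨂[k] _ : Fin n, E) m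
    exact ⟨a, b, nonZeroDivisors.ne_zero hb, rfl⟩
  Ψ := (IsFractionRing.fieldEquivOfAlgEquivHom k M).comp (PEq k E n)
  hΨ π b := IsFractionRing.fieldEquivOfAlgEquiv_algebraMap k M M (PEq k E n π) b
  cK := IsScalarTower.toAlgHom k (Polynomial M) (FractionRing (Polynomial M))
  cKi := IsFractionRing.injective (Polynomial M) (FractionRing (Polynomial M))
  fK x := by
    obtain ⟨a, b, hb, rfl⟩ := IsFractionRing.div_surjective (A := Polynomial M) x
    exact ⟨a, b, nonZeroDivisors.ne_zero hb, rfl⟩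
  Θ := (IsFractionRing.fieldEquivOfAlgEquivHom k (FractionRing (Polynomial M))).comp
    ((Pm k M).comp ((IsFractionRing.fieldEquivOfAlgEquivHom k M).comp (PEq k E n)))
  hΘ π f := IsFractionRing.fieldEquivOfAlgEquiv_algebraMap k (FractionRing (Polynomial M))
    (FractionRing (Polynomial M))
    ((Pm k M) ((IsFractionRing.fieldEquivOfAlgEquivHom k M) (PEq k E n π))) f

namespace CD

variable (D : CD k E M K n)

/-- The inclusion of the field of degree zero. -/
noncomputable def c : M →ₐ[k] K := D.cK.comp Polynomial.CAlgHom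

lemma c_apply (m : M) : D.c m = D.cK (Polynomial.C m) := rfl

/-- The inclusion of the tensor power. -/
noncomputable def gT : (⨂[k] _ : Fin n, E) →ₐ[k] K := D.c.comp D.gM

/-- The inclusions of the factors. -/
noncomputable def e (i : Fin n) : E →ₐ[k] K := D.gT.comp (sg k E i)

/-- The parameter. -/
noncomputable def t : K := D.cK Polynomial.X

/-- The field of degree zero. -/
noncomputable def K0 : IntermediateField k K := D.c.fieldRange

lemma ci : Function.Injective D.c := D.c.injective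

lemma gTi : Function.Injective D.gT := D.ci.comp D.gMi

lemma c_mem (m : M) : D.c m ∈ D.K0 := ⟨m, rfl⟩

lemma mem_K0 {x : K} (h : x ∈ D.K0) : ∃ m, D.c m = x := h

lemma e_mem (i : Fin n) (x : E) : D.e i x ∈ D.K0 := D.c_mem _

lemma t0 : D.t ≠ 0 := by
  intro h
  exact Polynomial.X_ne_zero (R := M) (D.cKi (by rw [map_zero]; exact h))

lemma Θc (π : Equiv.Perm (Fin n)) (m : M) : D.Θ π (D.c m) = D.c (D.Ψ π m) := by
  rw [c_apply, D.hΘ, Pm_apply, Polynomial.map_C]
  rfl

lemma Θt (π : Equiv.Perm (Fin n)) : D.Θ π D.t = D.t := by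
  rw [t, D.hΘ, Pm_apply, Polynomial.map_X]

lemma Θe (π : Equiv.Perm (Fin n)) (i : Fin n) (x : E) : D.Θ π (D.e i x) = D.e (π i) x := by
  change D.Θ π (D.c (D.gM (sg k E i x))) = D.c (D.gM (sg k E (π i) x))
  rw [Θc, D.hΨ, PEq_sg]

lemma tr : Transcendental D.K0 D.t := by
  have h := Polynomial.transcendental_X M
  let f : M →+* D.K0 := (D.c.rangeRestrict : M →+* D.c.range)
  refine h.ringHom_of_comp_eq (f : M →+* D.K0) (D.cK : Polynomial M →+* K) ?_ D.cKi ?_
  · rintro ⟨_, ⟨m, rfl⟩⟩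
    exact ⟨m, rfl⟩
  · ext m
    rfl

end CD

theorem hasModel_CD (h1 : SBStm) (h2 : ConeStm) (p : ℕ) [Fact p.Prime] [Finite k] [CharP k p]
    (z : Fin (N + 1) → E) (hz : ∀ i, z i ≠ 0)
    (hE : IntermediateField.adjoin k {x | ∃ i j, x = z i / z j} = ⊤)
    (hsm : ∀ j, Algebra.Smooth k (Algebra.adjoin k (Set.range fun i => z i / z j)))
    (D : CD k E M K n) (G : Subgroup (Equiv.Perm (Fin n))) (hG : ¬ p ^ 2 ∣ Nat.card G)
    (F : IntermediateField k M)
    (hF : ∀ a, a ∈ F ↔ ∀ π ∈ G, ∀ x y : ⨂[k] _ : Fin n, E,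
      a * D.gM y = D.gM x → a * D.gM (perm k E π y) = D.gM (perm k E π x)) : HasModel F := by
  classical
  let H : Subgroup (K ≃ₐ[k] K) := (D.Θ.comp G.subtype).range
  have hHfin : Finite H := Set.finite_range (D.Θ.comp G.subtype)
  have hHft : Fintype H := Fintype.ofFinite H
  have hHG : ¬ p ^ 2 ∣ Nat.card H := fun h =>
    hG (h.trans (Subgroup.card_range_dvd (D.Θ.comp G.subtype)))
  let Z : Finset K := univ.image fun a : Fin n → Fin (N + 1) => D.t * ∏ i, D.e i (z (a i))
  have hZ : ∀ x, x ∈ Z ↔ ∃ a : Fin n → Fin (N + 1), x = D.t * ∏ i, D.e i (z (a i)) := by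
    intro x
    rw [Finset.mem_image]
    exact ⟨fun ⟨a, _, h⟩ => ⟨a, h.symm⟩, fun ⟨a, h⟩ => ⟨a, mem_univ _, h.symm⟩⟩
  have hez : ∀ i a, D.e i (z a) ≠ 0 := fun i a => (map_ne_zero (D.e i)).2 (hz a)
  have hP : ∀ a : Fin n → Fin (N + 1), ∏ i, D.e i (z (a i)) ≠ 0 := fun a =>
    Finset.prod_ne_zero_iff.2 fun i _ => hez i _
  have hPm : ∀ a : Fin n → Fin (N + 1), ∏ i, D.e i (z (a i)) ∈ D.K0 := fun a =>
    prod_mem fun i _ => D.e_mem i _
  let t' : K := D.t * ∏ i, D.e i (z 0)
  have ht' : t' ≠ 0 := mul_ne_zero D.t0 (hP fun _ => 0)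
  have htr : Transcendental D.K0 t' := by
    intro h
    apply D.tr
    have h3 : IsAlgebraic D.K0 (∏ i, D.e i (z 0))⁻¹ :=
      isAlgebraic_algebraMap (⟨_, inv_mem (hPm fun _ => 0)⟩ : D.K0)
    have h4 := h.mul h3
    rwa [mul_inv_cancel_right₀ (hP fun _ => 0)] at h4
  -- fractions
  let Q := IntermediateField.adjoin k (Z : Set K)
  have hQe : ∀ i x, D.e i x ∈ Q := fun i x => mem_Q z hz hE D.e D.t D.t0 Z hZ i x
  have hQt : D.t ∈ Q := t_mem_Q z hz hE D.e D.t D.t0 Z hZ
  have hQT : ∀ w, D.gT w ∈ Q := by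
    intro w
    have h3 : w ∈ Algebra.adjoin k (⋃ i, Set.range
        (PiTensorProduct.singleAlgHom (R := k) (A := fun _ : Fin n => E) i)) := by
      rw [coprod_adjoin (isCoprod_pi (k := k) (A := fun _ : Fin n => E))]; trivial
    induction h3 using Algebra.adjoin_induction with
    | mem x hx =>
      obtain ⟨i, a, rfl⟩ := Set.mem_iUnion.1 hx
      exact hQe i a
    | algebraMap r => rw [AlgHom.commutes]; exact Q.algebraMap_mem r
    | add x y _ _ hx hy => rw [map_add]; exact Q.add_mem hx hy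
    | mul x y _ _ hx hy => rw [map_mul]; exact Q.mul_mem hx hy
  have hQM : ∀ m, D.c m ∈ Q := by
    intro m
    obtain ⟨a, b, hb, rfl⟩ := D.fM m
    rw [map_div₀]
    exact div_mem (hQT a) (hQT b)
  have hQK : ∀ f : Polynomial M, D.cK f ∈ Q := by
    intro f
    induction f using Polynomial.induction_on' with
    | add p q hp hq => rw [map_add]; exact Q.add_mem hp hq
    | monomial n a =>
      rw [← Polynomial.C_mul_X_pow_eq_monomial, map_mul, map_pow]
      exact Q.mul_mem (hQM a) (pow_mem hQt n)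
  let B : Subalgebra k K := Algebra.adjoin k (Z : Set K)
  have hfr : ∀ x : K, ∃ a ∈ B, ∃ b ∈ B, b ≠ 0 ∧ x = a / b := by
    intro x
    obtain ⟨a, b, hb, rfl⟩ := D.fK x
    have h3 : D.cK a / D.cK b ∈ Q := div_mem (hQK a) (hQK b)
    obtain ⟨r, hr, s, hs, h4⟩ := IntermediateField.mem_adjoin_iff_div.1 h3
    by_cases h0 : s = 0
    · refine ⟨0, B.zero_mem, 1, B.one_mem, one_ne_zero, ?_⟩
      rw [h4, h0, div_zero, zero_div]
    · exact ⟨r, hr, s, hs, h0, h4⟩
  -- the basic hypotheses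
  have hSB : SB H.subtype B Z :=
    { inj := fun h hh => Subtype.ext hh
      fam :=
        { ne := ⟨t', (hZ _).2 ⟨fun _ => 0, rfl⟩⟩
          mem := fun a ha => Algebra.subset_adjoin ha
          n0 := by
            intro a ha
            obtain ⟨b, rfl⟩ := (hZ a).1 ha
            exact mul_ne_zero D.t0 (hP b)
          st := by
            rintro ⟨_, ⟨π, rfl⟩⟩ a ha
            obtain ⟨b, rfl⟩ := (hZ a).1 ha
            change D.Θ (π : Equiv.Perm (Fin n)) _ ∈ Z
            refine (hZ _).2 ⟨fun i => b ((π : Equiv.Perm (Fin n)).symm i), ?_⟩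
            rw [map_mul, D.Θt, map_prod]
            congr 1
            rw [← Equiv.prod_comp (π : Equiv.Perm (Fin n)) fun j =>
              D.e j (z (b ((π : Equiv.Perm (Fin n)).symm j)))]
            refine Finset.prod_congr rfl fun i _ => ?_
            rw [D.Θe, Equiv.symm_apply_apply] }
      gen := rfl
      fr := hfr }
  have hLL : LLZ H.subtype B Z := by
    intro q hq hqZ
    obtain ⟨x, hx, hxZ, hxq⟩ := hqZ
    obtain ⟨f, hf, hfq, m, y, h3, h4, h5⟩ := h2 k E K n N z hz hsm D.e D.gT (fun i x => rfl)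
      D.gTi D.K0 D.e_mem D.t D.tr Z hZ B rfl q hq ⟨x, hx, hxZ, hxq⟩
    refine ⟨f, hf, hfq, m, y, h3, h4, ?_⟩
    rintro ⟨_, ⟨π, rfl⟩⟩ hh
    exact h5 ((D.Θ (π : Equiv.Perm (Fin n)) : K ≃ₐ[k] K) : K →ₐ[k] K) π
      (fun i x => D.Θe π i x) (D.Θt π) hh
  -- the invariants
  have hinv : ∀ m, m ∈ F ↔ ∀ π ∈ G, D.Ψ π m = m := by
    intro m
    rw [hF]
    constructor
    · intro h π hπ
      obtain ⟨a, b, hb, rfl⟩ := D.fM m
      have hb' : D.gM b ≠ 0 := by
        intro h3
        exact hb (D.gMi (by rw [h3, map_zero]))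
      have h3 := h π⁻¹ (G.inv_mem hπ) a b (div_mul_cancel₀ _ hb')
      rw [← PEq_apply, ← PEq_apply, ← D.hΨ, ← D.hΨ] at h3
      have h4 : D.Ψ π (D.gM b) ≠ 0 := (map_ne_zero_iff _ (D.Ψ π).injective).2 hb'
      rw [map_div₀]
      exact ((eq_div_iff h4).2 h3).symm
    · intro h π hπ x y hxy
      have h3 := h π⁻¹ (G.inv_mem hπ)
      have h4 := congrArg (D.Ψ π⁻¹) hxy
      rw [map_mul, h3, D.hΨ, D.hΨ, PEq_apply, PEq_apply, inv_inv] at h4
      exact h4
  have hScl : Scl H.subtype Z D.K0 (F.map D.c) t' :=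
    { tΦ := (hZ _).2 ⟨fun _ => 0, rfl⟩
      tr := htr
      hΦ := by
        intro a ha
        obtain ⟨b, rfl⟩ := (hZ a).1 ha
        rw [zpow_one]
        change D.t * _ / (D.t * _) ∈ _
        rw [mul_div_mul_left _ _ D.t0]
        exact div_mem (hPm b) (hPm fun _ => 0)
      st := by
        rintro ⟨_, ⟨π, rfl⟩⟩ a ha
        obtain ⟨m, rfl⟩ := D.mem_K0 ha
        change D.Θ (π : Equiv.Perm (Fin n)) (D.c m) ∈ D.K0
        rw [D.Θc]
        exact D.c_mem _
      F := by
        intro a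
        rw [IntermediateField.mem_map]
        constructor
        · rintro ⟨m, hm, rfl⟩
          refine ⟨D.c_mem m, ?_⟩
          rintro ⟨_, ⟨π, rfl⟩⟩
          change D.Θ (π : Equiv.Perm (Fin n)) (D.c m) = D.c m
          rw [D.Θc, (hinv m).1 hm π π.2]
        · rintro ⟨ha, h⟩
          obtain ⟨m, rfl⟩ := D.mem_K0 ha
          refine ⟨m, (hinv m).2 ?_, rfl⟩
          intro π hπ
          apply D.ci
          have h3 := h ⟨D.Θ π, ⟨⟨π, hπ⟩, rfl⟩⟩
          change D.Θ π (D.c m) = D.c m at h3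
          rwa [D.Θc] at h3 }
  have h3 : HasModel (F.map D.c) :=
    h1 k K H H.subtype B Z hSB hLL p hHG D.K0 (F.map D.c) t' hScl ht'
  exact hasModel_equiv (F.equivMap D.c).symm.toRingEquiv h3

end main

/-- Regular models of the quotients of the powers of smooth projective varieties. -/
theorem hasModel_perm_of (h1 : SBStm) (h2 : ConeStm) (p : ℕ) [Fact p.Prime] (k : Type) [Field k]
    [Finite k] [CharP k p]
    (E : Type) [Field E] [Algebra k E] (N : ℕ) (z : Fin (N + 1) → E) (hz : ∀ i, z i ≠ 0)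
    (hE : IntermediateField.adjoin k {x | ∃ i j, x = z i / z j} = ⊤)
    (hsm : ∀ j, Algebra.Smooth k (Algebra.adjoin k (Set.range fun i => z i / z j)))
    (n : ℕ) (M : Type) [Field M] [Algebra k M] [Algebra (⨂[k] _ : Fin n, E) M]
    [IsScalarTower k (⨂[k] _ : Fin n, E) M] [IsFractionRing (⨂[k] _ : Fin n, E) M]
    (G : Subgroup (Equiv.Perm (Fin n))) (hG : ¬ p ^ 2 ∣ Nat.card G)
    (F : IntermediateField k M)
    (hF : ∀ a, a ∈ F ↔ ∀ π ∈ G, ∀ x y : ⨂[k] _ : Fin n, E,
      a * algebraMap (⨂[k] _ : Fin n, E) M y = algebraMap (⨂[k] _ : Fin n, E) M x →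
      a * algebraMap (⨂[k] _ : Fin n, E) M (perm k E π y) =
        algebraMap (⨂[k] _ : Fin n, E) M (perm k E π x)) : HasModel F :=
  hasModel_CD h1 h2 p z hz hE hsm (mkCD k E M n) G hG F hF

end Pool.Agent.Helper82.SQ
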