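import Pool.Agent.Helper49.SQ.Def

/-!
# Package Bs: a basis adapted to finitely many subspaces
-/

set_option autoImplicit false
set_option linter.unusedSectionVars false

namespace Pool.Agent.Helper49.SQ

theorem exists_least_rel {T : Type} (r : T → T → Prop) (hr : ∀ t, r t t)
    (htr : ∀ a b c, r a b → r b c → r a c) (hto : ∀ a b, r a b ∨ r b a) (A : Finset T)
    (hA : A.Nonempty) : ∃ t ∈ A, ∀ s ∈ A, r s t := by
  classical
  induction hA using Finset.Nonempty.cons_induction with
  | singleton a => exact ⟨a, by simp, fun s hs => by rw [Finset.mem_singleton.1 hs]; exact hr a⟩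
  | cons a s ha hs ih =>
    obtain ⟨t, ht, h⟩ := ih
    rcases hto a t with h1 | h1
    · refine ⟨t, Finset.mem_cons_of_mem ht, fun u hu => ?_⟩
      rcases Finset.mem_cons.1 hu with rfl | hu
      · exact h1
      · exact h u hu
    · refine ⟨a, Finset.mem_cons_self _ _, fun u hu => ?_⟩
      rcases Finset.mem_cons.1 hu with rfl | hu
      · exact hr _
      · exact htr _ _ _ (h u hu) h1

/-- the induction -/
theorem adapted_set {k K T : Type} [Field k] [Field K] [Algebra k K]
    (r : T → T → Prop) (hr : ∀ t, r t t) (htr : ∀ a b c, r a b → r b c → r a c)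
    (hto : ∀ a b, r a b ∨ r b a) (U : T → Submodule k K) (t1 : T) (A : Finset T) :
    ∃ (B : Set K) (σ : K → T), LinearIndepOn k id B ∧ (∀ b ∈ B, b ∈ U (σ b) ∧ σ b ∈ A) ∧
      ∀ t ∈ A, U t ≤ Submodule.span k {b | b ∈ B ∧ r (σ b) t} := by
  classical
  induction hn : A.card generalizing A with
  | zero =>
    rw [Finset.card_eq_zero] at hn
    subst hn
    refine ⟨∅, fun _ => t1, linearIndepOn_empty _ _, ?_, ?_⟩
    · intro b hb; exact absurd hb (Set.notMem_empty _)
    · intro t ht; exact absurd ht (Finset.notMem_empty _)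
  | succ n ih =>
    have hAne : A.Nonempty := Finset.card_pos.1 (by omega)
    obtain ⟨t, htA, htmin⟩ := exists_least_rel r hr htr hto A hAne
    obtain ⟨B, σ, hB, hBU, hsp⟩ := ih (A.erase t) (by rw [Finset.card_erase_of_mem htA]; omega)
    obtain ⟨B1, hB1, hBB1, hspan, hli⟩ := exists_linearIndepOn_extension (K := k) (v := (id : K → K))
      (s := B) (t := B ∪ (U t : Set K)) hB Set.subset_union_left
    set σ1 : K → T := fun x => if x ∈ B then σ x else t with hσ1
    have hσB : ∀ x ∈ B, σ1 x = σ x := fun x hx => by simp [hσ1, hx]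
    have hσn : ∀ x, x ∉ B → σ1 x = t := fun x hx => by simp [hσ1, hx]
    have hmem : ∀ b ∈ B1, b ∈ U (σ1 b) ∧ σ1 b ∈ A := by
      intro b hb
      by_cases hbB : b ∈ B
      · rw [hσB b hbB]
        exact ⟨(hBU b hbB).1, Finset.mem_of_mem_erase (hBU b hbB).2⟩
      · rw [hσn b hbB]
        refine ⟨?_, htA⟩
        rcases hB1 hb with h | h
        · exact absurd h hbB
        · exact h
    refine ⟨B1, σ1, hli, hmem, ?_⟩
    intro s hs
    by_cases hst : s = t
    · subst hst
      intro x hx
      have h1 : x ∈ Submodule.span k (id '' B1) :=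
        hspan ⟨x, Or.inr hx, rfl⟩
      refine Submodule.span_mono ?_ h1
      rintro _ ⟨b, hb, rfl⟩
      exact ⟨hb, htmin _ (hmem b hb).2⟩
    · refine (hsp s (Finset.mem_erase.2 ⟨hst, hs⟩)).trans (Submodule.span_mono ?_)
      rintro b ⟨hb, h⟩
      refine ⟨hBB1 hb, ?_⟩
      rw [hσB b hb]
      exact h

/-- A basis adapted to finitely many subspaces with totally preordered weights. `r t t'` means
that the weight of `t` is at least the weight of `t'`. -/
theorem adapted_basis {k K T : Type} [Field k] [Field K] [Algebra k K] [Finite T]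
    (r : T → T → Prop) (hr : ∀ t, r t t) (htr : ∀ a b c, r a b → r b c → r a c)
    (hto : ∀ a b, r a b ∨ r b a) {n : ℕ} (y : Fin n → K) (hy : LinearIndependent k y)
    (U : T → Submodule k K) (hU : ∀ t, U t ≤ Submodule.span k (Set.range y))
    (t0 : T) (ht0 : U t0 = Submodule.span k (Set.range y)) (_hmin : ∀ t, r t t0) :
    ∃ (β : Fin n → K) (τ : Fin n → T), LinearIndependent k β ∧
      Submodule.span k (Set.range β) = Submodule.span k (Set.range y) ∧
      (∀ j, β j ∈ U (τ j)) ∧
      ∀ t, U t ≤ Submodule.span k {x | ∃ j, r (τ j) t ∧ x = β j} := by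
  classical
  have : Fintype T := Fintype.ofFinite T
  obtain ⟨B, σ, hB, hBU, hsp⟩ := adapted_set r hr htr hto U t0 Finset.univ
  have hB' : LinearIndependent k (fun b : B => (b : K)) := hB
  have hrange : Set.range (fun b : B => (b : K)) = B := Subtype.range_coe
  have hspan : Submodule.span k (Set.range (fun b : B => (b : K))) =
      Submodule.span k (Set.range y) := by
    rw [hrange]
    apply le_antisymm
    · rw [Submodule.span_le]
      intro b hb
      exact hU _ (hBU b hb).1
    · rw [← ht0]
      refine (hsp t0 (Finset.mem_univ _)).trans (Submodule.span_mono ?_)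
      rintro b ⟨hb, -⟩
      exact hb
  let b1 : Module.Basis B k (Submodule.span k (Set.range y)) :=
    (Module.Basis.span hB').map (LinearEquiv.ofEq _ _ hspan)
  let b2 : Module.Basis (Fin n) k (Submodule.span k (Set.range y)) := Module.Basis.span hy
  let e : Fin n ≃ B := b2.indexEquiv b1
  refine ⟨fun j => (e j : K), fun j => σ (e j), hB'.comp e e.injective, ?_, ?_, ?_⟩
  · rw [← hspan]
    congr 1
    ext x
    constructor
    · rintro ⟨j, rfl⟩; exact ⟨e j, rfl⟩
    · rintro ⟨b, rfl⟩; exact ⟨e.symm b, by simp⟩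
  · intro j; exact (hBU _ (e j).2).1
  · intro t
    refine (hsp t (Finset.mem_univ _)).trans (Submodule.span_mono ?_)
    rintro b ⟨hb, h⟩
    refine ⟨e.symm ⟨b, hb⟩, ?_, ?_⟩
    · simp only [Equiv.apply_symm_apply]; exact h
    · simp only [Equiv.apply_symm_apply]

end Pool.Agent.Helper49.SQ
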