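import Pool.Agent.Helper49.SQ.Def

/-!
# Package C: the local ring of a chart
-/

set_option autoImplicit false
set_option linter.unusedSectionVars false

namespace Pool.Agent.Helper49.SQ

open Finset Pool.Agent.W559.Mg Pool.Agent.Helper46.AQ Pool.Agent.Helper49.PQ Pool.Agent.Helper49.SQ Pointwise

section C

variable {k K : Type} [Field k] [Field K] [Algebra k K] {L : Type} [AddCommGroup L]
  {F Γ : Type} [Field F] [Algebra (ML K L) F] [FaithfulSMul (ML K L) F]
  [LinearOrderedCommGroupWithZero Γ] {W : Valuation F Γ}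

/-- a component of value one -/
theorem exists_comp_one {s : ML K L}
    (hle : ∀ d, W (algebraMap (ML K L) F (mo d (s.coeff d))) ≤ 1)
    (hs1 : W (algebraMap (ML K L) F s) = 1) :
    ∃ d, W (algebraMap (ML K L) F (mo d (s.coeff d))) = 1 := by
  by_contra hcon
  push Not at hcon
  have h1 : W (algebraMap (ML K L) F s) < 1 := by
    rw [eq_sum_mo s, map_sum]
    exact W.map_sum_lt one_ne_zero fun d _ => lt_of_le_of_ne (hle d) (hcon d)
  exact h1.ne hs1

/-- Homogeneous elements with an arbitrary denominator. -/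
theorem mem_LW_of (C : Subalgebra k (ML K L)) (hC : Gr C)
    (hle : ∀ f ∈ C, W (algebraMap (ML K L) F f) ≤ 1) (e : L) (b : K) (s : ML K L) (hs : s ∈ C)
    (hs1 : W (algebraMap (ML K L) F s) = 1) (h : s * mo e b ∈ C) : mo e b ∈ LW C W := by
  obtain ⟨d, hd⟩ := exists_comp_one (W := W) (fun d => hle _ (hC s hs d)) hs1
  refine ⟨d, s.coeff d, hC s hs d, hd, ?_⟩
  have h1 := hC _ h (d + e)
  have h2 : mo d (s.coeff d) * mo e b = mo (d + e) ((s * mo e b).coeff (d + e)) := by
    rw [mo_mul, mul_comm s, coeff_mo_mul, add_sub_cancel_right, mul_comm b]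
  rw [h2]
  exact h1

/-- The local ring contains the inverses of its homogeneous elements of value one. -/
theorem inv_mem_LW (C : Subalgebra k (ML K L)) (e : L) (b : K) (hb : b ≠ 0)
    (h : mo e b ∈ LW C W) (h1 : W (algebraMap (ML K L) F (mo e b)) = 1) :
    mo (-e) b⁻¹ ∈ LW C W := by
  obtain ⟨d, a, h2, h3, h4⟩ := h
  refine ⟨d + e, a * b, ?_, ?_, ?_⟩
  · rw [← mo_mul]; exact h4
  · rw [← mo_mul, map_mul, map_mul, h3, h1, one_mul]
  · rw [mo_mul, add_neg_cancel_right, mul_assoc, mul_inv_cancel₀ hb, mul_one]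
    exact h2

theorem ne_of_val {d : L} {a : K} (h : W (algebraMap (ML K L) F (mo d a)) = 1) : a ≠ 0 := by
  rintro rfl
  rw [mo_zero, map_zero, map_zero] at h
  exact zero_ne_one h

/-- Finitely many elements have a common denominator. -/
theorem exists_den_finset (C : Subalgebra k (ML K L)) {I : Type} (J : Finset I) (f : I → ML K L)
    (hf : ∀ i ∈ J, f i ∈ LW C W) : ∃ (d : L) (a : K), (mo d a : ML K L) ∈ C ∧
      W (algebraMap (ML K L) F (mo d a)) = 1 ∧ ∀ i ∈ J, mo d a * f i ∈ C := by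
  classical
  induction J using Finset.induction_on with
  | empty =>
    refine ⟨0, 1, ?_, ?_, fun i hi => absurd hi (Finset.notMem_empty _)⟩
    · rw [mo_one]; exact C.one_mem
    · rw [mo_one, map_one, map_one]
  | insert i J hi ih =>
    obtain ⟨d, a, h1, h2, h3⟩ := ih fun j hj => hf j (Finset.mem_insert_of_mem hj)
    obtain ⟨e, b, h4, h5, h6⟩ := hf i (Finset.mem_insert_self i J)
    refine ⟨d + e, a * b, ?_, ?_, ?_⟩
    · rw [← mo_mul]; exact C.mul_mem h1 h4
    · rw [← mo_mul, map_mul, map_mul, h2, h5, one_mul]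
    · intro j hj
      rw [← mo_mul]
      rcases Finset.mem_insert.1 hj with rfl | hj
      · rw [mul_assoc]; exact C.mul_mem h1 h6
      · have : (mo d a * mo e b : ML K L) * f j = mo e b * (mo d a * f j) := by ring
        rw [this]
        exact C.mul_mem h4 (h3 j hj)

/-- Finitely many elements have a common denominator. -/
theorem exists_den (C : Subalgebra k (ML K L)) {I : Type} [Finite I] (f : I → ML K L)
    (hf : ∀ i, f i ∈ LW C W) : ∃ (d : L) (a : K), a ≠ 0 ∧ (mo d a : ML K L) ∈ C ∧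
      W (algebraMap (ML K L) F (mo d a)) = 1 ∧ ∀ i, mo d a * f i ∈ C := by
  classical
  have : Fintype I := Fintype.ofFinite I
  obtain ⟨d, a, h1, h2, h3⟩ := exists_den_finset (W := W) C Finset.univ f fun i _ => hf i
  exact ⟨d, a, ne_of_val h2, h1, h2, fun i => h3 i (Finset.mem_univ i)⟩

/-- Comparison of the chart with the local model. -/
theorem loc_of_model [IsDomain (ML K L)] (C R : Subalgebra k (ML K L)) (_hC : Gr C)
    (_hle : ∀ f ∈ C, W (algebraMap (ML K L) F f) ≤ 1) (hCR : C ≤ R) (hRC : R ≤ LW C W)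
    (hfg : R.FG) (hsm : Algebra.Smooth k R) (hreg : IsRegularRing R) :
    ∃ (d : L) (a : K) (hx : (mo d a : ML K L) ∈ C), a ≠ 0 ∧
      W (algebraMap (ML K L) F (mo d a)) = 1 ∧ Algebra.Smooth k (lc C (mo d a) hx) ∧
      IsRegularRing (lc C (mo d a) hx) := by
  obtain ⟨S, hS⟩ := hfg
  obtain ⟨d, a, hx, h1, h2⟩ := exists_den_finset (W := W) C S (fun f => f) fun f hf => by
    apply hRC
    rw [← hS]
    exact Algebra.subset_adjoin hf
  have ha : a ≠ 0 := ne_of_val h1
  have hu : IsUnit (mo d a : ML K L) := isUnit_mo ha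
  have hRle : R ≤ lc C (mo d a) hx := by
    rw [← hS, Algebra.adjoin_le_iff]
    intro f hf
    refine ⟨1, ?_⟩
    rw [pow_one]
    exact h2 f hf
  have heq : lc C (mo d a) hx = lc R (mo d a) (hCR hx) := by
    apply le_antisymm
    · exact lc_mono hx (hCR hx) hCR
    · refine lc_le (hCR hx) (mo_inv ha) hRle ?_
      exact inv_mem_lc C _ _ hx (mo_inv ha)
  refine ⟨d, a, hx, ha, h1, ?_, ?_⟩
  · rw [heq]
    exact smooth_lc hsm (hCR hx) hu
  · rw [heq]
    exact regular_lc hreg (hCR hx) hu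

end C

end Pool.Agent.Helper49.SQ
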