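import Pool.Agent.Helper49.SQ.PEcore

/-!
# The generators of the local model are algebraically independent
-/

set_option autoImplicit false
set_option linter.unusedSectionVars false

namespace Pool.Agent.Helper49.SQ

open Finset Pool.Agent.W559.Mg

variable {k K : Type} [Field k] [Field K] [Algebra k K] {L : Type} [AddCommGroup L]
  {ι : Type} [Fintype ι] [DecidableEq ι]

lemma mo_prod {T : Type} (s : Finset T) (d : T → L) (a : T → K) :
    (∏ i ∈ s, mo (d i) (a i) : ML K L) = mo (∑ i ∈ s, d i) (∏ i ∈ s, a i) := by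
  classical
  induction s using Finset.induction_on with
  | empty => rw [Finset.prod_empty, Finset.sum_empty, Finset.prod_empty, mo_one]
  | insert i s h ih => rw [Finset.prod_insert h, Finset.sum_insert h, Finset.prod_insert h, ih, mo_mul]

theorem algInd_gen (dg : L ≃+ (ι → ℤ)) {n : ℕ} (y : Fin n → K) (hy : AlgebraicIndependent k y)
    (m : Fin n → ι → ℤ) :
    AlgebraicIndependent k (Sum.elim
      (fun i : ι => (mo (dg.symm (-(Pi.single i 1))) 1 : ML K L))
      fun j => mo (dg.symm (m j)) (y j)) := by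
  classical
  set x : ι ⊕ Fin n → ML K L := Sum.elim
      (fun i : ι => (mo (dg.symm (-(Pi.single i 1))) 1 : ML K L))
      fun j => mo (dg.symm (m j)) (y j) with hx
  let Dd : (ι ⊕ Fin n →₀ ℕ) → L := fun u =>
    ∑ i, u (Sum.inl i) • dg.symm (-(Pi.single i 1)) + ∑ j, u (Sum.inr j) • dg.symm (m j)
  let rr : (ι ⊕ Fin n →₀ ℕ) → (Fin n →₀ ℕ) := fun u =>
    Finsupp.equivFunOnFinite.symm fun j => u (Sum.inr j)
  have hmon : ∀ u : ι ⊕ Fin n →₀ ℕ, ∏ a, x a ^ u a = mo (Dd u) (∏ j, y j ^ rr u j) := by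
    intro u
    rw [Fintype.prod_sum_type]
    simp only [hx, Sum.elim_inl, Sum.elim_inr, mo_pow, one_pow]
    rw [mo_prod, mo_prod, mo_mul, Finset.prod_const_one, one_mul]
    rfl
  have hinj : ∀ u u' : ι ⊕ Fin n →₀ ℕ, Dd u = Dd u' → rr u = rr u' → u = u' := by
    intro u u' h1 h2
    have h3 : ∀ j, u (Sum.inr j) = u' (Sum.inr j) := fun j => by
      have := DFunLike.congr_fun h2 j
      exact this
    have h4 : ∑ i, u (Sum.inl i) • dg.symm (-(Pi.single i 1)) =
        ∑ i, u' (Sum.inl i) • dg.symm (-(Pi.single i 1)) := by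
      have h5 : ∑ j, u (Sum.inr j) • dg.symm (m j) = ∑ j, u' (Sum.inr j) • dg.symm (m j) :=
        Finset.sum_congr rfl fun j _ => by rw [h3]
      have h6 : ∑ i, u (Sum.inl i) • dg.symm (-(Pi.single i 1)) +
          ∑ j, u (Sum.inr j) • dg.symm (m j) = ∑ i, u' (Sum.inl i) • dg.symm (-(Pi.single i 1)) +
          ∑ j, u' (Sum.inr j) • dg.symm (m j) := h1
      rw [h5] at h6
      exact add_right_cancel h6
    have h7 : ∀ (v : ι ⊕ Fin n →₀ ℕ) (l : ι),
        dg (∑ i, v (Sum.inl i) • dg.symm (-(Pi.single i 1))) l = -(v (Sum.inl l) : ℤ) := by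
      intro v l
      rw [map_sum, Finset.sum_apply]
      rw [Finset.sum_eq_single l]
      · rw [map_nsmul, AddEquiv.apply_symm_apply, Pi.smul_apply, Pi.neg_apply, Pi.single_eq_same]
        simp
      · intro i _ hi
        rw [map_nsmul, AddEquiv.apply_symm_apply, Pi.smul_apply, Pi.neg_apply,
          Pi.single_eq_of_ne (Ne.symm hi), neg_zero, smul_zero]
      · intro h; exact absurd (Finset.mem_univ _) h
    ext a
    rcases a with i | j
    · have h8 := h7 u i
      have h9 := h7 u' i
      rw [h4, h9] at h8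
      omega
    · exact h3 j
  rw [algebraicIndependent_iff]
  intro f hf
  by_contra h0
  obtain ⟨u0, hu0⟩ := MvPolynomial.support_nonempty.2 h0
  have h1 : (MvPolynomial.aeval x f : ML K L) =
      ∑ u ∈ f.support, mo (Dd u) (algebraMap k K (f.coeff u) * ∏ j, y j ^ rr u j) := by
    rw [MvPolynomial.aeval_eq_eval₂Hom, MvPolynomial.coe_eval₂Hom, MvPolynomial.eval₂_eq']
    refine Finset.sum_congr rfl fun u _ => ?_
    rw [hmon, algebraMap_ML, mo_mul, zero_add]
  let h : MvPolynomial (Fin n) k :=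
    ∑ u ∈ f.support.filter (fun u => Dd u = Dd u0), MvPolynomial.monomial (rr u) (f.coeff u)
  have h2 : MvPolynomial.aeval y h = 0 := by
    have h3 := congrArg (fun g : ML K L => g.coeff (Dd u0)) h1
    simp only [hf] at h3
    rw [coeff_zero', coeff_sum'] at h3
    simp only [coeff_mo] at h3
    rw [h3, map_sum, Finset.sum_filter]
    refine Finset.sum_congr rfl fun u _ => ?_
    split_ifs
    · rw [MvPolynomial.aeval_monomial, Finsupp.prod_fintype _ _ fun i => pow_zero _]
    · rfl
  have h3 : h = 0 := hy (h2.trans (map_zero _).symm)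
  have h4 : h.coeff (rr u0) = f.coeff u0 := by
    rw [MvPolynomial.coeff_sum]
    rw [Finset.sum_eq_single u0]
    · rw [MvPolynomial.coeff_monomial, if_pos rfl]
    · intro u hu hne
      rw [MvPolynomial.coeff_monomial, if_neg]
      intro h5
      exact hne (hinj u u0 (Finset.mem_filter.1 hu).2 h5)
    · intro h5
      exact (h5 (Finset.mem_filter.2 ⟨hu0, rfl⟩)).elim
  rw [h3, MvPolynomial.coeff_zero] at h4
  exact (MvPolynomial.mem_support_iff.1 hu0) h4.symm

end Pool.Agent.Helper49.SQ
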