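import Pool.Graph.R_seed8.W418.LU2.Ind

/-!
# Smooth algebras over a field are regular, regular domains are integrally closed

Adapted from the library (`H918R2.Quad.Reg2`, `H920R2.Sr1`, `W418.LU2.Pair`, `N98.RV.Norm`).
-/

set_option autoImplicit false
set_option linter.unusedVariables false

universe u v

open IsLocalRing Pool.Agent.W418.LU2

namespace Pool.Agent.Helper49.SQ.RG

section gens

/-- Parameters of a regular local ring. -/
theorem exists_param (B : Type u) [CommRing B] [IsRegularLocalRing B] :
    ∃ (d : ℕ) (z : Fin d → B), ringKrullDim B = d ∧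
      Ideal.span (Set.range z) = maximalIdeal B := by
  have h0 : Ind (fun i : PEmpty.{1} => (i.elim : B)) :=
    ⟨fun i => i.elim, fun c _ i => i.elim⟩
  obtain ⟨m, w, hw, hd⟩ := h0.extend
  refine ⟨m, w, ?_, ?_⟩
  · rw [hd, Fintype.card_eq_zero]
    simp
  · rw [← hw]
    congr 1
    ext y
    constructor
    · rintro ⟨i, rfl⟩
      exact ⟨Sum.inr i, rfl⟩
    · rintro ⟨i | i, rfl⟩
      · exact i.elim
      · exact ⟨i, rfl⟩

theorem exists_local_gens_aux {C : Type} [CommRing C] [IsRegularRing C] (P : Ideal C) [P.IsPrime]
    {d : ℕ} (z : Fin d → Localization.AtPrime P)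
    (hz : Ideal.span (Set.range z) = maximalIdeal (Localization.AtPrime P)) (s : Finset (Fin d)) :
    ∃ G : Finset C, (∀ g ∈ G, g ∈ P) ∧ G.card ≤ s.card ∧
      Ideal.span (z '' (s : Set (Fin d))) ≤
        Ideal.map (algebraMap C (Localization.AtPrime P)) (Ideal.span (G : Set C)) := by
  classical
  have hc : ∀ i, ∃ c : C, c ∈ P ∧ Ideal.span {z i} ≤
      Ideal.map (algebraMap C (Localization.AtPrime P)) (Ideal.span {c}) := by
    intro i
    obtain ⟨c, t, hct⟩ := IsLocalization.exists_mk'_eq P.primeCompl (z i)
    have hzi : z i ∈ maximalIdeal (Localization.AtPrime P) := by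
      rw [← hz]; exact Ideal.subset_span ⟨i, rfl⟩
    refine ⟨c, ?_, ?_⟩
    · rw [← hct] at hzi
      exact (IsLocalization.AtPrime.mk'_mem_maximal_iff (Localization.AtPrime P) P c t).1 hzi
    · rw [Ideal.span_singleton_le_iff_mem, ← hct, Ideal.map_span, Set.image_singleton]
      rw [Ideal.mem_span_singleton]
      refine ⟨IsLocalization.mk' _ 1 t, ?_⟩
      rw [← IsLocalization.mk'_one (M := P.primeCompl) (Localization.AtPrime P) c,
        ← IsLocalization.mk'_mul]
      simp
  choose c hcP hcz using hc
  refine ⟨s.image c, ?_, Finset.card_image_le, ?_⟩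
  · intro g hg
    obtain ⟨i, _, rfl⟩ := Finset.mem_image.1 hg
    exact hcP i
  · rw [Ideal.span_le]
    rintro _ ⟨i, hi, rfl⟩
    have h1 := hcz i (Ideal.mem_span_singleton_self _)
    refine Ideal.map_mono (Ideal.span_mono ?_) h1
    rw [Set.singleton_subset_iff]
    simp only [Finset.coe_image]
    exact ⟨i, hi, rfl⟩

theorem mem_of_map_mem {C : Type} [CommRing C] (P : Ideal C) [P.IsPrime] (J : Ideal C) (y : C)
    (h : algebraMap C (Localization.AtPrime P) y ∈ J.map (algebraMap C (Localization.AtPrime P))) :
    ∃ c, c ∉ P ∧ c * y ∈ J := by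
  rw [IsLocalization.mem_map_algebraMap_iff P.primeCompl] at h
  obtain ⟨⟨⟨j, hj⟩, s⟩, hs⟩ := h
  simp only at hs
  rw [← map_mul] at hs
  obtain ⟨t, ht⟩ := (IsLocalization.eq_iff_exists P.primeCompl _).1 hs
  refine ⟨t * s, (t * s).2, ?_⟩
  have : (t : C) * s * y = t * j := by rw [← ht]; ring
  rw [this]
  exact J.mul_mem_left _ hj

/-- Local generators of a prime of a regular ring. -/
theorem exists_local_gens {C : Type} [CommRing C] [IsRegularRing C] (P : Ideal C) [P.IsPrime] :
    ∃ G : Finset C, (∀ g ∈ G, g ∈ P) ∧ ((G.card : ℕ) : ℕ∞) ≤ P.height ∧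
      ∀ y ∈ P, ∃ c, c ∉ P ∧ c * y ∈ Ideal.span (G : Set C) := by
  classical
  obtain ⟨d, z, hd, hz⟩ := exists_param (Localization.AtPrime P)
  obtain ⟨G, hG, hcard, hle⟩ := exists_local_gens_aux P z hz Finset.univ
  refine ⟨G, hG, ?_, ?_⟩
  · rw [IsLocalization.AtPrime.ringKrullDim_eq_height P (Localization.AtPrime P)] at hd
    have h1 : P.height = (d : ℕ∞) := by exact_mod_cast hd
    rw [h1]
    simpa using hcard
  · intro y hy
    apply mem_of_map_mem P
    apply hle
    rw [Finset.coe_univ, Set.image_univ, hz]
    rw [← Localization.AtPrime.map_eq_maximalIdeal]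
    exact Ideal.mem_map_of_mem _ hy

/-- Étale over a polynomial ring implies regular. -/
theorem regular_of_etale {P B : Type} [CommRing P] [IsRegularRing P] [CommRing B]
    [Algebra P B] [Algebra.Etale P B] (Q : Ideal B) [Q.IsPrime] :
    IsRegularLocalRing (Localization.AtPrime Q) := by
  classical
  have hB : IsNoetherianRing B := Algebra.FiniteType.isNoetherianRing P B
  let p : Ideal P := Q.under P
  have hp : p.IsPrime := Ideal.IsPrime.under P Q
  have hover : Q.LiesOver p := ⟨rfl⟩
  obtain ⟨G, hG, hcard, hgen⟩ := exists_local_gens p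
  have hnoeth : IsNoetherianRing (Localization.AtPrime Q) :=
    IsLocalization.isNoetherianRing Q.primeCompl _ inferInstance
  let _ : Algebra (Localization.AtPrime p) (Localization.AtPrime Q) :=
    Localization.AtPrime.algebraOfLiesOver p Q
  have hun : Algebra.IsUnramifiedAt P Q := inferInstance
  have h1 := ((Algebra.isUnramifiedAt_iff_map_eq P p Q).1 hun).2
  have hflat : Module.Flat P B := inferInstance
  have hht : p.height ≤ Q.height := by
    rw [Ideal.height_eq_height_add_of_liesOver_of_hasGoingDown p Q]
    exact le_self_add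
  have hspan : maximalIdeal (Localization.AtPrime Q) =
      Ideal.span ((algebraMap P (Localization.AtPrime Q)) '' (G : Set P)) := by
    rw [← h1, ← Ideal.map_span]
    apply le_antisymm
    · rw [Ideal.map_le_iff_le_comap]
      intro x hx
      obtain ⟨c, hc, hcx⟩ := hgen x hx
      rw [Ideal.mem_comap]
      have h2 : algebraMap P (Localization.AtPrime Q) (c * x) ∈
          Ideal.map (algebraMap P (Localization.AtPrime Q)) (Ideal.span (G : Set P)) :=
        Ideal.mem_map_of_mem _ hcx
      rw [map_mul] at h2
      have hu : IsUnit (algebraMap P (Localization.AtPrime Q) c) := by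
        rw [IsScalarTower.algebraMap_apply P B]
        exact IsLocalization.map_units _ (⟨algebraMap P B c, hc⟩ : Q.primeCompl)
      exact (Ideal.unit_mul_mem_iff_mem _ hu).1 h2
    · apply Ideal.map_mono
      rw [Ideal.span_le]
      exact hG
  apply IsRegularLocalRing.of_spanFinrank_maximalIdeal_le
  rw [IsLocalization.AtPrime.ringKrullDim_eq_height Q (Localization.AtPrime Q), hspan]
  have h3 : (Submodule.spanFinrank (Ideal.span
      ((algebraMap P (Localization.AtPrime Q)) '' (G : Set P)))) ≤ G.card := by
    refine (Submodule.spanFinrank_span_le_ncard_of_finite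
      ((Finset.finite_toSet G).image _)).trans ?_
    refine (Set.ncard_image_le (Finset.finite_toSet G)).trans ?_
    rw [Set.ncard_coe_finset]
  have h2 : ((Submodule.spanFinrank (Ideal.span
      ((algebraMap P (Localization.AtPrime Q)) '' (G : Set P))) : ℕ) : ℕ∞) ≤ Q.height :=
    le_trans (by exact_mod_cast h3) (hcard.trans hht)
  exact_mod_cast h2

/-- Smooth algebras over a field are regular. -/
theorem regular_of_smooth {k A : Type} [Field k] [CommRing A] [Algebra k A] [Algebra.Smooth k A]
    (q : Ideal A) [q.IsPrime] : IsRegularLocalRing (Localization.AtPrime q) := by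
  have hsm : Algebra.IsSmoothAt k q := inferInstance
  obtain ⟨f, hf, n, alg, tower, het⟩ :=
    Algebra.IsSmoothAt.exists_isStandardEtale_mvPolynomial (R := k) (S := A) (p := q)
  have het' : Algebra.Etale (MvPolynomial (Fin n) k) (Localization.Away f) := inferInstance
  have hQ : (Ideal.map (algebraMap A (Localization.Away f)) q).IsPrime :=
    IsLocalization.isPrime_of_isPrime_disjoint (.powers f) _ _ ‹_›
      ((Ideal.disjoint_powers_iff_notMem_of_isPrime _).mpr hf)
  have h1 := regular_of_etale (P := MvPolynomial (Fin n) k)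
    (Ideal.map (algebraMap A (Localization.Away f)) q)
  have h2 : (Ideal.map (algebraMap A (Localization.Away f)) q).comap
      (algebraMap A (Localization.Away f)) = q :=
    IsLocalization.comap_map_of_isPrime_disjoint (.powers f) _ ‹_›
      ((Ideal.disjoint_powers_iff_notMem_of_isPrime _).mpr hf)
  have h3 := IsLocalization.isLocalization_isLocalization_atPrime_isLocalization (.powers f)
    (Localization.AtPrime (Ideal.map (algebraMap A (Localization.Away f)) q))
    (Ideal.map (algebraMap A (Localization.Away f)) q)
  simp only [h2] at h3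
  exact IsRegularLocalRing.of_ringEquiv (IsLocalization.algEquiv q.primeCompl
    (Localization.AtPrime (Ideal.map (algebraMap A (Localization.Away f)) q))
    (Localization.AtPrime q)).toRingEquiv

/-- Smooth algebras over a field are regular rings. -/
theorem isRegularRing_of_smooth (k A : Type) [Field k] [CommRing A] [Algebra k A]
    [Algebra.Smooth k A] : IsRegularRing A := by
  have hn : IsNoetherianRing A := Algebra.FiniteType.isNoetherianRing k A
  rw [isRegularRing_iff]
  exact fun q _ => regular_of_smooth (k := k) q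

end gens

section prime

variable {B : Type u} [CommRing B] [IsRegularLocalRing B]

/-- The elements of a regular system of parameters are prime. -/
theorem ind_prime {ι : Type} [Fintype ι] {z : ι → B} (h : Ind z) (i : ι) : Prime (z i) := by
  have h1 : Ind (fun _ : Unit => z i) := h.comp (fun _ : Unit => i) fun _ _ _ => rfl
  have h2 := h1.regular
  have h3 : IsDomain (B ⧸ Ideal.span (Set.range fun _ : Unit => z i)) :=
    Pool.Agent.H379R3.isDomain _
  rw [Set.range_const] at h3
  have h4 := (Ideal.Quotient.isDomain_iff_prime _).1 h3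
  exact (Ideal.span_singleton_prime (h.ne_zero i)).1 h4

omit [IsRegularLocalRing B] in
theorem ind_not_dvd [IsLocalRing B] {ι : Type} [Fintype ι] {z : ι → B} (h : Ind z) {i j : ι}
    (hij : i ≠ j) : ¬ z i ∣ z j := by
  classical
  rintro ⟨c, hc⟩
  have h1 := h.2 (Pi.single j 1 - Pi.single i c) (by
    have h2 : ∑ l, (Pi.single j 1 - Pi.single i c : ι → B) l * z l = z j - c * z i := by
      simp only [Pi.sub_apply, sub_mul, Finset.sum_sub_distrib]
      congr 1
      · rw [Finset.sum_eq_single j]
        · rw [Pi.single_eq_same, one_mul]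
        · intro l _ hl
          rw [Pi.single_eq_of_ne hl, zero_mul]
        · intro h; exact absurd (Finset.mem_univ _) h
      · rw [Finset.sum_eq_single i]
        · rw [Pi.single_eq_same]
        · intro l _ hl
          rw [Pi.single_eq_of_ne hl, zero_mul]
        · intro h; exact absurd (Finset.mem_univ _) h
    rw [h2, hc, mul_comm, sub_self]
    exact Ideal.zero_mem _) j
  rw [Pi.sub_apply, Pi.single_eq_same, Pi.single_eq_of_ne hij.symm, sub_zero] at h1
  exact (Ideal.ne_top_iff_one _).1 (maximalIdeal.isMaximal _).ne_top h1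

end prime

/-- In a regular local ring of dimension at least two an element `z` of the fraction field with
`z 𝔪 ⊆ S` lies in `S`. -/
theorem mem_of_depth {S K : Type u} [CommRing S] [IsRegularLocalRing S] [IsDomain S] [Field K]
    [Algebra S K] (hinj : Function.Injective (algebraMap S K)) (z : K)
    (hz : ∀ y ∈ maximalIdeal S, ∃ e : S, algebraMap S K y * z = algebraMap S K e)
    (hS : ¬ (maximalIdeal S).IsPrincipal) : ∃ e : S, z = algebraMap S K e := by
  classical
  have h0 : Ind (fun i : Empty => (i.elim : S)) :=
    ⟨fun i => i.elim, fun c _ i => i.elim⟩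
  obtain ⟨m, w, hw, hd⟩ := h0.extend
  have hw' : Ideal.span (Set.range w) = maximalIdeal S := by
    rw [← hw]
    congr 1
    ext y
    constructor
    · rintro ⟨i, rfl⟩
      exact ⟨Sum.inr i, rfl⟩
    · rintro ⟨i | i, rfl⟩
      · exact i.elim
      · exact ⟨i, rfl⟩
  have hind : Ind w := ind_of_span hw' (by
    rw [hd, Fintype.card_fin, Fintype.card_eq_zero, zero_add])
  have hm : 2 ≤ m := by
    by_contra hlt
    apply hS
    rcases Nat.lt_or_ge m 1 with h | h
    · obtain rfl : m = 0 := by omega
      rw [← hw']
      refine ⟨0, ?_⟩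
      have : Set.range w = ∅ := Set.range_eq_empty w
      rw [this, Ideal.span_empty]
      simp
    · obtain rfl : m = 1 := by omega
      rw [← hw']
      refine ⟨w 0, ?_⟩
      have : Set.range w = {w 0} := by
        ext y
        constructor
        · rintro ⟨i, rfl⟩
          rw [Subsingleton.elim i 0]
          rfl
        · rintro rfl
          exact ⟨0, rfl⟩
      rw [this]
  let i0 : Fin m := ⟨0, by omega⟩
  let i1 : Fin m := ⟨1, by omega⟩
  have hne : i0 ≠ i1 := by
    intro h
    have := congrArg Fin.val h
    simp [i0, i1] at this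
  obtain ⟨e, he⟩ := hz (w i0) (hind.1 i0)
  obtain ⟨f, hf⟩ := hz (w i1) (hind.1 i1)
  have h1 : w i1 * e = w i0 * f := by
    apply hinj
    rw [map_mul, map_mul, ← he, ← hf]
    ring
  have h2 : w i0 ∣ w i1 * e := ⟨f, h1⟩
  rcases (ind_prime hind i0).dvd_or_dvd h2 with h3 | ⟨e', rfl⟩
  · exact absurd h3 (ind_not_dvd hind hne)
  · refine ⟨e', ?_⟩
    rw [map_mul] at he
    exact mul_left_cancel₀ (fun h => hind.ne_zero i0 (hinj (h.trans (map_zero _).symm))) he

/-- Regular domains are integrally closed. -/
theorem isIntegrallyClosed_of_regular (R : Type u) [CommRing R] [IsDomain R] [IsRegularRing R] :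
    IsIntegrallyClosed R := by
  classical
  let K := FractionRing R
  rw [isIntegrallyClosed_iff K]
  intro z hz
  by_contra hcon
  push Not at hcon
  let C := integralClosure R K
  let N : Submodule R C := LinearMap.range (Algebra.linearMap R C)
  have hzN : (Submodule.Quotient.mk (⟨z, hz⟩ : C) : C ⧸ N) ≠ 0 := by
    intro h
    rw [Submodule.Quotient.mk_eq_zero] at h
    obtain ⟨y, hy⟩ := h
    exact hcon y (congrArg Subtype.val hy)
  obtain ⟨q, hq, -⟩ := exists_le_isAssociatedPrime_of_isNoetherianRing R
    (Submodule.Quotient.mk (⟨z, hz⟩ : C) : C ⧸ N) hzN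
  obtain ⟨hqp, y', hy'⟩ := isAssociatedPrime_iff.1 hq
  obtain ⟨y, rfl⟩ := Submodule.Quotient.mk_surjective N y'
  have hmem : ∀ a : R, a ∈ q ↔ ∃ b : R, algebraMap R K a * y = algebraMap R K b := by
    intro a
    rw [hy', Submodule.mem_colon_singleton, Submodule.mem_bot, ← Submodule.Quotient.mk_smul,
      Submodule.Quotient.mk_eq_zero]
    constructor
    · rintro ⟨b, hb⟩
      refine ⟨b, ?_⟩
      have h1 := congrArg Subtype.val hb
      rw [Algebra.linearMap_apply] at h1
      rw [← Algebra.smul_def]
      exact h1.symm
    · rintro ⟨b, hb⟩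
      refine ⟨b, Subtype.ext ?_⟩
      change algebraMap R K b = a • (y : K)
      rw [← hb, Algebra.smul_def]
  let S := Localization.AtPrime q
  let _ : Algebra S K := IsLocalization.localizationAlgebraOfSubmonoidLe S K q.primeCompl (nonZeroDivisors R)
    q.primeCompl_le_nonZeroDivisors
  have htow : IsScalarTower R S K := IsLocalization.localization_isScalarTower_of_submonoid_le _ _ _ _ _
  have hfr : IsFractionRing S K :=
    IsFractionRing.isFractionRing_of_isDomain_of_isLocalization q.primeCompl S K
  have hSd : IsDomain S := IsLocalization.isDomain_localization q.primeCompl_le_nonZeroDivisors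
  have hinj : Function.Injective (algebraMap S K) := IsFractionRing.injective S K
  have hreg : IsRegularLocalRing S := inferInstance
  -- `y` does not lie in `S`
  have hyS : ∀ e : S, (y : K) ≠ algebraMap S K e := by
    intro e he
    obtain ⟨a, s, rfl⟩ := IsLocalization.exists_mk'_eq q.primeCompl e
    apply s.2
    refine (hmem _).2 ⟨a, ?_⟩
    rw [he, IsScalarTower.algebraMap_apply R S K, ← map_mul,
      IsLocalization.mk'_spec', ← IsScalarTower.algebraMap_apply]
  by_cases hp : (maximalIdeal S).IsPrincipal
  · have h1 : IsPrincipalIdealRing S :=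
      ((tfae_of_isNoetherianRing_of_isLocalRing_of_isDomain S).out 4 0).1 hp
    have h2 : IsIntegrallyClosed S := inferInstance
    have h3 : IsIntegral S (y : K) := IsIntegral.tower_top y.2
    obtain ⟨e, he⟩ := (isIntegrallyClosed_iff K).1 h2 h3
    exact hyS e he.symm
  · obtain ⟨e, he⟩ := mem_of_depth hinj (y : K) (by
      intro x hx
      obtain ⟨a, s, rfl⟩ := IsLocalization.exists_mk'_eq q.primeCompl x
      have ha : a ∈ q := by
        have h1 := (IsLocalization.AtPrime.mk'_mem_maximal_iff S q a s).1 hx
        exact h1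
      obtain ⟨b, hb⟩ := (hmem a).1 ha
      refine ⟨IsLocalization.mk' S b s, ?_⟩
      have hs : algebraMap S K (algebraMap R S s) ≠ 0 := by
        rw [← IsScalarTower.algebraMap_apply]
        intro h
        apply s.2
        have : (s : R) = 0 := IsFractionRing.injective R K (h.trans (map_zero _).symm)
        rw [this]
        exact q.zero_mem
      apply mul_left_cancel₀ hs
      rw [← mul_assoc, ← map_mul, ← map_mul, IsLocalization.mk'_spec', IsLocalization.mk'_spec',
        ← IsScalarTower.algebraMap_apply, ← IsScalarTower.algebraMap_apply]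
      exact hb) hp
    exact hyS e he

end Pool.Agent.Helper49.SQ.RG
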