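import Pool.Agent.Helper49.SQ.Def
import Pool.Agent.Helper49.SQ.PEreg
import Pool.Agent.Helper49.SQ.PEalg

/-!
# The local model is smooth, regular and integrally closed
-/

set_option autoImplicit false
set_option linter.unusedSectionVars false

namespace Pool.Agent.Helper49.SQ

open Finset Pool.Agent.W559.Mg Pool.Agent.Helper46.AQ Pool.Agent.Helper49.PQ

section MR

variable {k K : Type} [Field k] [Field K] [Algebra k K] {L : Type} [AddCommGroup L]
  {ι : Type} [Fintype ι] [DecidableEq ι]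

/-- The local model is smooth, regular and integrally closed. -/
theorem MR_props (dg : L ≃+ (ι → ℤ)) [IsDomain (ML K L)] (J : Set ι) (E : Subalgebra k K)
    (hfr : ∀ x : K, ∃ a ∈ E, ∃ b ∈ E, b ≠ 0 ∧ x = a / b) {n : ℕ} (y : Fin n → E)
    (hy : ((MvPolynomial.aeval y : MvPolynomial (Fin n) k →ₐ[k] E).toRingHom).Etale)
    (m : Fin n → ι → ℤ) (hm : ∀ j, ∀ i ∈ J, 0 ≤ m j i) :
    Algebra.Smooth k (MR dg J E (fun j => (y j : K)) m) ∧
      IsRegularRing (MR dg J E (fun j => (y j : K)) m) ∧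
      IC (MR dg J E (fun j => (y j : K)) m) := by
  classical
  have hyK : AlgebraicIndependent k fun j => (y j : K) := by
    have h1 : AlgebraicIndependent k y := etale_inj E y hy
    exact h1.map' (f := E.val) Subtype.val_injective
  let x : ι ⊕ Fin n → ML K L := Sum.elim (fun i => xz K dg (Pi.single i 1))
    fun j => mo (dg.symm (m j)) (y j : K)
  have hai : AlgebraicIndependent k x := algInd_gen dg (fun j => (y j : K)) hyK m
  let R0 := Algebra.adjoin k (Set.range x)
  have hx0 : ∀ i, xz K dg (Pi.single i 1) ∈ R0 := fun i =>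
    Algebra.subset_adjoin ⟨Sum.inl i, rfl⟩
  have hs0 : ∀ j, mo (dg.symm (m j)) (y j : K) ∈ R0 := fun j =>
    Algebra.subset_adjoin ⟨Sum.inr j, rfl⟩
  -- the localization at the invertible coordinates
  let mJ : ι → ℤ := fun i => if i ∈ J then 0 else 1
  have hg1 : xz K dg mJ ∈ R0 := by
    refine xz_mem (J := Set.univ) hx0 (fun i hi => absurd (Set.mem_univ i) hi) fun i _ => ?_
    change 0 ≤ (if i ∈ J then (0 : ℤ) else 1)
    split_ifs <;> omega
  let R1 := lc R0 (xz K dg mJ) hg1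
  have h01 : R0 ≤ R1 := le_lc _ _ _
  have hx1i : ∀ i, i ∉ J → xz K dg (Pi.single i (-1)) ∈ R1 := by
    intro i hi
    refine ⟨1, ?_⟩
    rw [pow_one, ← xz_add]
    refine xz_mem (J := Set.univ) hx0 (fun i hi => absurd (Set.mem_univ i) hi) fun l _ => ?_
    rw [Pi.add_apply]
    change 0 ≤ (if l ∈ J then (0 : ℤ) else 1) + _
    by_cases hl : l = i
    · subst hl
      rw [if_neg hi, Pi.single_eq_same]
      omega
    · rw [Pi.single_eq_of_ne hl]
      split_ifs <;> omega
  have hxz1 : ∀ m : ι → ℤ, (∀ i ∈ J, 0 ≤ m i) → xz K dg m ∈ R1 := fun m hm =>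
    xz_mem (fun i => h01 (hx0 i)) hx1i hm
  have hu1 : IsUnit (xz K dg mJ) := IsUnit.of_mul_eq_one _ (xz_inv dg mJ)
  have hsm0 : Algebra.Smooth k R0 := by
    have hsm : Algebra.Smooth k (MvPolynomial (ι ⊕ Fin n) k) := by
      constructor
      · infer_instance
      · infer_instance
    exact Algebra.Smooth.of_equiv hai.aevalEquiv
  have hsm1 : Algebra.Smooth k R1 := smooth_lc hsm0 hg1 hu1
  -- the coordinates are in the localization
  have hy1 : ∀ j, mo 0 (y j : K) ∈ R1 := by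
    intro j
    have h1 : mo 0 (y j : K) = mo (dg.symm (m j)) (y j : K) * xz K dg (m j) := by
      unfold xz
      rw [mo_mul, mul_one, map_neg, add_neg_cancel]
    rw [h1]
    exact R1.mul_mem (h01 (hs0 j)) (hxz1 _ (hm j))
  -- the coefficients
  have hyr : ∀ j, (y j : K) ∈
      (E.val.comp (MvPolynomial.aeval y : MvPolynomial (Fin n) k →ₐ[k] E)).range := fun j =>
    ⟨MvPolynomial.X j, by
      change ((MvPolynomial.aeval y (MvPolynomial.X j) : E) : K) = _
      rw [MvPolynomial.aeval_X]⟩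
  have hcf0 : R0 ≤ cf L
      (E.val.comp (MvPolynomial.aeval y : MvPolynomial (Fin n) k →ₐ[k] E)).range := by
    refine Algebra.adjoin_le ?_
    rintro _ ⟨i | j, rfl⟩
    · exact mo_mem_cf _ (Subalgebra.one_mem _)
    · exact mo_mem_cf _ (hyr j)
  have hcf1 : R1 ≤ cf L
      (E.val.comp (MvPolynomial.aeval y : MvPolynomial (Fin n) k →ₐ[k] E)).range :=
    lc_le hg1 (xz_inv dg mJ) hcf0 (mo_mem_cf _ (Subalgebra.one_mem _))
  have hsm : Algebra.Smooth k (R1 ⊔ E.map (zr k K L) : Subalgebra k (ML K L)) :=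
    smooth_core E y hy R1 hy1 hcf1 hsm1
  -- the model is the compositum
  have heq : MR dg J E (fun j => (y j : K)) m = R1 ⊔ E.map (zr k K L) := by
    apply le_antisymm
    · refine Algebra.adjoin_le ?_
      rintro f (((⟨b, hb, rfl⟩ | ⟨i, rfl⟩) | ⟨i, hi, rfl⟩) | ⟨j, rfl⟩)
      · exact (le_sup_right : E.map (zr k K L) ≤ _) ⟨b, hb, rfl⟩
      · exact (le_sup_left : R1 ≤ _) (h01 (hx0 i))
      · exact (le_sup_left : R1 ≤ _) (hx1i i hi)
      · exact (le_sup_left : R1 ≤ _) (h01 (hs0 j))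
    · have g1 : ∀ i, xz K dg (Pi.single i 1) ∈ MR dg J E (fun j => (y j : K)) m := fun i =>
        Algebra.subset_adjoin (Or.inl (Or.inl (Or.inr ⟨i, rfl⟩)))
      have g2 : ∀ i, i ∉ J → xz K dg (Pi.single i (-1)) ∈ MR dg J E (fun j => (y j : K)) m :=
        fun i hi => Algebra.subset_adjoin (Or.inl (Or.inr ⟨i, hi, rfl⟩))
      refine sup_le ?_ ?_
      · refine lc_le hg1 (xz_inv dg mJ) ?_ (xz_mem g1 g2 fun i hi => ?_)
        · refine Algebra.adjoin_le ?_
          rintro _ ⟨i | j, rfl⟩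
          · exact g1 i
          · exact Algebra.subset_adjoin (Or.inr ⟨j, rfl⟩)
        · change 0 ≤ -(if i ∈ J then (0 : ℤ) else 1)
          rw [if_pos hi]
          rfl
      · rintro _ ⟨b, hb, rfl⟩
        exact Algebra.subset_adjoin (Or.inl (Or.inl (Or.inl ⟨b, hb, rfl⟩)))
  have hsm' : Algebra.Smooth k (MR dg J E (fun j => (y j : K)) m) := by
    rw [heq]
    exact hsm
  have hreg : IsRegularRing (MR dg J E (fun j => (y j : K)) m) :=
    RG.isRegularRing_of_smooth k _
  refine ⟨hsm', hreg, ?_⟩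
  have hic : IsIntegrallyClosed (MR dg J E (fun j => (y j : K)) m) :=
    RG.isIntegrallyClosed_of_regular _
  refine IC.of_normal _ (frc_of_frz ?_)
  have hle := le_frz (MR dg J E (fun j => (y j : K)) m)
  refine sat_top (dg := dg) (Φ := (E : Set K)) (sat_frz _) (fun i => hle ?_) (fun s hs => ?_) ?_
  · exact Algebra.subset_adjoin (Or.inl (Or.inl (Or.inr ⟨i, rfl⟩)))
  · exact ⟨0, hle (Algebra.subset_adjoin (Or.inl (Or.inl (Or.inl ⟨s, hs, rfl⟩))))⟩
  · intro z
    obtain ⟨a, ha, b, hb, hb0, hz⟩ := hfr z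
    exact ⟨a, Algebra.subset_adjoin ha, b, Algebra.subset_adjoin hb, hb0, hz⟩

end MR

end Pool.Agent.Helper49.SQ
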