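import Mathlib

/-!
# Package D: a map which is a derivation up to `x` and up to the prime is divisible by `x`
-/

set_option autoImplicit false
set_option linter.unusedSectionVars false
set_option linter.style.haveILetI false

namespace Pool.Agent.Helper49.SQ

/-- A function with the rules of a derivation over `k` which kills the coordinates is zero. -/
theorem der_zero {k E Q : Type} [Field k] [CommRing E] [Algebra k E] [CommRing Q]
    (κ : k →+* Q) (ψ : E →+* Q) {n : ℕ} (y : Fin n → E)
    (hy : ((MvPolynomial.aeval y : MvPolynomial (Fin n) k →ₐ[k] E).toRingHom).Etale)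
    (δ : E → Q) (hadd : ∀ a b, δ (a + b) = δ a + δ b)
    (hk : ∀ (c : k) b, δ (c • b) = κ c * δ b)
    (hmul : ∀ a b, δ (a * b) = ψ a * δ b + ψ b * δ a) (hyδ : ∀ j, δ (y j) = 0) (b : E) :
    δ b = 0 := by
  have h1 : δ 1 = 0 := by
    have h := hmul 1 1
    rw [mul_one, map_one, one_mul] at h
    exact left_eq_add.1 h
  have h0 : δ 0 = 0 := by
    have h := hadd 0 0
    rw [add_zero] at h
    exact left_eq_add.1 h
  have hC : ∀ c : k, δ (algebraMap k E c) = 0 := by
    intro c
    rw [Algebra.algebraMap_eq_smul_one, hk, h1, mul_zero]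
  have hA : ∀ a : MvPolynomial (Fin n) k, δ (MvPolynomial.aeval y a) = 0 := by
    intro a
    induction a using MvPolynomial.induction_on with
    | C c => rw [MvPolynomial.aeval_C, hC]
    | add p q hp hq => rw [map_add, hadd, hp, hq, add_zero]
    | mul_X p j hp =>
      rw [map_mul, MvPolynomial.aeval_X, hmul, hyδ, hp, mul_zero, mul_zero, add_zero]
  letI algAE : Algebra (MvPolynomial (Fin n) k) E :=
    ((MvPolynomial.aeval y : MvPolynomial (Fin n) k →ₐ[k] E).toRingHom).toAlgebra
  letI algEQ : Algebra E Q := ψ.toAlgebra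
  letI algAQ : Algebra (MvPolynomial (Fin n) k) Q :=
    (ψ.comp (MvPolynomial.aeval y : MvPolynomial (Fin n) k →ₐ[k] E).toRingHom).toAlgebra
  haveI : IsScalarTower (MvPolynomial (Fin n) k) E Q := IsScalarTower.of_algebraMap_eq fun _ => rfl
  haveI het : Algebra.Etale (MvPolynomial (Fin n) k) E := hy
  have hunr : Algebra.FormallyUnramified (MvPolynomial (Fin n) k) E := inferInstance
  let d : Derivation (MvPolynomial (Fin n) k) E Q := Derivation.mk'
    { toFun := δ
      map_add' := hadd
      map_smul' := by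
        intro a b
        rw [Algebra.smul_def, hmul]
        have h2 : algebraMap (MvPolynomial (Fin n) k) E a = MvPolynomial.aeval y a := rfl
        rw [h2, hA, mul_zero, add_zero, RingHom.id_apply, Algebra.smul_def]
        rfl } (by
    intro a b
    change δ (a * b) = a • δ b + b • δ a
    rw [hmul, Algebra.smul_def, Algebra.smul_def]
    rfl)
  have hsub : Subsingleton (Ω[E⁄MvPolynomial (Fin n) k]) :=
    hunr.subsingleton_kaehlerDifferential
  have hd : d b = 0 := by
    have h3 : d b = d.liftKaehlerDifferential (KaehlerDifferential.D (MvPolynomial (Fin n) k) E b) :=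
      (Derivation.liftKaehlerDifferential_comp_D d b).symm
    rw [h3, Subsingleton.elim (KaehlerDifferential.D (MvPolynomial (Fin n) k) E b) 0, map_zero]
  exact hd

/-- A map which is a derivation up to `x` and up to the prime is divisible by `x`. -/
theorem dt_lemma {k E R : Type} [Field k] [CommRing E] [Algebra k E] [CommRing R] [Algebra k R]
    [IsNoetherianRing R] (φ : E →ₐ[k] R) (P : Ideal R) [P.IsPrime] {n : ℕ} (y : Fin n → E)
    (hy : ((MvPolynomial.aeval y : MvPolynomial (Fin n) k →ₐ[k] E).toRingHom).Etale)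
    (D : E →ₗ[k] R) (t : E → R) (ht : ∀ b, t b - φ b ∈ P) (x : R)
    (hL : ∀ b b', ∃ s, s ∉ P ∧ x ∣ s * (D (b * b') - φ b * D b' - t b' * D b))
    (hyD : ∀ j, ∃ s, s ∉ P ∧ x ∣ s * D (y j)) (b : E) : ∃ s, s ∉ P ∧ x ∣ s * D b := by
  classical
  set S := Localization.AtPrime P with hS
  set α : R →+* S := algebraMap R S with hα
  haveI : IsNoetherianRing S := IsLocalization.isNoetherianRing P.primeCompl S inferInstance
  -- divisibility in the local ring
  have hdvd : ∀ r : R, (∃ s, s ∉ P ∧ x ∣ s * r) ↔ α r ∈ Ideal.span {α x} := by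
    intro r
    rw [Ideal.mem_span_singleton]
    constructor
    · rintro ⟨s, hs, c, hc⟩
      have hu : IsUnit (α s) := IsLocalization.map_units S (⟨s, hs⟩ : P.primeCompl)
      have h1 : α x ∣ α s * α r := ⟨α c, by rw [← map_mul, hc, map_mul]⟩
      exact hu.dvd_mul_left.1 h1
    · rintro ⟨c, hc⟩
      obtain ⟨⟨c', s⟩, hc'⟩ := IsLocalization.surj P.primeCompl c
      have h1 : α (s * r) = α (x * c') := by
        rw [map_mul, map_mul, hc]
        have h2 : c * α s = α c' := hc'
        rw [← h2]
        ring
      obtain ⟨u, hu⟩ := (IsLocalization.eq_iff_exists P.primeCompl S).1 h1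
      refine ⟨u * s, fun h => (u * s).2 h, c' * u, ?_⟩
      rw [mul_assoc, hu]
      ring
  rw [hdvd]
  set N : Ideal S := Ideal.span {α x} with hN
  set I : Ideal S := N ⊔ Ideal.span (Set.range fun b => α (D b)) with hI
  set m : Ideal S := IsLocalRing.maximalIdeal S with hm
  have hIfg : I.FG := IsNoetherian.noetherian I
  have hDI : ∀ b, α (D b) ∈ I := fun b =>
    Ideal.mem_sup_right (Ideal.subset_span (Set.mem_range_self b))
  set K : Ideal S := N ⊔ m • I with hK
  have hmP : ∀ r ∈ P, α r ∈ m := by
    intro r hr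
    exact (IsLocalization.AtPrime.to_map_mem_maximal_iff S P r).2 hr
  have key : ∀ b, Ideal.Quotient.mk K (α (D b)) = 0 := by
    intro b
    refine der_zero ((Ideal.Quotient.mk K).comp (α.comp (algebraMap k R)))
      ((Ideal.Quotient.mk K).comp (α.comp φ.toRingHom)) y hy
      (fun b => Ideal.Quotient.mk K (α (D b))) ?_ ?_ ?_ ?_ b
    · intro a b
      simp only [map_add]
    · intro c b
      simp only [RingHom.comp_apply]
      rw [LinearMap.map_smul, Algebra.smul_def, RingHom.map_mul α, RingHom.map_mul]
    · intro a b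
      simp only [RingHom.comp_apply]
      rw [← map_mul (Ideal.Quotient.mk K), ← map_mul (Ideal.Quotient.mk K),
        ← map_add (Ideal.Quotient.mk K), Ideal.Quotient.eq]
      have h1 : α (D (a * b)) - (α (φ.toRingHom a) * α (D b) + α (φ.toRingHom b) * α (D a)) =
          α (D (a * b) - φ a * D b - t b * D a) + α (t b - φ b) * α (D a) := by
        change α (D (a * b)) - (α (φ a) * α (D b) + α (φ b) * α (D a)) = _
        rw [RingHom.map_sub α, RingHom.map_sub α, RingHom.map_mul α, RingHom.map_mul α,
          RingHom.map_sub α]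
        ring
      rw [h1]
      refine Ideal.add_mem _ (Ideal.mem_sup_left ((hdvd _).1 (hL a b))) (Ideal.mem_sup_right ?_)
      exact Submodule.smul_mem_smul (hmP _ (ht b)) (hDI a)
    · intro j
      rw [Ideal.Quotient.eq_zero_iff_mem]
      exact Ideal.mem_sup_left ((hdvd _).1 (hyD j))
  have hIK : I ≤ K := by
    rw [hI]
    refine sup_le le_sup_left ?_
    rw [Ideal.span_le]
    rintro _ ⟨b, rfl⟩
    exact Ideal.Quotient.eq_zero_iff_mem.1 (key b)
  have hIN : I ≤ N := by
    refine Submodule.le_of_le_smul_of_le_jacobson_bot hIfg ?_ hIK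
    rw [hm]
    exact (IsLocalRing.jacobson_eq_maximalIdeal ⊥ bot_ne_top).ge
  exact hIN (hDI b)

end Pool.Agent.Helper49.SQ
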