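import Pool.Agent.Helper49.SQ.Fam
import Pool.Agent.Helper49.SQ.PD

/-!
# Divisibility of the iterated differences
-/

set_option autoImplicit false
set_option linter.unusedSectionVars false

namespace Pool.Agent.Helper49.SQ

open Finset Pool.Agent.W559.Mg Pool.Agent.Helper46.AQ Pool.Agent.Helper49.PQ Pointwise

section leib

variable {k K : Type} [Field k] [Field K] [Algebra k K] {G : Type} [Group G]
  (ρ : G →* (K ≃ₐ[k] K))

lemma dlt_mul (c : G) (x y : K) : dlt ρ c (x * y) = dlt ρ c x * ρ c y + x * dlt ρ c y := by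
  rw [dlt_apply, dlt_apply, dlt_apply, map_mul]
  ring

lemma rho_mul_apply (a b : G) (x : K) : ρ (a * b) x = ρ a (ρ b x) := by
  rw [map_mul]
  rfl

lemma dlt_rho (c : G) (t u : ℕ) (x : K) :
    ρ (c ^ t) ((dlt ρ c ^ u : Module.End k K) x) =
      (dlt ρ c ^ u : Module.End k K) (ρ (c ^ t) x) := by
  induction u with
  | zero => rfl
  | succ u ih =>
    rw [pow_succ', Module.End.mul_apply, Module.End.mul_apply, ← ih, dlt_apply, dlt_apply, map_sub,
      ← rho_mul_apply, ← rho_mul_apply, ← pow_succ, ← pow_succ']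

/-- conjugation of differences -/
lemma rho_dlt (g h : G) (x : K) : ρ g (dlt ρ h x) = dlt ρ (g * h * g⁻¹) (ρ g x) := by
  rw [dlt_apply, dlt_apply, map_sub, ← rho_mul_apply, ← rho_mul_apply, inv_mul_cancel_right]

/-- The Leibniz rule. -/
lemma leib (c : G) (x y : K) (u : ℕ) : (dlt ρ c ^ u : Module.End k K) (x * y) =
    ∑ ij ∈ antidiagonal u, u.choose ij.1 • ((dlt ρ c ^ ij.1 : Module.End k K) x *
      (dlt ρ c ^ ij.2 : Module.End k K) (ρ (c ^ ij.1) y)) := by
  induction u with
  | zero => simp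
  | succ u ih =>
    rw [pow_succ', Module.End.mul_apply, ih, map_sum,
      Finset.sum_antidiagonal_choose_succ_nsmul (fun a b =>
        (dlt ρ c ^ a : Module.End k K) x * (dlt ρ c ^ b : Module.End k K) (ρ (c ^ a) y)) u,
      ← sum_add_distrib]
    refine sum_congr rfl fun ij hij => ?_
    have h1 : u.choose ij.2 = u.choose ij.1 := by
      have := Finset.HasAntidiagonal.mem_antidiagonal.1 hij
      exact (Nat.choose_symm_of_eq_add (by omega)).symm
    rw [map_nsmul, dlt_mul, h1, ← nsmul_add]
    congr 1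
    rw [← Module.End.mul_apply, ← pow_succ', ← Module.End.mul_apply, ← pow_succ', add_comm]
    congr 2
    have h2 := dlt_rho ρ c 1 ij.2 (ρ (c ^ ij.1) y)
    rw [pow_one] at h2
    rw [h2, ← rho_mul_apply, ← pow_succ']

/-- The Leibniz rule modulo a submodule. -/
lemma leib_sub (c : G) (x y : K) (u : ℕ) (T : Submodule k K) (S : Finset (ℕ × ℕ))
    (hS : S ⊆ antidiagonal u)
    (h : ∀ ij ∈ antidiagonal u \ S, (dlt ρ c ^ ij.1 : Module.End k K) x *
      (dlt ρ c ^ ij.2 : Module.End k K) (ρ (c ^ ij.1) y) ∈ T) :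
    (dlt ρ c ^ u : Module.End k K) (x * y) - ∑ ij ∈ S, u.choose ij.1 •
      ((dlt ρ c ^ ij.1 : Module.End k K) x *
      (dlt ρ c ^ ij.2 : Module.End k K) (ρ (c ^ ij.1) y)) ∈ T := by
  rw [leib, ← Finset.sum_sdiff hS, add_sub_cancel_right]
  exact T.sum_mem fun ij hij => T.nsmul_mem (h ij hij) _

end leib

section QS

variable {k K : Type} [Field k] [Field K] [Algebra k K] {L : Type} [AddCommGroup L]
  {ι : Type} [Fintype ι] [DecidableEq ι] {dg : L ≃+ (ι → ℤ)}
  {F Γ : Type} [Field F] [Algebra (ML K L) F] [FaithfulSMul (ML K L) F]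
  [LinearOrderedCommGroupWithZero Γ] {W : Valuation F Γ}

/-- The elements which are divisible by the monomial of exponent `e` in the local ring. -/
def QS (dg : L ≃+ (ι → ℤ)) (R : Subalgebra k (ML K L)) (W : Valuation F Γ) (e : ι → ℤ) :
    Submodule k K where
  carrier := {f | mo (dg.symm e) f ∈ LW R W}
  add_mem' := fun {a b} ha hb => by
    change mo (dg.symm e) (a + b) ∈ LW R W
    rw [mo_add]
    exact (LW R W).add_mem ha hb
  zero_mem' := by
    change mo (dg.symm e) (0 : K) ∈ LW R W
    rw [mo_zero]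
    exact (LW R W).zero_mem
  smul_mem' := fun r a ha => by
    change mo (dg.symm e) (r • a) ∈ LW R W
    rw [← smul_mo]
    exact (LW R W).smul_mem ha r

lemma mem_QS {R : Subalgebra k (ML K L)} {e : ι → ℤ} {f : K} :
    f ∈ QS dg R W e ↔ mo (dg.symm e) f ∈ LW R W := Iff.rfl

lemma QS_mul {R : Subalgebra k (ML K L)} {e e' : ι → ℤ} {f f' : K} (h : f ∈ QS dg R W e)
    (h' : f' ∈ QS dg R W e') : f * f' ∈ QS dg R W (e + e') := by
  rw [mem_QS] at *
  rw [map_add, ← mo_mul]
  exact (LW R W).mul_mem h h'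

lemma QS_mono {R : Subalgebra k (ML K L)} {J : Set ι}
    (hx : ∀ m : ι → ℤ, (∀ i ∈ J, 0 ≤ m i) → xz K dg m ∈ R) {e e' : ι → ℤ}
    (he : ∀ i ∈ J, e' i ≤ e i) {f : K} (h : f ∈ QS dg R W e) : f ∈ QS dg R W e' := by
  rw [mem_QS] at *
  have h1 : (mo (dg.symm e') f : ML K L) = xz K dg (e - e') * mo (dg.symm e) f := by
    unfold xz
    rw [mo_mul, ← map_add, one_mul]
    congr 2
    abel
  rw [h1]
  refine (LW R W).mul_mem (le_LW R W (hx _ fun i hi => ?_)) h
  rw [Pi.sub_apply]
  have := he i hi
  omega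

/-- Homogeneous elements with an arbitrary denominator. -/
lemma mem_LW_of' (C : Subalgebra k (ML K L)) (hC : Gr C)
    (hle : ∀ f ∈ C, W (algebraMap (ML K L) F f) ≤ 1) (e : L) (b : K) (s : ML K L) (hs : s ∈ C)
    (hs1 : W (algebraMap (ML K L) F s) = 1) (h : s * mo e b ∈ C) : mo e b ∈ LW C W := by
  classical
  have h1 : ∃ d, W (algebraMap (ML K L) F (mo d (s.coeff d))) = 1 := by
    by_contra hcon
    push Not at hcon
    have h2 : W (algebraMap (ML K L) F s) < 1 := by
      rw [eq_sum_mo s, map_sum]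
      exact W.map_sum_lt one_ne_zero fun d _ => lt_of_le_of_ne (hle _ (hC s hs d)) (hcon d)
    exact h2.ne hs1
  obtain ⟨d, hd⟩ := h1
  refine ⟨d, s.coeff d, hC s hs d, hd, ?_⟩
  have h2 := hC _ h (d + e)
  rw [mul_comm, coeff_mo_mul, add_sub_cancel_right, mul_comm b, ← mo_mul] at h2
  exact h2

variable {R : Subalgebra k (ML K L)}

/-- The criterion for divisibility. -/
lemma dt_apply (E : Subalgebra k K) {n : ℕ} (y : Fin n → E)
    (hy : ((MvPolynomial.aeval y : MvPolynomial (Fin n) k →ₐ[k] E).toRingHom).Etale)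
    (hR : IsNoetherianRing R) (hGr : Gr R)
    (hER : ∀ b ∈ E, mo 0 b ∈ R) (hle : ∀ f ∈ R, W (algebraMap (ML K L) F f) ≤ 1)
    {J : Set ι} (hx : ∀ m : ι → ℤ, (∀ i ∈ J, 0 ≤ m i) → xz K dg m ∈ R)
    {e : ι → ℤ} (he : ∀ i ∈ J, 0 ≤ e i) (D : Module.End k K) (hD : ∀ b ∈ E, D b ∈ E)
    (t : K → K) (ht : ∀ b ∈ E, t b ∈ E)
    (htW : ∀ b ∈ E, W (algebraMap (ML K L) F (mo 0 (t b - b))) < 1)
    (hL : ∀ b ∈ E, ∀ b' ∈ E, D (b * b') - b * D b' - t b' * D b ∈ QS dg R W e)
    (hyD : ∀ j, D (y j : K) ∈ QS dg R W e) : ∀ b ∈ E, D b ∈ QS dg R W e := by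
  intro b hb
  let P : Ideal R :=
    { carrier := {r | W (algebraMap (ML K L) F r) < 1}
      add_mem' := fun {a b} ha hb => by
        change W (algebraMap (ML K L) F ((a : ML K L) + b)) < 1
        rw [map_add]
        exact (W.map_add _ _).trans_lt (max_lt ha hb)
      zero_mem' := by
        change W (algebraMap (ML K L) F (0 : ML K L)) < 1
        rw [map_zero, map_zero]
        exact zero_lt_one
      smul_mem' := fun r a ha => by
        change W (algebraMap (ML K L) F ((r : ML K L) * a)) < 1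
        rw [map_mul, map_mul]
        calc W (algebraMap (ML K L) F r) * W (algebraMap (ML K L) F a) ≤
              1 * W (algebraMap (ML K L) F a) := mul_le_mul_left (hle _ r.2) _
          _ < 1 := by rw [one_mul]; exact ha }
  have memP : ∀ r : R, r ∈ P ↔ W (algebraMap (ML K L) F r) < 1 := fun r => Iff.rfl
  have hP : P.IsPrime := by
    refine ⟨fun h => ?_, fun {a b} hab => ?_⟩
    · have h1 : (1 : R) ∈ P := by rw [h]; exact Submodule.mem_top
      rw [memP] at h1
      change W (algebraMap (ML K L) F 1) < 1 at h1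
      rw [map_one, map_one] at h1
      exact lt_irrefl _ h1
    · rw [memP, memP]
      rw [memP] at hab
      by_contra hcon
      push Not at hcon
      change W (algebraMap (ML K L) F ((a : ML K L) * b)) < 1 at hab
      rw [map_mul, map_mul, le_antisymm (hle _ a.2) hcon.1, le_antisymm (hle _ b.2) hcon.2,
        one_mul] at hab
      exact lt_irrefl _ hab
  let φ : E →ₐ[k] R := ((zr k K L).comp E.val).codRestrict R fun b => hER _ b.2
  have hφ : ∀ b : E, ((φ b : R) : ML K L) = mo 0 (b : K) := fun _ => rfl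
  let D' : E →ₗ[k] R :=
    { toFun := fun b => ⟨mo 0 (D b), hER _ (hD _ b.2)⟩
      map_add' := fun a b => Subtype.ext (by
        change mo 0 (D ((a : K) + b)) = mo 0 (D a) + mo 0 (D b)
        rw [map_add, mo_add])
      map_smul' := fun r a => Subtype.ext (by
        change mo 0 (D (r • (a : K))) = r • mo 0 (D a)
        rw [map_smul, smul_mo]) }
  have hD' : ∀ b : E, ((D' b : R) : ML K L) = mo 0 (D (b : K)) := fun _ => rfl
  let t' : E → R := fun b => ⟨mo 0 (t b), hER _ (ht _ b.2)⟩
  have ht' : ∀ b : E, ((t' b : R) : ML K L) = mo 0 (t (b : K)) := fun _ => rfl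
  let x : R := ⟨xz K dg e, hx e he⟩
  have key : ∀ (f : K) (r : R), f ∈ QS dg R W e → (r : ML K L) = mo 0 f →
      ∃ s, s ∉ P ∧ x ∣ s * r := by
    rintro f r ⟨d, a, h1, h2, h3⟩ hr
    refine ⟨⟨mo d a, h1⟩, fun h4 => ?_, ⟨mo d a * mo (dg.symm e) f, h3⟩, ?_⟩
    · rw [memP] at h4
      exact h4.ne h2
    · apply Subtype.ext
      change mo d a * (r : ML K L) = xz K dg e * (mo d a * mo (dg.symm e) f)
      rw [hr]
      unfold xz
      rw [mo_mul, mo_mul, mo_mul, one_mul]
      congr 1
      rw [map_neg]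
      abel
  obtain ⟨s, hs, r, hr⟩ := dt_lemma φ P y hy D' t' (fun b => by
    rw [memP]
    change W (algebraMap (ML K L) F (mo 0 (t b) - mo 0 (b : K))) < 1
    rw [← mo_sub]
    exact htW _ b.2) x
    (fun b b' => key (D ((b : K) * b') - b * D b' - t b' * D b) _ (hL _ b.2 _ b'.2) (by
      change mo 0 (D ((b : K) * b')) - mo 0 (b : K) * mo 0 (D b') - mo 0 (t b') * mo 0 (D b) = _
      rw [mo_mul, mo_mul, add_zero, mo_sub, mo_sub]))
    (fun j => key (D (y j : K)) _ (hyD j) rfl) ⟨b, hb⟩
  rw [mem_QS]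
  refine mem_LW_of' R hGr hle _ _ s s.2 ?_ ?_
  · rw [memP] at hs
    exact le_antisymm (hle _ s.2) (not_lt.1 hs)
  · have h1 := congrArg Subtype.val hr
    change (s : ML K L) * mo 0 (D b) = xz K dg e * (r : ML K L) at h1
    have h2 : (s : ML K L) * mo (dg.symm e) (D b) = r := by
      have h3 : (mo (dg.symm e) (D b) : ML K L) = mo 0 (D b) * mo (dg.symm e) 1 := by
        rw [mo_mul, zero_add, mul_one]
      have h4 : xz K dg e * (mo (dg.symm e) 1 : ML K L) = 1 := by
        unfold xz
        rw [mo_mul, ← map_add, neg_add_cancel, map_zero, one_mul, mo_one]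
      rw [h3, ← mul_assoc, h1, mul_right_comm, h4, one_mul]
    rw [h2]
    exact r.2

end QS

section

variable {k K : Type} [Field k] [Field K] [Algebra k K] [DecidableEq K] {G : Type} [Group G]
  [Fintype G] [DecidableEq G] {ρ : G →* (K ≃ₐ[k] K)} {B : Subalgebra k K} {Z : Finset K}
  {Γ : Type} [LinearOrderedCommGroupWithZero Γ] {v : Valuation K Γ}

variable {L : Type} [AddCommGroup L] {ι : Type} [Fintype ι] [DecidableEq ι]
  {dg : L ≃+ (ι → ℤ)} {F : Type} [Field F] [Algebra (ML K L) F] [FaithfulSMul (ML K L) F]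
  {W : Valuation F Γ}

/-- Divisibility of the iterated differences in the local model. -/
theorem leib_ind [IsDomain (ML K L)] (E : Subalgebra k K) {n : ℕ} (y : Fin n → E)
    (hy : ((MvPolynomial.aeval y : MvPolynomial (Fin n) k →ₐ[k] E).toRingHom).Etale)
    (R : Subalgebra k (ML K L)) (hR : IsNoetherianRing R) (hGr : Gr R)
    (hER : ∀ b ∈ E, mo 0 b ∈ R) (hle : ∀ f ∈ R, W (algebraMap (ML K L) F f) ≤ 1)
    (p : ℕ) (H I : Subgroup G) (hIH : I ≤ H) (hHE : ∀ h ∈ H, ∀ b ∈ E, ρ h b ∈ E)
    (hin : ∀ h ∈ H, ∀ b ∈ E, W (algebraMap (ML K L) F (mo 0 (ρ h b - b))) < 1)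
    (J : Set ι) (hx : ∀ m : ι → ℤ, (∀ i ∈ J, 0 ≤ m i) → xz K dg m ∈ R)
    (wN : G → ι → ℤ) (wM : G → ℕ → ι → ℤ) (hM0 : ∀ c, wM c 0 = 0) (hN1 : wN 1 = 0)
    (hMadd : ∀ c ∈ I, c ≠ 1 → ∀ a b, a + b < p → ∀ i ∈ J, wM c (a + b) i ≤ wM c a i + wM c b i)
    (hMnn : ∀ c ∈ I, c ≠ 1 → ∀ a < p, ∀ i ∈ J, 0 ≤ wM c a i)
    (hNc : ∀ c ∈ I, ∀ h ∈ H, ∀ i ∈ J, wN (c * h * c⁻¹) i = wN h i)
    (hNnn : ∀ h ∈ H, ∀ i ∈ J, 0 ≤ wN h i)
    (hyc : ∀ c ∈ I, ∀ h ∈ H, ∀ u < p, (c = 1 → u = 0) → ∀ j,
      mo (dg.symm (wN h + wM c u)) (((dlt ρ c) ^ u : Module.End k K) (dl' ρ h (y j : K))) ∈ LW R W) :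
    ∀ c ∈ I, ∀ h ∈ H, ∀ u < p, (c = 1 → u = 0) → ∀ b ∈ E,
      mo (dg.symm (wN h + wM c u)) (((dlt ρ c) ^ u : Module.End k K) (dl' ρ h b)) ∈ LW R W := by
  -- stability of `E`
  have hdE : ∀ h ∈ H, ∀ b ∈ E, dlt ρ h b ∈ E := fun h hh b hb => by
    rw [dlt_apply]
    exact E.sub_mem (hHE h hh b hb) hb
  have hdE' : ∀ c ∈ I, ∀ u : ℕ, ∀ b ∈ E, ((dlt ρ c) ^ u : Module.End k K) b ∈ E := by
    intro c hc u
    induction u with
    | zero => exact fun b hb => hb
    | succ u ih =>
      intro b hb
      rw [pow_succ', Module.End.mul_apply]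
      exact hdE c (hIH hc) _ (ih b hb)
  have hpE : ∀ c ∈ I, ∀ t : ℕ, ∀ b ∈ E, ρ (c ^ t) b ∈ E := fun c hc t b hb =>
    hHE _ (hIH (I.pow_mem hc t)) b hb
  have hE0 : ∀ b ∈ E, b ∈ QS dg R W 0 := fun b hb => by
    rw [mem_QS, map_zero]
    exact le_LW R W (hER b hb)
  -- the differences of the elements
  have hA : ∀ c ∈ I, ∀ u < p, (c = 1 → u = 0) → ∀ b ∈ E,
      ((dlt ρ c) ^ u : Module.End k K) b ∈ QS dg R W (wM c u) := by
    intro c hc u
    induction u using Nat.strong_induction_on with
    | _ u ih =>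
      intro hup hcu
      rcases Nat.eq_zero_or_pos u with rfl | hu
      · intro b hb
        rw [hM0, pow_zero]
        exact hE0 b hb
      have hc1 : c ≠ 1 := fun h => by
        have := hcu h
        omega
      refine dt_apply E y hy hR hGr hER hle hx (hMnn c hc hc1 u hup) _ (hdE' c hc u)
        (fun b => ρ (c ^ u) b) (hpE c hc u) (fun b hb => hin _ (hIH (I.pow_mem hc u)) b hb)
        (fun b hb b' hb' => ?_) (fun j => ?_)
      · have h1 := leib_sub ρ c b b' u (QS dg R W (wM c u)) {(0, u), (u, 0)} (by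
          intro ij hij
          rw [Finset.mem_insert, Finset.mem_singleton] at hij
          rw [Finset.HasAntidiagonal.mem_antidiagonal]
          rcases hij with rfl | rfl <;> simp) (by
          rintro ⟨v, w⟩ hij
          rw [Finset.mem_sdiff, Finset.HasAntidiagonal.mem_antidiagonal, Finset.mem_insert,
            Finset.mem_singleton, Prod.mk.injEq, Prod.mk.injEq] at hij
          obtain ⟨h2, h3⟩ := hij
          push Not at h3
          have hv : 0 < v := by
            by_contra hcon
            exact h3.1 (by omega) (by omega)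
          have hw : 0 < w := by
            by_contra hcon
            exact h3.2 (by omega) (by omega)
          have h4 := ih v (by omega) (by omega) (fun h => absurd h hc1) b hb
          have h5 := ih w (by omega) (by omega) (fun h => absurd h hc1) _ (hpE c hc v b' hb')
          refine QS_mono hx (fun i hi => ?_) (QS_mul h4 h5)
          have h6 := hMadd c hc hc1 v w (by omega) i hi
          rw [h2] at h6
          exact h6)
        rw [Finset.sum_pair (by
          intro h
          rw [Prod.mk.injEq] at h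
          omega), Nat.choose_zero_right, Nat.choose_self, one_smul, one_smul, pow_zero,
          pow_zero, map_one] at h1
        have h2 : ((dlt ρ c) ^ u : Module.End k K) (b * b') -
            b * ((dlt ρ c) ^ u : Module.End k K) b' -
            ρ (c ^ u) b' * ((dlt ρ c) ^ u : Module.End k K) b =
            ((dlt ρ c) ^ u : Module.End k K) (b * b') -
            ((1 : Module.End k K) b * ((dlt ρ c) ^ u : Module.End k K) ((1 : K ≃ₐ[k] K) b') +
            ((dlt ρ c) ^ u : Module.End k K) b * (1 : Module.End k K) (ρ (c ^ u) b')) := by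
          rw [Module.End.one_apply, Module.End.one_apply, AlgEquiv.one_apply]
          ring
        rw [h2]
        exact h1
      · have h1 := hyc c hc 1 H.one_mem u hup hcu j
        rw [hN1, zero_add, dl', if_pos rfl, Module.End.one_apply] at h1
        exact h1
  -- the differences of the differences
  have hB : ∀ c ∈ I, ∀ u < p, (c = 1 → u = 0) → ∀ h ∈ H, h ≠ 1 → ∀ b ∈ E,
      ((dlt ρ c) ^ u : Module.End k K) (dlt ρ h b) ∈ QS dg R W (wN h + wM c u) := by
    intro c hc u
    induction u using Nat.strong_induction_on with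
    | _ u ih =>
      intro hup hcu h hh hh1
      have hMu : ∀ i ∈ J, 0 ≤ wM c u i := by
        intro i hi
        by_cases hc1 : c = 1
        · rw [hcu hc1, hM0, Pi.zero_apply]
        · exact hMnn c hc hc1 u hup i hi
      have hconj : ∀ v : ℕ, ∀ i ∈ J, wN (c ^ v * h * (c ^ v)⁻¹) i = wN h i := fun v i hi =>
        hNc _ (I.pow_mem hc v) h hh i hi
      refine dt_apply E y hy hR hGr hER hle hx (fun i hi => ?_)
        (((dlt ρ c) ^ u : Module.End k K) * dlt ρ h)
        (fun b hb => hdE' c hc u _ (hdE h hh b hb))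
        (fun b => ρ (c ^ u * h) b) (fun b hb => hHE _ (H.mul_mem (hIH (I.pow_mem hc u)) hh) b hb)
        (fun b hb => hin _ (H.mul_mem (hIH (I.pow_mem hc u)) hh) b hb)
        (fun b hb b' hb' => ?_) (fun j => ?_)
      · rw [Pi.add_apply]
        exact add_nonneg (hNnn h hh i hi) (hMu i hi)
      · -- first part
        have h1 := leib_sub ρ c b (dlt ρ h b') u (QS dg R W (wN h + wM c u)) {(0, u)} (by
          intro ij hij
          rw [Finset.mem_singleton] at hij
          rw [Finset.HasAntidiagonal.mem_antidiagonal, hij, zero_add]) (by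
          rintro ⟨v, w⟩ hij
          rw [Finset.mem_sdiff, Finset.HasAntidiagonal.mem_antidiagonal, Finset.mem_singleton,
            Prod.mk.injEq] at hij
          obtain ⟨h2, h3⟩ := hij
          have hv : 0 < v := by
            by_contra hcon
            exact h3 ⟨by omega, by omega⟩
          have hc1 : c ≠ 1 := fun h => by
            have := hcu h
            omega
          have h4 := hA c hc v (by omega) (fun h => absurd h hc1) b hb
          have h5 := ih w (by omega) (by omega) (fun h => absurd h hc1) (c ^ v * h * (c ^ v)⁻¹)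
            (H.mul_mem (H.mul_mem (hIH (I.pow_mem hc v)) hh) (H.inv_mem (hIH (I.pow_mem hc v))))
            (fun h6 => hh1 (by
              have h7 : h = (c ^ v)⁻¹ * (c ^ v * h * (c ^ v)⁻¹) * c ^ v := by group
              rw [h7, h6]
              group)) _ (hpE c hc v b' hb')
          rw [← rho_dlt] at h5
          refine QS_mono hx (fun i hi => ?_) (QS_mul h4 h5)
          have h6 := hMadd c hc hc1 v w (by omega) i hi
          rw [h2] at h6
          rw [Pi.add_apply, Pi.add_apply, Pi.add_apply, hconj v i hi]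
          omega)
        rw [Finset.sum_singleton, Nat.choose_zero_right, one_smul, pow_zero, pow_zero,
          map_one, Module.End.one_apply, AlgEquiv.one_apply] at h1
        -- second part
        have h2 := leib_sub ρ c (dlt ρ h b) (ρ h b') u (QS dg R W (wN h + wM c u)) {(u, 0)} (by
          intro ij hij
          rw [Finset.mem_singleton] at hij
          rw [Finset.HasAntidiagonal.mem_antidiagonal, hij, add_zero]) (by
          rintro ⟨v, w⟩ hij
          rw [Finset.mem_sdiff, Finset.HasAntidiagonal.mem_antidiagonal, Finset.mem_singleton,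
            Prod.mk.injEq] at hij
          obtain ⟨h2, h3⟩ := hij
          have hw : 0 < w := by
            by_contra hcon
            exact h3 ⟨by omega, by omega⟩
          have hc1 : c ≠ 1 := fun h => by
            have := hcu h
            omega
          have h4 := ih v (by omega) (by omega) (fun h => absurd h hc1) h hh hh1 b hb
          have h5 := hA c hc w (by omega) (fun h => absurd h hc1) _
            (hpE c hc v _ (hHE h hh b' hb'))
          refine QS_mono hx (fun i hi => ?_) (QS_mul h4 h5)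
          have h6 := hMadd c hc hc1 v w (by omega) i hi
          rw [h2] at h6
          rw [Pi.add_apply, Pi.add_apply, Pi.add_apply]
          omega)
        rw [Finset.sum_singleton, Nat.choose_self, one_smul, pow_zero, Module.End.one_apply,
          ← rho_mul_apply] at h2
        have h3 : (((dlt ρ c) ^ u : Module.End k K) * dlt ρ h) (b * b') -
            b * (((dlt ρ c) ^ u : Module.End k K) * dlt ρ h) b' -
            ρ (c ^ u * h) b' * (((dlt ρ c) ^ u : Module.End k K) * dlt ρ h) b =
            (((dlt ρ c) ^ u : Module.End k K) (b * dlt ρ h b') -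
              b * ((dlt ρ c) ^ u : Module.End k K) (dlt ρ h b')) +
            (((dlt ρ c) ^ u : Module.End k K) (dlt ρ h b * ρ h b') -
              ((dlt ρ c) ^ u : Module.End k K) (dlt ρ h b) * ρ (c ^ u * h) b') := by
          rw [Module.End.mul_apply, Module.End.mul_apply, Module.End.mul_apply, dlt_mul, map_add]
          ring
        rw [h3]
        exact (QS dg R W (wN h + wM c u)).add_mem h1 h2
      · have h1 := hyc c hc h hh u hup hcu j
        rw [dl', if_neg hh1] at h1
        exact h1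
  intro c hc h hh u hup hcu b hb
  by_cases hh1 : h = 1
  · have h1 := hA c hc u hup hcu b hb
    rw [hh1, hN1, zero_add, dl', if_pos rfl, Module.End.one_apply]
    exact h1
  · have h1 := hB c hc u hup hcu h hh hh1 b hb
    rw [dl', if_neg hh1]
    exact h1

end

end Pool.Agent.Helper49.SQ
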