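import Pool.Agent.Helper49.SQ.Def
import Pool.Agent.Helper49.PQ.Loc7

/-!
# Systems for permuted families and the charts
-/

set_option autoImplicit false
set_option linter.unusedSectionVars false

namespace Pool.Agent.Helper49.SQ

open Finset Pool.Agent.W559.Mg Pool.Agent.Helper46.AQ Pool.Agent.Helper49.PQ Pointwise

/-- Products of an antitone function. -/
lemma prod_anti {Γ : Type} [LinearOrderedCommGroupWithZero Γ] (f : ℕ → Γ)
    (hf : ∀ i j, i ≤ j → f j ≤ f i) (T : Finset ℕ) : ∏ j ∈ T, f j ≤ ∏ j ∈ range T.card, f j := by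
  induction T using Finset.induction_on_max with
  | empty => simp
  | insert a s h ih =>
    have ha : a ∉ s := fun h1 => lt_irrefl _ (h a h1)
    rw [Finset.prod_insert ha, Finset.card_insert_of_notMem ha, Finset.prod_range_succ, mul_comm]
    refine mul_le_mul' ih (hf _ _ ?_)
    have h1 : s ⊆ range a := fun x hx => Finset.mem_range.2 (h x hx)
    have h2 := Finset.card_le_card h1
    rwa [Finset.card_range] at h2

section S

variable {k K : Type} [Field k] [Field K] [Algebra k K] [DecidableEq K] {G : Type} [Group G]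
  {ρ : G →* (K ≃ₐ[k] K)} {B : Subalgebra k K} {Z : Finset K} {Λ : Type} [Fintype Λ] [DecidableEq Λ]
  {Fl : Λ → Finset K}
  {ι : Type} [Fintype ι] [DecidableEq ι] {A B' : ι → Finset K} {Ex : ι → ι → Prop}
  {N : ℕ → ι → ℕ}

/-- Comparable vectors of value at most one are nonnegative in the relevant directions. -/
theorem cmpJ (hS : LSys ρ B Z Fl A B' Ex N) {d : ι → ℤ} (hd : Cmp Ex d) {Γ : Type}
    [LinearOrderedCommGroupWithZero Γ] {v : Valuation K Γ} (hv : Pos B Z v)
    (h : mz (al A B' v) d ≤ 1) (i : ι) (hi : al A B' v i < 1) : 0 ≤ d i := by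
  by_contra hcon
  push Not at hcon
  have h1 : ∀ j, al A B' v j < 1 → 0 ≤ (-d) j := by
    intro j hj
    rw [Pi.neg_apply]
    by_contra hcon'
    refine hd j i (fun hE => ?_) (by omega) hcon
    rcases hS.ex _ v hv j i hE with h2 | h2
    · exact hj.ne h2
    · exact hi.ne h2
  have h2 : mz (al A B' v) (-d) < 1 :=
    mz_lt_one' (hS.pc.le1 _ v hv) h1 (i := i) (by rw [Pi.neg_apply]; omega) hi
  rw [mz_neg, inv_lt_one₀ (zero_lt_iff.2 (mz_ne_zero (hS.pc.al_ne v) _))] at h2
  exact absurd h (not_le.2 h2)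

/-- The values of products of elements of different families. -/
lemma LSys.prod_le (hS : LSys ρ B Z Fl A B' Ex N) {Γ : Type} [LinearOrderedCommGroupWithZero Γ]
    {w : Valuation K Γ} (hw : Pos B Z w) (S : Finset Λ) (g : Λ → K) (hg : ∀ l ∈ S, g l ∈ Fl l) :
    w (∏ l ∈ S, g l) ≤ mz (al A B' w) (∑ j ∈ range S.card, vz (N j)) := by
  obtain ⟨ps, hps⟩ := hS.en Γ w hw
  rw [map_prod, mz_sum (hS.pc.al_ne w)]
  have hinj : Set.InjOn (fun l => ((ps l : Fin (Fintype.card Λ)) : ℕ)) S := by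
    intro a _ b _ hab
    exact ps.injective (Fin.ext hab)
  calc ∏ l ∈ S, w (g l) ≤ ∏ l ∈ S, mz (al A B' w) (vz (N (ps l))) :=
        Finset.prod_le_prod' fun l hl => by
          rw [← hps l]
          exact le_mx (hg l hl)
    _ = ∏ j ∈ S.image (fun l => ((ps l : Fin (Fintype.card Λ)) : ℕ)),
        mz (al A B' w) (vz (N j)) := by
        rw [Finset.prod_image fun x hx y hy hxy => hinj hx hy hxy]
    _ ≤ _ := by
        have h1 := prod_anti (fun j => mz (al A B' w) (vz (N j)))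
          (fun i j hij => mz_anti (hS.pc.al_ne w) (hS.pc.le1 _ w hw)
            fun l => hS.mono _ _ _ hij)
          (S.image (fun l => ((ps l : Fin (Fintype.card Λ)) : ℕ)))
        rw [Finset.card_image_of_injOn hinj] at h1
        exact h1

variable {L : Type} [AddCommGroup L] {dg : L ≃+ (ι → ℤ)} {D : Tp Z A B'}
  {F Γ : Type} [Field F] [Algebra (ML K L) F] [FaithfulSMul (ML K L) F]
  [LinearOrderedCommGroupWithZero Γ] {W : Valuation F Γ}

lemma LSys.mo_mem (hS : LSys ρ B Z Fl A B' Ex N) (S : Finset Λ) (g : Λ → K)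
    (hg : ∀ l ∈ S, g l ∈ Fl l) :
    (mo (dg.symm (∑ j ∈ range S.card, vz (N j))) (∏ l ∈ S, g l) : ML K L) ∈
      CC dg hS.pc D := by
  rw [mo_mem_CC]
  intro Γ _ w hw
  rw [AddEquiv.apply_symm_apply, nm_eq_mz]
  exact hS.prod_le hw.1 S g hg

/-- the families before a given one -/
lemma card_before (ps : Λ ≃ Fin (Fintype.card Λ)) (l : Λ) :
    (univ.filter fun l' => ps l' < ps l).card = (ps l : ℕ) := by
  have h1 : (univ.filter fun l' => ps l' < ps l) = (Finset.Iio (ps l)).map ps.symm.toEmbedding := by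
    ext x
    simp only [mem_filter, mem_univ, true_and, mem_map, mem_Iio, Equiv.coe_toEmbedding]
    constructor
    · intro h
      exact ⟨ps x, h, ps.symm_apply_apply x⟩
    · rintro ⟨y, hy, rfl⟩
      rwa [Equiv.apply_symm_apply]
  rw [h1, Finset.card_map, Fin.card_Iio]

lemma sum_before (ps : Λ ≃ Fin (Fintype.card Λ)) (l : Λ) (f : ℕ → ι → ℤ) :
    ∑ l' ∈ univ.filter (fun l' => ps l' < ps l), f (ps l') = ∑ j ∈ range (ps l : ℕ), f j := by
  refine Finset.sum_nbij' (fun l' => ((ps l' : Fin (Fintype.card Λ)) : ℕ))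
    (fun j => if hj : j < Fintype.card Λ then ps.symm ⟨j, hj⟩ else l) ?_ ?_ ?_ ?_ ?_
  · intro a ha
    rw [Finset.mem_range]
    exact (Finset.mem_filter.1 ha).2
  · intro j hj
    have hj' := Finset.mem_range.1 hj
    have hj2 : j < Fintype.card Λ := hj'.trans (ps l).isLt
    rw [dif_pos hj2, Finset.mem_filter, Equiv.apply_symm_apply]
    exact ⟨Finset.mem_univ _, hj'⟩
  · intro a _
    rw [dif_pos (ps a).isLt]
    exact ps.symm_apply_apply a
  · intro j hj
    have hj2 : j < Fintype.card Λ := (Finset.mem_range.1 hj).trans (ps l).isLt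
    rw [dif_pos hj2, Equiv.apply_symm_apply]
  · intro a _
    rfl

/-- The rescaled elements of the families are in the local ring of the chart. -/
theorem fl_mem_LW (hF : LF ρ B Z Fl) (hS : LSys ρ B Z Fl A B' Ex N) {Q : Ideal (CC dg hS.pc D)}
    (h : Cen dg hS.pc D Q W) (ps : Λ ≃ Fin (Fintype.card Λ))
    (hps : ∀ l, mx (vK k L W) (Fl l) = mz (al A B' (vK k L W)) (vz (N (ps l)))) (l : Λ) (a : K)
    (ha : a ∈ Fl l) : mo (dg.symm (vz (N (ps l)))) a ∈ LW (CC dg hS.pc D) W := by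
  classical
  have hex : ∀ l', ∃ a' ∈ Fl l', mx (vK k L W) (Fl l') = vK k L W a' := fun l' =>
    exists_mx (hF.ne l')
  choose g hg hgv using hex
  set S : Finset Λ := univ.filter fun l' => ps l' < ps l with hSdef
  have hcard : S.card = (ps l : ℕ) := card_before ps l
  have hlS : l ∉ S := by
    rw [hSdef, Finset.mem_filter]
    exact fun h1 => lt_irrefl _ h1.2
  refine ⟨dg.symm (∑ j ∈ range S.card, vz (N j)), ∏ l' ∈ S, g l', hS.mo_mem S g fun l' _ => hg l',
    ?_, ?_⟩
  · rw [h.mo, AddEquiv.apply_symm_apply, map_prod, mz_sum (hS.pc.al_ne _)]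
    have h1 : ∏ l' ∈ S, vK k L W (g l') = ∏ j ∈ range S.card, mz (al A B' (vK k L W)) (vz (N j)) := by
      have h2 : ∏ l' ∈ S, vK k L W (g l') =
          ∏ l' ∈ S, mz (al A B' (vK k L W)) (vz (N (ps l'))) :=
        Finset.prod_congr rfl fun l' _ => by rw [← hgv l', hps l']
      rw [h2, ← mz_sum (hS.pc.al_ne _), ← mz_sum (hS.pc.al_ne _), hcard,
        sum_before ps l fun j => vz (N j)]
    rw [h1, div_self]
    exact Finset.prod_ne_zero_iff.2 fun j _ => mz_ne_zero (hS.pc.al_ne _) _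
  · have h2 : (mo (dg.symm (∑ j ∈ range S.card, vz (N j))) (∏ l' ∈ S, g l') *
        mo (dg.symm (vz (N (ps l)))) a : ML K L) =
        mo (dg.symm (∑ j ∈ range (insert l S).card, vz (N j)))
          (∏ l' ∈ insert l S, Function.update g l a l') := by
      rw [mo_mul, ← map_add, Finset.card_insert_of_notMem hlS, Finset.sum_range_succ, hcard,
        Finset.prod_insert hlS, Function.update_self]
      congr 1
      rw [mul_comm]
      congr 1
      refine Finset.prod_congr rfl fun l' hl' => ?_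
      rw [Function.update_of_ne]
      rintro rfl
      exact hlS hl'
    rw [h2]
    refine hS.mo_mem (insert l S) _ fun l' _ => ?_
    by_cases hl : l' = l
    · subst hl
      rw [Function.update_self]
      exact ha
    · rw [Function.update_of_ne hl]
      exact hg l'

/-- The values of a valuation which is bounded on the local model. -/
lemma LSys.model_val (hF : LF ρ B Z Fl) (hS : LSys ρ B Z Fl A B' Ex N)
    {Γ₀ : Type} [LinearOrderedCommGroupWithZero Γ₀]
    {v : Valuation K Γ₀} (hv : Pos B Z v) (ps : Λ ≃ Fin (Fintype.card Λ))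
    (R : Subalgebra k (ML K L)) (hBR : ∀ b ∈ B, mo 0 b ∈ R) (hZR : ∃ z ∈ Z, mo 0 z⁻¹ ∈ R)
    (hx : ∀ i, xz K dg (Pi.single i 1) ∈ R)
    (hxi : ∀ i, ¬ al A B' v i < 1 → xz K dg (Pi.single i (-1)) ∈ R)
    (hfl : ∀ l, ∀ a ∈ Fl l, mo (dg.symm (vz (N (ps l)))) a ∈ R)
    (hfi : ∀ l, ∃ a ∈ Fl l, mo (-(dg.symm (vz (N (ps l))))) a⁻¹ ∈ R)
    (hW : ∀ r ∈ R, W (algebraMap (ML K L) F r) ≤ 1) :
    Pos B Z (vK k L W) ∧ om (K := K) dg W = al A B' (vK k L W) := by
  have hω1 : ∀ i, om (K := K) dg W i ≤ 1 := fun i => hW _ (hx i)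
  have hω : ∀ i, ¬ al A B' v i < 1 → om (K := K) dg W i = 1 := by
    intro i hi
    refine le_antisymm (hω1 i) ?_
    have h1 := hW _ (hxi i hi)
    have h2 : om (K := K) dg W i * W (algebraMap (ML K L) F (xz K dg (Pi.single i (-1)))) = 1 := by
      unfold om
      rw [← map_mul, ← map_mul, Pi.single_neg, xz_inv, map_one, map_one]
    calc (1 : Γ) = om (K := K) dg W i * W (algebraMap (ML K L) F (xz K dg (Pi.single i (-1)))) :=
          h2.symm
      _ ≤ om (K := K) dg W i * 1 := mul_le_mul_right h1 _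
      _ = _ := mul_one _
  have hpos : Pos B Z (vK k L W) := by
    have h1 : ∀ b ∈ B, vK k L W b ≤ 1 := fun b hb => by
      rw [vK_apply]
      exact hW _ (hBR b hb)
    refine ⟨h1, le_antisymm (mx_le fun a ha => h1 a (hF.fZ.mem a ha)) ?_⟩
    obtain ⟨z, hz, hzR⟩ := hZR
    have h2 := hW _ hzR
    have hz0 : vK k L W z ≠ 0 := (Valuation.ne_zero_iff _).2 (hF.fZ.n0 z hz)
    rw [← vK_apply (k := k), map_inv₀, inv_le_one₀ (zero_lt_iff.2 hz0)] at h2
    exact h2.trans (le_mx hz)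
  refine ⟨hpos, hS.un _ _ hpos _ om_ne hω1 (fun i j hij => ?_) ps fun l => ?_⟩
  · rcases hS.ex _ v hv i j hij with h1 | h1
    · exact Or.inl (hω i (by rw [h1]; exact lt_irrefl _))
    · exact Or.inr (hω j (by rw [h1]; exact lt_irrefl _))
  · have hz0 : mz (om (K := K) dg W) (vz (N (ps l))) ≠ 0 := mz_ne_zero om_ne _
    apply le_antisymm
    · refine mx_le fun a ha => ?_
      have h1 := hW _ (hfl l a ha)
      rwa [val_mo (k := k) (dg := dg), AddEquiv.apply_symm_apply,
        div_le_one₀ (zero_lt_iff.2 hz0)] at h1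
    · obtain ⟨a, ha, h1⟩ := hfi l
      have h2 := hW _ h1
      have ha0 : vK k L W a ≠ 0 := (Valuation.ne_zero_iff _).2 (hF.n0 l a ha)
      rw [val_mo (k := k) (dg := dg), map_neg, AddEquiv.apply_symm_apply, mz_neg, map_inv₀,
        div_inv_eq_mul, mul_comm, ← div_eq_mul_inv, div_le_one₀ (zero_lt_iff.2 ha0)] at h2
      exact h2.trans (le_mx ha)

/-- The rescaled functions are in the model and the chart is in the localization. -/
theorem model_le [IsDomain (ML K L)] (hF : LF ρ B Z Fl) (hS : LSys ρ B Z Fl A B' Ex N)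
    {c : Option (ι ⊕ ι) → ι → ℤ} (hc : LA B Z A B' c) {Γ₀ : Type} [LinearOrderedCommGroupWithZero Γ₀]
    {v : Valuation K Γ₀} (hv : Pos B Z v) (ps : Λ ≃ Fin (Fintype.card Λ))
    (R : Subalgebra k (ML K L)) (hIC : IC R) (hBR : ∀ b ∈ B, mo 0 b ∈ R)
    (hZR : ∃ z ∈ Z, mo 0 z⁻¹ ∈ R)
    (hx : ∀ i, xz K dg (Pi.single i 1) ∈ R)
    (hxi : ∀ i, ¬ al A B' v i < 1 → xz K dg (Pi.single i (-1)) ∈ R)
    (hfl : ∀ l, ∀ a ∈ Fl l, mo (dg.symm (vz (N (ps l)))) a ∈ R)
    (hfi : ∀ l, ∃ a ∈ Fl l, mo (-(dg.symm (vz (N (ps l))))) a⁻¹ ∈ R) :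
    ∃ hm : (∏ j, hz dg c D j) ∈ R, CC dg hS.pc D ≤ lc R (∏ j, hz dg c D j) hm := by
  let F := FractionRing (ML K L)
  have hmv : ∀ (V : ValuationSubring F), (∀ r ∈ R, algebraMap (ML K L) F r ∈ V) →
      Pos B Z (vK k L V.valuation) ∧
        om (K := K) dg V.valuation = al A B' (vK k L V.valuation) := fun V hV =>
    hS.model_val hF hv ps R hBR hZR hx hxi hfl hfi
      (fun r hr => (V.valuation_le_one_iff _).2 (hV r hr))
  have hval : ∀ (V : ValuationSubring F), (∀ r ∈ R, algebraMap (ML K L) F r ∈ V) → ∀ j,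
      V.valuation (algebraMap (ML K L) F (hz dg c D j)) =
        vK k L V.valuation (hh D j) / mx (vK k L V.valuation) (fm Z A B' j) ^ EE Z A B' := by
    intro V hV j
    obtain ⟨h1, h2⟩ := hmv V hV
    unfold hz
    rw [val_mo (k := k) (dg := dg), AddEquiv.apply_symm_apply, mz_nsmul, h2, hc _ _ h1 j]
  have hle : ∀ (V : ValuationSubring F), (∀ r ∈ R, algebraMap (ML K L) F r ∈ V) → ∀ j,
      V.valuation (algebraMap (ML K L) F (hz dg c D j)) ≤ 1 := by
    intro V hV j
    rw [hval V hV j]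
    have h3 : mx (vK k L V.valuation) (fm Z A B' j) ^ EE Z A B' ≠ 0 := pow_ne_zero _ (hS.pc.mx_ne _ j)
    rw [div_le_one₀ (zero_lt_iff.2 h3)]
    exact hh_le D j
  have hm : ∀ j, hz dg c D j ∈ R := fun j => hIC.of_val F _ fun V hV =>
    (V.valuation_le_one_iff _).1 (hle V hV j)
  have hm' : (∏ j, hz dg c D j) ∈ R := R.prod_mem fun j _ => hm j
  have hprod : (∏ j, hz dg c D j) * ∏ j, hzi dg c D j = 1 := by
    rw [← Finset.prod_mul_distrib]
    exact Finset.prod_eq_one fun j _ => hz_mul_hzi c D j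
  have hunit : IsUnit (∏ j, hz dg c D j) := IsUnit.of_mul_eq_one _ hprod
  refine ⟨hm', fun f hf => (hIC.lc hm' hunit).of_val F _ fun V hV => ?_⟩
  have hVR : ∀ r ∈ R, algebraMap (ML K L) F r ∈ V := fun r hr => hV r (le_lc _ _ _ hr)
  obtain ⟨h1, h2⟩ := hmv V hVR
  have h3 : ∏ j, V.valuation (algebraMap (ML K L) F (hz dg c D j)) = 1 := by
    rw [← map_prod, ← map_prod]
    have h4 : V.valuation (algebraMap (ML K L) F (∏ j, hz dg c D j)) *
        V.valuation (algebraMap (ML K L) F (∏ j, hzi dg c D j)) = 1 := by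
      rw [← map_mul, ← map_mul, hprod, map_one, map_one]
    have h5 := (V.valuation_le_one_iff _).2 (hV _ (le_lc _ _ _ hm'))
    have h6 := (V.valuation_le_one_iff _).2 (hV _ (inv_mem_lc R _ _ hm' hprod))
    refine le_antisymm h5 ?_
    calc (1 : V.ValueGroup) = _ := h4.symm
      _ ≤ V.valuation (algebraMap (ML K L) F (∏ j, hz dg c D j)) * 1 := mul_le_mul_right h6 _
      _ = _ := mul_one _
  have h4 := all_one_of_prod (hle V hVR) h3
  have hVd : Vd B (vK k L V.valuation) D := by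
    refine ⟨h1, fun j => ?_⟩
    have h5 := h4 j
    rw [hval V hVR j, div_eq_one_iff_eq (pow_ne_zero _ (hS.pc.mx_ne _ j))] at h5
    exact h5
  rw [← V.valuation_le_one_iff]
  refine val_sum_le fun m => ?_
  rw [val_mo (k := k) (dg := dg), div_le_one₀ (zero_lt_iff.2 (mz_ne_zero om_ne _)), h2]
  exact hf _ _ hVd m

end S

end Pool.Agent.Helper49.SQ
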