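import Pool.Agent.Helper49.SQ.Def

/-!
# The families of the iterated differences: definitions
-/

set_option autoImplicit false
set_option linter.unusedSectionVars false

namespace Pool.Agent.Helper49.SQ

open Finset Pool.Agent.W559.Mg Pool.Agent.Helper46.AQ Pool.Agent.Helper49.PQ Pointwise

variable {k K : Type} [Field k] [Field K] [Algebra k K] [DecidableEq K] {G : Type} [Group G]
  [Fintype G] [DecidableEq G]

/-- The basic hypotheses. -/
structure SB (ρ : G →* (K ≃ₐ[k] K)) (B : Subalgebra k K) (Z : Finset K) : Prop where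
  inj : ∀ g, ρ g = 1 → g = 1
  fam : Fam ρ B Z
  gen : B = Algebra.adjoin k (Z : Set K)
  fr : ∀ x : K, ∃ a ∈ B, ∃ b ∈ B, b ≠ 0 ∧ x = a / b

/-- The generators (for `h = 1`) and the nonzero differences `h z - z` of generators. -/
noncomputable def FF (ρ : G →* (K ≃ₐ[k] K)) (Z : Finset K) (h : G) : Finset K :=
  if h = 1 then Z else (Z.image (dlt ρ h)).erase 0

/-- The iterated differences of order `a` relative to the families `FF`, with the common
denominator `∏ FF ^ a`. -/
noncomputable def bb (ρ : G →* (K ≃ₐ[k] K)) (Z : Finset K) (c : G) (a : ℕ) : Finset K :=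
  Finset.univ.biUnion fun h : G =>
    ((FF ρ Z h).image ((dlt ρ c) ^ a : Module.End k K)).erase 0 *
      (∏ h' ∈ Finset.univ.erase h, FF ρ Z h') * (∏ h', FF ρ Z h') ^ (a - 1)

/-- The products of iterated differences of total order `u`, with the common denominator
`∏ FF ^ u`. -/
noncomputable def nn (ρ : G →* (K ≃ₐ[k] K)) (Z : Finset K) (c : G) : ℕ → Finset K
  | 0 => {1}
  | u + 1 => Finset.univ.biUnion fun a : Fin (u + 1) => bb ρ Z c (a + 1) * nn ρ Z c (u - a)

/-- The index set of the families. -/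
abbrev Lam (G : Type) [Group G] (p : ℕ) : Type := G ⊕ ({c : G // c ≠ 1} × Fin (p - 1))

/-- The families. -/
noncomputable def Fl (ρ : G →* (K ≃ₐ[k] K)) (Z : Finset K) (p : ℕ) : Lam G p → Finset K
  | Sum.inl h => FF ρ Z h
  | Sum.inr (c, u) => nn ρ Z c.1 (u + 1)

/-- The degrees of the families. -/
def dgr (G : Type) [Group G] [Fintype G] (p : ℕ) : Lam G p → ℕ
  | Sum.inl _ => 1
  | Sum.inr (_, u) => (u + 1) * Fintype.card G

/-- The families, multiplied by powers of `Z` such that they have the same degree. -/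
noncomputable def Fp (ρ : G →* (K ≃ₐ[k] K)) (Z : Finset K) (p : ℕ) (l : Lam G p) : Finset K :=
  Fl ρ Z p l * Z ^ (1 + p * Fintype.card G - dgr G p l)

variable {Γ : Type} [LinearOrderedCommGroupWithZero Γ]

/-- The norm of the differences of the generators. -/
noncomputable def dv (ρ : G →* (K ≃ₐ[k] K)) (Z : Finset K) (v : Valuation K Γ) (h : G) : Γ :=
  mx v (FF ρ Z h)

/-- The common denominator. -/
noncomputable def DV (ρ : G →* (K ≃ₐ[k] K)) (Z : Finset K) (v : Valuation K Γ) : Γ :=
  ∏ h : G, dv ρ Z v h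

/-- The norm of the differences of order `u` (relative to `dv`). -/
noncomputable def nv (ρ : G →* (K ≃ₐ[k] K)) (Z : Finset K) (v : Valuation K Γ) (c : G) (u : ℕ) :
    Γ := mx v (nn ρ Z c u) / DV ρ Z v ^ u

/-- The group element lowers the norms of all families strictly. -/
def Rel (ρ : G →* (K ≃ₐ[k] K)) (Z : Finset K) (v : Valuation K Γ) (c : G) : Prop :=
  ∀ h, ∀ i ∈ FF ρ Z h, v (dlt ρ c i) < dv ρ Z v h

/-- The identity for `h = 1` and the difference operator otherwise. -/
noncomputable def dl' (ρ : G →* (K ≃ₐ[k] K)) (h : G) : Module.End k K :=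
  if h = 1 then 1 else dlt ρ h

section TB

variable {k K L : Type} [Field k] [Field K] [Algebra k K] [Field L] [Algebra k L] {n : ℕ}

/-- The subalgebra generated by the images of a subalgebra. -/
def TB (e : Fin n → K →ₐ[k] L) (A : Subalgebra k K) : Subalgebra k L := ⨆ i, A.map (e i)

end TB

/-- Near every prime ideal of `B` which does not contain `Z` there are etale coordinates in `Z`
whose span is stable under the inertia group. -/
def LLZ {k K : Type} [Field k] [Field K] [Algebra k K] {G : Type} [Group G]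
    (ρ : G →* (K ≃ₐ[k] K)) (B : Subalgebra k K) (Z : Finset K) : Prop :=
  ∀ q : Ideal B, q.IsPrime → (∃ (z : K) (hz : z ∈ B), z ∈ Z ∧ (⟨z, hz⟩ : B) ∉ q) →
    ∃ (f : K) (hf : f ∈ B), (⟨f, hf⟩ : B) ∉ q ∧
    ∃ (n : ℕ) (x : Fin n → lc B f hf),
      ((MvPolynomial.aeval x : MvPolynomial (Fin n) k →ₐ[k] lc B f hf).toRingHom).Etale ∧
      (∀ j, (x j : K) ∈ Z) ∧
      ∀ h : G, (∀ c, c ∈ B → ∀ hc : ρ h c - c ∈ B, (⟨ρ h c - c, hc⟩ : B) ∈ q) →
        ρ h f = f ∧ ∀ j, ρ h (x j : K) ∈ Submodule.span k (Set.range fun j => (x j : K))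

end Pool.Agent.Helper49.SQ
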