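import Mathlib

/-!
# Etale coordinates: independence and linear changes
-/

set_option autoImplicit false
set_option linter.unusedSectionVars false

namespace Pool.Agent.Helper49.SQ

section et

variable {k K : Type} [Field k] [Field K] [Algebra k K]

/-- Etale coordinates are algebraically independent. -/
theorem etale_inj (E : Subalgebra k K) {n : ℕ} (y : Fin n → E)
    (hy : ((MvPolynomial.aeval y : MvPolynomial (Fin n) k →ₐ[k] E).toRingHom).Etale) :
    Function.Injective (MvPolynomial.aeval y : MvPolynomial (Fin n) k →ₐ[k] E) := by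
  let _ : Algebra (MvPolynomial (Fin n) k) E :=
    (MvPolynomial.aeval y : MvPolynomial (Fin n) k →ₐ[k] E).toRingHom.toAlgebra
  have het : Algebra.Etale (MvPolynomial (Fin n) k) E := hy
  have hfl : Module.Flat (MvPolynomial (Fin n) k) E := inferInstance
  rw [injective_iff_map_eq_zero]
  intro f hf
  by_contra h0
  have h1 : IsSMulRegular (MvPolynomial (Fin n) k) f := fun a b hab => mul_left_cancel₀ h0 hab
  have h2 : IsSMulRegular E f := IsSMulRegular.of_flat h1
  have h3 : f • (1 : E) = f • (0 : E) := by
    rw [smul_zero, Algebra.smul_def, mul_one]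
    exact hf
  exact one_ne_zero (h2 h3)

/-- Etale coordinates are linearly independent. -/
theorem etale_linInd (E : Subalgebra k K) {n : ℕ} (y : Fin n → E)
    (hy : ((MvPolynomial.aeval y : MvPolynomial (Fin n) k →ₐ[k] E).toRingHom).Etale) :
    LinearIndependent k fun j => (y j : K) := by
  have h1 : AlgebraicIndependent k y := etale_inj E y hy
  have h2 := h1.linearIndependent
  exact h2.map' E.val.toLinearMap (LinearMap.ker_eq_bot.2 Subtype.val_injective)

/-- Change of etale coordinates by an invertible linear substitution. -/
theorem etale_change (E : Subalgebra k K) {n : ℕ} (y β : Fin n → E)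
    (hy : ((MvPolynomial.aeval y : MvPolynomial (Fin n) k →ₐ[k] E).toRingHom).Etale)
    (hβ : LinearIndependent k fun j => (β j : K))
    (hs : Submodule.span k (Set.range fun j => (β j : K)) =
      Submodule.span k (Set.range fun j => (y j : K))) :
    ((MvPolynomial.aeval β : MvPolynomial (Fin n) k →ₐ[k] E).toRingHom).Etale := by
  have hyl := etale_linInd E y hy
  have hc : ∀ j, ∃ c : Fin n → k, ∑ l, c l • (y l : K) = β j := by
    intro j
    have h1 : (β j : K) ∈ Submodule.span k (Set.range fun j => (y j : K)) := by
      rw [← hs]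
      exact Submodule.subset_span ⟨j, rfl⟩
    exact (Submodule.mem_span_range_iff_exists_fun k).1 h1
  have hd : ∀ l, ∃ d : Fin n → k, ∑ j, d j • (β j : K) = y l := by
    intro l
    have h1 : (y l : K) ∈ Submodule.span k (Set.range fun j => (β j : K)) := by
      rw [hs]
      exact Submodule.subset_span ⟨l, rfl⟩
    exact (Submodule.mem_span_range_iff_exists_fun k).1 h1
  choose c hc using hc
  choose d hd using hd
  -- the matrices are inverse to each other
  have hcd : ∀ (u w : Fin n → K) (hu : LinearIndependent k u) (c d : Fin n → Fin n → k)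
      (h1 : ∀ j, ∑ l, c j l • w l = u j) (h2 : ∀ l, ∑ j, d l j • u j = w l) (j i : Fin n),
      ∑ l, c j l * d l i = if i = j then 1 else 0 := by
    intro u w hu c d h1 h2 j i
    have h3 : ∑ i, ((∑ l, c j l * d l i) - if i = j then 1 else 0) • u i = 0 := by
      simp only [sub_smul, Finset.sum_sub_distrib, ite_smul, one_smul, zero_smul,
        Finset.sum_ite_eq', Finset.mem_univ, if_true]
      rw [sub_eq_zero]
      simp only [Finset.sum_smul]
      rw [Finset.sum_comm]
      rw [← h1 j]
      refine Finset.sum_congr rfl fun l _ => ?_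
      rw [← h2 l, Finset.smul_sum]
      refine Finset.sum_congr rfl fun i _ => ?_
      rw [mul_smul]
    exact sub_eq_zero.1 (Fintype.linearIndependent_iff.1 hu _ h3 i)
  let f : MvPolynomial (Fin n) k →ₐ[k] MvPolynomial (Fin n) k :=
    MvPolynomial.aeval fun j => ∑ l, c j l • MvPolynomial.X l
  let g : MvPolynomial (Fin n) k →ₐ[k] MvPolynomial (Fin n) k :=
    MvPolynomial.aeval fun l => ∑ j, d l j • MvPolynomial.X j
  have hgf : g.comp f = AlgHom.id k _ := by
    apply MvPolynomial.algHom_ext
    intro j
    rw [AlgHom.comp_apply, AlgHom.id_apply]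
    simp only [f, g, MvPolynomial.aeval_X, map_sum, map_smul]
    calc ∑ l, c j l • ∑ i, d l i • (MvPolynomial.X i : MvPolynomial (Fin n) k)
        = ∑ i, (∑ l, c j l * d l i) • MvPolynomial.X i := by
          simp only [Finset.smul_sum, smul_smul, Finset.sum_smul]
          rw [Finset.sum_comm]
      _ = MvPolynomial.X j := by
          simp only [hcd _ _ hβ c d hc hd, ite_smul, one_smul, zero_smul, Finset.sum_ite_eq',
            Finset.mem_univ, if_true]
  have hfg : f.comp g = AlgHom.id k _ := by
    apply MvPolynomial.algHom_ext
    intro l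
    rw [AlgHom.comp_apply, AlgHom.id_apply]
    simp only [f, g, MvPolynomial.aeval_X, map_sum, map_smul]
    calc ∑ j, d l j • ∑ i, c j i • (MvPolynomial.X i : MvPolynomial (Fin n) k)
        = ∑ i, (∑ j, d l j * c j i) • MvPolynomial.X i := by
          simp only [Finset.smul_sum, smul_smul, Finset.sum_smul]
          rw [Finset.sum_comm]
      _ = MvPolynomial.X l := by
          simp only [hcd _ _ hyl d c hd hc, ite_smul, one_smul, zero_smul, Finset.sum_ite_eq',
            Finset.mem_univ, if_true]
  have hbij : Function.Bijective f := by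
    refine ⟨?_, ?_⟩
    · exact Function.LeftInverse.injective (g := g) fun x => DFunLike.congr_fun hgf x
    · exact Function.RightInverse.surjective (g := g) fun x => DFunLike.congr_fun hfg x
  have hβy : (MvPolynomial.aeval β : MvPolynomial (Fin n) k →ₐ[k] E) =
      (MvPolynomial.aeval y : MvPolynomial (Fin n) k →ₐ[k] E).comp f := by
    apply MvPolynomial.algHom_ext
    intro j
    rw [AlgHom.comp_apply, MvPolynomial.aeval_X]
    simp only [f, MvPolynomial.aeval_X, map_sum, map_smul]
    apply Subtype.ext
    rw [← hc j]
    push_cast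
    rfl
  rw [hβy]
  exact RingHom.Etale.stableUnderComposition f.toRingHom _ (RingHom.Etale.of_bijective hbij) hy

end et

end Pool.Agent.Helper49.SQ
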