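import Pool.Agent.Helper49.SQ.Fam
import Pool.Agent.Helper49.SQ.PTL

/-!
# Etale coordinates on the power of a smooth variety which are permuted by the inertia group

Adapted from the library modules `Pool/Graph/R_seed8/H920R2/Cy4`, `Cy5` and
`Pool/Graph/R_seed8/W930/ET/Perm`.
-/

set_option autoImplicit false
set_option linter.unusedSectionVars false
set_option linter.unusedVariables false

open MvPolynomial TensorProduct

namespace Pool.Agent.Helper49.SQ

open Pool.Agent.W559.Mg Pool.Agent.Helper49.SQ.PTL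

section tt

variable {k K L : Type} [Field k] [Field K] [Algebra k K] [Field L] [Algebra k L] {n : ℕ}
  (e : Fin n → K →ₐ[k] L)

/-- The subalgebra generated by the images of a family of subalgebras. -/
def TTF (A : Fin n → Subalgebra k K) : Subalgebra k L := ⨆ i, (A i).map (e i)

lemma e_mem_TTF (A : Fin n → Subalgebra k K) (i : Fin n) {x : K} (hx : x ∈ A i) :
    e i x ∈ TTF e A :=
  (le_iSup (fun i => (A i).map (e i)) i) ⟨x, hx, rfl⟩

lemma TTF_le (A : Fin n → Subalgebra k K) (S : Subalgebra k L) (h : ∀ i, ∀ x ∈ A i, e i x ∈ S) :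
    TTF e A ≤ S := by
  unfold TTF
  rw [iSup_le_iff]
  rintro i _ ⟨x, hx, rfl⟩
  exact h i x hx

lemma TTF_mono {A A' : Fin n → Subalgebra k K} (h : ∀ i, A i ≤ A' i) : TTF e A ≤ TTF e A' :=
  TTF_le e A _ fun i _ hx => e_mem_TTF e A' i (h i hx)

/-- The inclusion of a factor. -/
def TTFj (A : Fin n → Subalgebra k K) (i : Fin n) : A i →ₐ[k] TTF e A :=
  ((e i).comp (A i).val).codRestrict (TTF e A) fun x => e_mem_TTF e A i x.2

variable {g : (⨂[k] _ : Fin n, K) →ₐ[k] L}
  (hg : ∀ i x, g (PiTensorProduct.singleAlgHom (R := k) (A := fun _ : Fin n => K) i x) = e i x)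
  (hginj : Function.Injective g)

include hg hginj in
lemma isCoprod_TTF (A : Fin n → Subalgebra k K) : IsCoprod k (TTFj e A) := by
  classical
  obtain ⟨φ, hφi, hφ⟩ := exists_pi_incl A
  let G : (⨂[k] i, A i) →ₐ[k] L := g.comp φ
  have hG : Function.Injective G := hginj.comp hφi
  have hGs : ∀ i (x : A i), G (PiTensorProduct.singleAlgHom (R := k) (A := fun i => A i) i x) =
      e i (x : K) := by
    intro i x
    change g (φ _) = _
    rw [hφ, hg]
  have hj := isCoprod_pi (k := k) (A := fun i => A i)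
  have hr : G.range = TTF e A := by
    apply le_antisymm
    · rintro _ ⟨z, rfl⟩
      have h1 : z ∈ Algebra.adjoin k (⋃ i, Set.range
          (PiTensorProduct.singleAlgHom (R := k) (A := fun i => A i) i)) := by
        rw [coprod_adjoin hj]; trivial
      change G z ∈ _
      induction h1 using Algebra.adjoin_induction with
      | mem x hx =>
        obtain ⟨i, a, rfl⟩ := Set.mem_iUnion.1 hx
        rw [hGs]
        exact e_mem_TTF e A i a.2
      | algebraMap r => rw [AlgHom.commutes]; exact Subalgebra.algebraMap_mem _ r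
      | add x y _ _ hx hy => rw [map_add]; exact Subalgebra.add_mem _ hx hy
      | mul x y _ _ hx hy => rw [map_mul]; exact Subalgebra.mul_mem _ hx hy
    · refine TTF_le e A _ fun i x hx => ?_
      exact ⟨_, hGs i ⟨x, hx⟩⟩
  let E : (⨂[k] i, A i) ≃ₐ[k] TTF e A :=
    (AlgEquiv.ofInjective G hG).trans (Subalgebra.equivOfEq _ _ hr)
  refine isCoprod_congr hj E ?_
  intro i a
  apply Subtype.ext
  exact (hGs i a).symm

/-- Localization of the products. -/
lemma lc_TTF (A : Fin n → Subalgebra k K) (f : Fin n → K) (hf : ∀ i, f i ∈ A i)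
    (hf0 : ∀ i, f i ≠ 0) (hF : ∏ i, e i (f i) ∈ TTF e A) :
    lc (TTF e A) (∏ i, e i (f i)) hF = TTF e fun i => lc (A i) (f i) (hf i) := by
  apply le_antisymm
  · rintro y ⟨m, hm⟩
    have h1 := TTF_mono e (fun i => le_lc (A i) (f i) (hf i)) hm
    have h2 : ∏ i, e i (f i)⁻¹ ∈ TTF e fun i => lc (A i) (f i) (hf i) :=
      Subalgebra.prod_mem _ fun i _ => e_mem_TTF e (fun i => lc (A i) (f i) (hf i)) i
        (inv_mem_lc (A i) (f i) _ (hf i) (mul_inv_cancel₀ (hf0 i)))
    have h3 : y = (∏ i, e i (f i)⁻¹) ^ m * ((∏ i, e i (f i)) ^ m * y) := by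
      rw [← mul_assoc, ← mul_pow, ← Finset.prod_mul_distrib]
      have h4 : ∀ i, e i (f i)⁻¹ * e i (f i) = 1 := fun i => by
        rw [← map_mul, inv_mul_cancel₀ (hf0 i), map_one]
      rw [Finset.prod_congr rfl fun i _ => h4 i, Finset.prod_const_one, one_pow, one_mul]
    rw [h3]
    exact Subalgebra.mul_mem _ (Subalgebra.pow_mem _ h2 _) h1
  · refine TTF_le e _ _ ?_
    rintro i y ⟨m, hm⟩
    refine ⟨m, ?_⟩
    rw [← Finset.mul_prod_erase _ _ (Finset.mem_univ i), mul_pow]
    have h1 : e i (f i) ^ m * (∏ l ∈ Finset.univ.erase i, e l (f l)) ^ m * e i y =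
        e i (f i ^ m * y) * (∏ l ∈ Finset.univ.erase i, e l (f l)) ^ m := by
      rw [map_mul, map_pow]
      ring
    rw [h1]
    exact Subalgebra.mul_mem _ (e_mem_TTF e A i hm) (Subalgebra.pow_mem _
      (Subalgebra.prod_mem _ fun l _ => e_mem_TTF e A l (hf l)) _)

/-- The localization of an algebra of finite type is of finite type. -/
lemma finiteType_lc (C : Subalgebra k K) (hft : Algebra.FiniteType k C) (f : K) (hf : f ∈ C)
    (hf0 : f ≠ 0) : Algebra.FiniteType k (lc C f hf) := by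
  let _ : Algebra C (lc C f hf) := (Subalgebra.inclusion (le_lc C f hf)).toRingHom.toAlgebra
  have _ : IsScalarTower k C (lc C f hf) := IsScalarTower.of_algebraMap_eq fun r => rfl
  have h0 : IsLocalization.Away (⟨f, hf⟩ : C) (lc C f hf) := isLoc_lc C hf (Ne.isUnit hf0)
  have h1 : Algebra.FiniteType C (lc C f hf) :=
    IsLocalization.finiteType_of_monoid_fg (Submonoid.powers (⟨f, hf⟩ : C)) _
  exact Algebra.FiniteType.trans hft h1

end tt

/-- The statement of package K. -/
def EtaleGenStm : Prop := ∀ (k K : Type) [Field k] [Field K] [Algebra k K] (A : Subalgebra k K)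
    (_ : Algebra.Smooth k A) (Z : Finset K) (_ : A = Algebra.adjoin k (Z : Set K)) (P : Ideal A)
    (_ : P.IsPrime), ∃ (f : K) (hf : f ∈ A), (⟨f, hf⟩ : A) ∉ P ∧
      ∃ (m : ℕ) (x : Fin m → lc A f hf),
        ((MvPolynomial.aeval x : MvPolynomial (Fin m) k →ₐ[k] lc A f hf).toRingHom).Etale ∧
        ∀ j, (x j : K) ∈ Z

/-- Etale coordinates on the power of a smooth variety which are permuted by the inertia group
(from the statement of package K). -/
theorem perm_etale_of (hK : EtaleGenStm) {k K L : Type} [Field k] [Field K] [Algebra k K]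
    [Field L] [Algebra k L]
    (n : ℕ) (e : Fin n → K →ₐ[k] L) (g : (⨂[k] _ : Fin n, K) →ₐ[k] L)
    (hg : ∀ i x, g (PiTensorProduct.singleAlgHom (R := k) (A := fun _ : Fin n => K) i x) = e i x)
    (hginj : Function.Injective g) (A : Subalgebra k K) (hsm : Algebra.Smooth k A)
    (Z : Finset K) (hZ : A = Algebra.adjoin k (Z : Set K))
    (q : Ideal (TB e A)) (hq : q.IsPrime) :
    ∃ (f : L) (hf : f ∈ TB e A),
      (⟨f, hf⟩ : TB e A) ∉ q ∧
      ∃ (m : ℕ) (x : Fin m → lc (TB e A) f hf),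
        ((MvPolynomial.aeval x : MvPolynomial (Fin m) k →ₐ[k]
          lc (TB e A) f hf).toRingHom).Etale ∧
        (∀ j, ∃ i, ∃ z ∈ Z, (x j : L) = e i z) ∧
        ∀ (τ : L →ₐ[k] L) (π : Equiv.Perm (Fin n)), (∀ i x, τ (e i x) = e (π i) x) →
          (∀ c, c ∈ TB e A →
            ∀ h : τ c - c ∈ TB e A,
              (⟨τ c - c, h⟩ : TB e A) ∈ q) →
          τ f = f ∧ ∀ j, τ (x j : L) ∈ Submodule.span k (Set.range fun j => (x j : L)) := by
  classical
  change Ideal (TTF e fun _ => A) at q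
  -- the components of the point
  let P : Fin n → Ideal A := fun i => q.comap (TTFj e (fun _ => A) i)
  have hPp : ∀ i, (P i).IsPrime := fun i => hq.comap _
  have hch : ∀ P : Ideal A, ∃ (f : K) (hf : f ∈ A) (m : ℕ) (x : Fin m → lc A f hf),
      P.IsPrime → (⟨f, hf⟩ : A) ∉ P ∧
        ((aeval x : MvPolynomial (Fin m) k →ₐ[k] lc A f hf).toRingHom).Etale ∧
        ∀ j, (x j : K) ∈ Z := by
    intro P
    by_cases hP : P.IsPrime
    · obtain ⟨f, hf, h1, m, x, h2, h3⟩ := hK k K A hsm Z hZ P hP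
      exact ⟨f, hf, m, x, fun _ => ⟨h1, h2, h3⟩⟩
    · exact ⟨1, A.one_mem, 0, Fin.elim0, fun h => absurd h hP⟩
  choose f hf m x hx using hch
  let f' : Fin n → K := fun i => f (P i)
  have hf' : ∀ i, f' i ∈ A := fun i => hf (P i)
  have hf'q : ∀ i, TTFj e (fun _ => A) i ⟨f' i, hf' i⟩ ∉ q := fun i => (hx (P i) (hPp i)).1
  have hf'0 : ∀ i, f' i ≠ 0 := by
    intro i h
    apply hf'q i
    have h1 : (⟨f' i, hf' i⟩ : A) = 0 := Subtype.ext h
    rw [h1, map_zero]
    exact q.zero_mem
  have hF : ∏ i, e i (f' i) ∈ TTF e fun _ => A :=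
    Subalgebra.prod_mem _ fun i _ => e_mem_TTF e (fun _ => A) i (hf' i)
  let B := TTF e fun i => lc A (f' i) (hf' i)
  have hB : lc (TTF e fun _ => A) (∏ i, e i (f' i)) hF = B :=
    lc_TTF e (fun _ => A) f' hf' hf'0 hF
  -- the coordinates
  let κ : Fin n → Type := fun i => Fin (m (P i))
  let y : ∀ i, κ i → lc A (f' i) (hf' i) := fun i => x (P i)
  have hy : ∀ i, ((aeval (y i) : MvPolynomial (κ i) k →ₐ[k]
      lc A (f' i) (hf' i)).toRingHom).Etale := fun i => (hx (P i) (hPp i)).2.1
  have hjB := isCoprod_TTF e hg hginj fun i => lc A (f' i) (hf' i)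
  have hft : ∀ i, Algebra.FiniteType k (lc A (f' i) (hf' i)) := fun i =>
    finiteType_lc A inferInstance _ _ (hf'0 i)
  have het := coprod_etale' hjB hft y hy
  let z : (Σ i, κ i) → B := fun c => TTFj e (fun i => lc A (f' i) (hf' i)) c.1 (y c.1 c.2)
  have hz : ∀ c, (z c : L) = e c.1 (x (P c.1) c.2 : K) := fun c => rfl
  have hxc : ∀ (P P' : Ideal A) (h : P = P') (c : Fin (m P)),
      (x P c : K) = x P' (Fin.cast (congrArg m h) c) := by
    rintro P _ rfl c
    rfl
  let E := Fintype.equivFin (Σ i, κ i)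
  have hmain : ((aeval (fun i => z (E.symm i)) :
      MvPolynomial (Fin (Fintype.card (Σ i, κ i))) k →ₐ[k] B).toRingHom).Etale := by
    have h1 : (aeval (fun i => z (E.symm i)) :
        MvPolynomial (Fin (Fintype.card (Σ i, κ i))) k →ₐ[k] B).toRingHom =
        ((aeval z : MvPolynomial (Σ i, κ i) k →ₐ[k] B).toRingHom).comp
          (MvPolynomial.renameEquiv k E.symm : _ →+* _) := by
      apply MvPolynomial.ringHom_ext
      · intro r
        change aeval _ (C r) = aeval z (rename E.symm (C r))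
        rw [rename_C, aeval_C, aeval_C]
      · intro i
        change aeval _ (X i) = aeval z (rename E.symm (X i))
        rw [rename_X, aeval_X, aeval_X]
    rw [h1]
    refine RingHom.Etale.stableUnderComposition _ _ ?_ het
    exact RingHom.Etale.of_bijective (MvPolynomial.renameEquiv k E.symm).bijective
  -- the inertia group
  have hin : ∀ (τ : L →ₐ[k] L) (π : Equiv.Perm (Fin n)), (∀ i x, τ (e i x) = e (π i) x) →
      (∀ c, c ∈ TB e A → ∀ h : τ c - c ∈ TB e A, (⟨τ c - c, h⟩ : TB e A) ∈ q) →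
      ∀ i, P (π i) = P i := by
    intro τ π hτ hdq i
    have hC : ∀ c ∈ TTF e (fun _ => A), τ c ∈ TTF e (fun _ => A) := by
      have h1 : TTF e (fun _ => A) ≤ (TTF e (fun _ => A)).comap τ := by
        refine TTF_le e _ _ fun i x hx => ?_
        change τ (e i x) ∈ TTF e (fun _ => A)
        rw [hτ]
        exact e_mem_TTF e (fun _ => A) (π i) hx
      exact fun c hc => h1 hc
    ext a
    change TTFj e (fun _ => A) (π i) a ∈ q ↔ TTFj e (fun _ => A) i a ∈ q
    have hmem : τ (e i (a : K)) - e i (a : K) ∈ TTF e fun _ => A :=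
      (TTF e fun _ => A).sub_mem (hC _ (e_mem_TTF e (fun _ => A) i a.2))
        (e_mem_TTF e (fun _ => A) i a.2)
    have h1 : (⟨τ (e i (a : K)) - e i (a : K), hmem⟩ : TTF e fun _ => A) ∈ q :=
      hdq _ (e_mem_TTF e (fun _ => A) i a.2) hmem
    have h2 : TTFj e (fun _ => A) (π i) a = TTFj e (fun _ => A) i a +
        ⟨τ (e i (a : K)) - e i (a : K), hmem⟩ := by
      apply Subtype.ext
      change e (π i) (a : K) = e i (a : K) + (τ (e i (a : K)) - e i (a : K))
      rw [hτ]
      ring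
    rw [h2]
    constructor
    · intro h
      have := q.sub_mem h h1
      rwa [add_sub_cancel_right] at this
    · intro h
      exact q.add_mem h h1
  have key0 : ∃ (m : ℕ) (x : Fin m → B),
      ((MvPolynomial.aeval x : MvPolynomial (Fin m) k →ₐ[k] B).toRingHom).Etale ∧
      (∀ j, ∃ i, ∃ z ∈ Z, (x j : L) = e i z) ∧
      ∀ (τ : L →ₐ[k] L) (π : Equiv.Perm (Fin n)), (∀ i x, τ (e i x) = e (π i) x) →
        (∀ c, c ∈ TB e A →
          ∀ h : τ c - c ∈ TB e A,
            (⟨τ c - c, h⟩ : TB e A) ∈ q) →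
        τ (∏ i, e i (f' i)) = ∏ i, e i (f' i) ∧
          ∀ j, τ (x j : L) ∈ Submodule.span k (Set.range fun j => (x j : L)) := by
    refine ⟨Fintype.card (Σ i, κ i), fun i => z (E.symm i), hmain, ?_, ?_⟩
    · intro j
      exact ⟨(E.symm j).1, _, (hx (P (E.symm j).1) (hPp _)).2.2 (E.symm j).2, hz _⟩
    · intro τ π hτ hdq
      have hPπ := hin τ π hτ hdq
      constructor
      · rw [map_prod]
        have h1 : ∀ i, τ (e i (f' i)) = e (π i) (f' (π i)) := by
          intro i
          rw [hτ]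
          change e (π i) (f (P i)) = e (π i) (f (P (π i)))
          rw [hPπ]
        rw [Finset.prod_congr rfl fun i _ => h1 i]
        exact Equiv.prod_comp π fun i => e i (f' i)
      · intro j
        apply Submodule.subset_span
        let c : Σ i, κ i := E.symm j
        let c' : Σ i, κ i := ⟨π c.1, Fin.cast (congrArg m (hPπ c.1).symm) c.2⟩
        refine ⟨E c', ?_⟩
        change (z (E.symm (E c')) : L) = τ (z c)
        rw [E.symm_apply_apply, hz, hz, hτ]
        change e (π c.1) (x (P (π c.1)) _ : K) = e (π c.1) (x (P c.1) c.2 : K)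
        rw [hxc (P c.1) (P (π c.1)) (hPπ c.1).symm c.2]
  refine ⟨∏ i, e i (f' i), hF, ?_, ?_⟩
  · change (⟨∏ i, e i (f' i), hF⟩ : TTF e fun _ => A) ∉ q
    have h1 : (⟨∏ i, e i (f' i), hF⟩ : TTF e fun _ => A) =
        ∏ i, TTFj e (fun _ => A) i ⟨f' i, hf' i⟩ := by
      apply Subtype.ext
      change ∏ i, e i (f' i) =
        ((TTF e fun _ => A).val) (∏ i, TTFj e (fun _ => A) i ⟨f' i, hf' i⟩)
      rw [map_prod]
      rfl
    rw [h1]
    intro h2
    obtain ⟨i, -, h3⟩ := (hq.prod_mem_iff).1 h2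
    exact hf'q i h3
  · have key : ∀ C : Subalgebra k L, C = B → ∃ (m : ℕ) (x : Fin m → C),
        ((MvPolynomial.aeval x : MvPolynomial (Fin m) k →ₐ[k] C).toRingHom).Etale ∧
        (∀ j, ∃ i, ∃ z ∈ Z, (x j : L) = e i z) ∧
        ∀ (τ : L →ₐ[k] L) (π : Equiv.Perm (Fin n)), (∀ i x, τ (e i x) = e (π i) x) →
          (∀ c, c ∈ TB e A →
            ∀ h : τ c - c ∈ TB e A,
              (⟨τ c - c, h⟩ : TB e A) ∈ q) →
          τ (∏ i, e i (f' i)) = ∏ i, e i (f' i) ∧
            ∀ j, τ (x j : L) ∈ Submodule.span k (Set.range fun j => (x j : L)) := by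
      intro C hC
      subst hC
      exact key0
    exact key _ hB

end Pool.Agent.Helper49.SQ
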